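import Pool.Agent.HVG.Defs

/-!
The base ring of the graded case: the structure shared by the modules V, L, M, K.
-/

set_option autoImplicit false

namespace Pool.Agent.HVG

open TensorProduct Module Pool.Agent.HV

/-- A base ring: think of the localization of `k[x_1, …, x_d]` at `(x_1, …, x_d)`. -/
structure Base (k A : Type) [Field k] [CommRing A] [Algebra k A] (d : ℕ) where
  x : Fin d → A
  p : Fin d → Derivation k A A
  px : ∀ a b, p a (x b) = if a = b then 1 else 0
  sep : ∀ t : A, Prime t → ∃ a, ¬ t ∣ p a t
  ne_top : Ideal.span (Set.range x) ≠ ⊤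

end Pool.Agent.HVG
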