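import Pool.Agent.HV.Koszul
import Pool.Agent.HV.Der
import Pool.Agent.HV.Res

/-!
Basic definitions for the graded (quasi-homogeneous) case.
-/

set_option autoImplicit false

namespace Pool.Agent.HVG

open TensorProduct Module Pool.Agent.HV

/-- finite free resolutions by finitely generated free modules, inductive form -/
def FFR (R : Type) [CommRing R] : ℕ → (M : Type) → [AddCommGroup M] → [Module R M] → Prop
  | 0, M, _, _ => ∃ r : ℕ, Nonempty (M ≃ₗ[R] (Fin r → R))
  | m + 1, M, _, _ => ∃ (r : ℕ) (g : (Fin r → R) →ₗ[R] M),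
      Function.Surjective g ∧ FFR R m (LinearMap.ker g)

/-- finite free resolutions by finitely generated free modules, as a sequence of maps -/
structure SeqRes (R M : Type) [CommRing R] [AddCommGroup M] [Module R M] where
  s : ℕ
  r : ℕ → ℕ
  φ : ∀ j, (Fin (r (j + 1)) → R) →ₗ[R] (Fin (r j) → R)
  ε : (Fin (r 0) → R) →ₗ[R] M
  surj : Function.Surjective ε
  exact0 : LinearMap.range (φ 0) = LinearMap.ker ε
  exact : ∀ j, LinearMap.range (φ (j + 1)) = LinearMap.ker (φ j)
  zero : ∀ j, s ≤ j → r j = 0

/-! ### Differential forms with coefficients in a field `K`, in coordinates `x_1, …, x_d` -/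

section Forms

variable (k K : Type) [Field k] [Field K] [Algebra k K] (d : ℕ)

/-- forms: `K ⊗_k Λ(k^d)` -/
abbrev Om : Type := K ⊗[k] Lam k d

/-- grade involution -/
noncomputable def inv : Om k K d →ₗ[K] Om k K d :=
  (CliffordAlgebra.involute (Q := (0 : QuadraticForm k (Fin d → k)))).toLinearMap.baseChange K

/-- the scalar part of a form -/
noncomputable def sc : Om k K d →ₗ[K] K :=
  (TensorProduct.AlgebraTensorModule.rid k K K).toLinearMap ∘ₗ ((aug k d).toLinearMap.baseChange K)

/-- `ι_{0} ι_{1} ⋯ ι_{d-1}` followed by the scalar part: the top coefficient -/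
noncomputable def topE : Lam k d →ₗ[k] k :=
  (aug k d).toLinearMap ∘ₗ ((List.ofFn fun a : Fin d => iop k a).prod : Module.End k (Lam k d))

/-- the top coefficient -/
noncomputable def top : Om k K d →ₗ[K] K :=
  (TensorProduct.AlgebraTensorModule.rid k K K).toLinearMap ∘ₗ ((topE k d).baseChange K)

variable {k K d}

/-- contraction with the vector field `∑ v_a ∂_a` -/
noncomputable def con (v : Fin d → K) : Om k K d →ₗ[K] Om k K d :=
  ∑ a, v a • (iop k a).baseChange K

variable (p : Fin d → Derivation k K K)

/-- the differential of a function -/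
noncomputable def dK (y : K) : Om k K d :=
  ∑ a, (p a y) ⊗ₜ[k] ExteriorAlgebra.ι k (Pi.single a (1 : k))

/-- the exterior derivative -/
noncomputable def dd : Om k K d →ₗ[k] Om k K d :=
  ∑ a, TensorProduct.map (p a : K →ₗ[k] K) (eop k a)

end Forms

/-- Coordinates on `K`: `d` elements of `R` and the dual basis of the derivations of `K`. -/
structure Frame (k R K : Type) [Field k] [CommRing R] [Field K] [Algebra k R] [Algebra R K]
    [Algebra k K] (d : ℕ) where
  x : Fin d → R
  p : Fin d → Derivation k K K
  px : ∀ a b, p a (algebraMap R K (x b)) = if a = b then 1 else 0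
  uniq : ∀ D : Derivation k K K, (∀ b, D (algebraMap R K (x b)) = 0) → D = 0

/-- the lattice of those `v` for which `∑ v_a ∂_a` maps `R` to `R` -/
def latt {k : Type} (R : Type) {K : Type} [Field k] [CommRing R] [Field K] [Algebra R K]
    [Algebra k K] {d : ℕ} (p : Fin d → Derivation k K K) : Submodule R (Fin d → K) where
  carrier := {v | ∀ y : R, ∃ r : R, algebraMap R K r = ∑ a, v a * p a (algebraMap R K y)}
  add_mem' := by
    intro v v' hv hv' y
    obtain ⟨r, hr⟩ := hv y
    obtain ⟨r', hr'⟩ := hv' y
    refine ⟨r + r', ?_⟩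
    rw [map_add, hr, hr', ← Finset.sum_add_distrib]
    exact Finset.sum_congr rfl fun a _ => by rw [Pi.add_apply, add_mul]
  zero_mem' := fun y => ⟨0, by simp⟩
  smul_mem' := by
    intro c v hv y
    obtain ⟨r, hr⟩ := hv y
    refine ⟨c * r, ?_⟩
    rw [map_mul, hr, Finset.mul_sum]
    exact Finset.sum_congr rfl fun a _ => by
      rw [Pi.smul_apply, Algebra.smul_def, mul_assoc]

/-- the fractional ideal of those `f` with `f * det(v_1, …, v_d) ∈ R` for all `v_i` in `M` -/
def LL (R : Type) {K : Type} [CommRing R] [Field K] [Algebra R K] {d : ℕ}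
    (M : Submodule R (Fin d → K)) : Set K :=
  {f | ∀ v : Fin d → Fin d → K, (∀ i, v i ∈ M) →
    ∃ r : R, algebraMap R K r = f * Matrix.det (Matrix.of v)}

/-- A quasi-homogeneous local domain. -/
structure QH (k R : Type) [Field k] [CommRing R] [IsLocalRing R] [Algebra k R] (n : ℕ) where
  y : Fin n → R
  w : Fin n → ℕ
  wpos : ∀ i, 0 < w i
  e : Derivation k R R
  ey : ∀ i, e (y i) = w i • y i
  max : IsLocalRing.maximalIdeal R = Ideal.span (Set.range y)
  frac : ∀ r : R, ∃ a ∈ Algebra.adjoin k (Set.range y), ∃ b ∈ Algebra.adjoin k (Set.range y),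
    IsUnit b ∧ r * b = a

end Pool.Agent.HVG
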