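import Pool.Agent.HVG.Defs

/-!
Module D: the determinant of a lattice with a finite free resolution.
-/

set_option autoImplicit false

namespace Pool.Agent.HVG.DetW

open Module Pool.Agent.HV Pool.Agent.HVG

/-- For `x ∉ R` there is a prime `P ⊇ (R : x)` whose localization is a discrete valuation ring,
in elementary form. -/
theorem exists_ht {R K : Type} [CommRing R] [IsDomain R] [IsNoetherianRing R]
    [IsIntegrallyClosed R] [Field K] [Algebra R K] [IsFractionRing R K] (x : K)
    (hx : ¬ ∃ r : R, algebraMap R K r = x) :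
    ∃ (P : Ideal R) (_ : P.IsPrime) (t s : R), (∀ a : R, (∃ r : R, algebraMap R K r = a • x) → a ∈ P) ∧
      t ∈ P ∧ t ≠ 0 ∧ s ∉ P ∧ ∀ q ∈ P, ∃ r : R, s * q = t * r := by
  have hinj : Function.Injective (algebraMap R K) := IsFractionRing.injective R K
  -- the conductor ideals
  let cond : K → Ideal R := fun y =>
    { carrier := {a | ∃ r : R, algebraMap R K r = a • y}
      add_mem' := by
        rintro a b ⟨r, hr⟩ ⟨r', hr'⟩
        exact ⟨r + r', by rw [map_add, hr, hr', add_smul]⟩
      zero_mem' := ⟨0, by rw [map_zero, zero_smul]⟩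
      smul_mem' := by
        rintro c a ⟨r, hr⟩
        exact ⟨c * r, by rw [map_mul, hr, smul_eq_mul, mul_smul, Algebra.smul_def c]⟩ }
  have hcond : ∀ y a, a ∈ cond y ↔ ∃ r : R, algebraMap R K r = a • y := fun y a => Iff.rfl
  let T : Set (Ideal R) := {I | ∃ b : R, I = cond (b • x) ∧ ¬ ∃ r : R, algebraMap R K r = b • x}
  have hT : T.Nonempty := ⟨cond ((1 : R) • x), 1, rfl, by rw [one_smul]; exact hx⟩
  obtain ⟨P, ⟨b, hP, hb⟩, hmax⟩ := (set_has_maximal_iff_noetherian.2 ‹_›) T hT
  set y : K := b • x with hy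
  have hPprime : Ideal.IsPrime P := by
    rw [Ideal.isPrime_iff]
    refine ⟨?_, ?_⟩
    · intro h
      apply hb
      have h1 : (1 : R) ∈ P := by rw [h]; trivial
      rw [hP, hcond, one_smul] at h1
      exact h1
    · intro a c hac
      by_contra hne
      push Not at hne
      obtain ⟨ha, hc⟩ := hne
      have hmem : cond ((c * b) • x) ∈ T := by
        refine ⟨c * b, rfl, ?_⟩
        intro h
        apply hc
        rw [hP, hcond, hy, smul_smul]
        exact h
      have hlt : P < cond ((c * b) • x) := by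
        refine lt_of_le_of_ne ?_ ?_
        · rw [hP]
          intro a' ha'
          rw [hcond] at ha' ⊢
          obtain ⟨r, hr⟩ := ha'
          refine ⟨c * r, ?_⟩
          rw [map_mul, hr, hy, smul_smul, smul_smul, ← Algebra.smul_def, smul_smul]
          congr 1
          ring
        · intro h
          apply ha
          rw [h, hcond]
          rw [hP, hcond] at hac
          obtain ⟨r, hr⟩ := hac
          refine ⟨r, ?_⟩
          rw [hr, hy, smul_smul, smul_smul]
          congr 1
          ring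
      exact hmax _ hmem hlt
  have hint : ∃ t ∈ P, ∃ s : R, s ∉ P ∧ algebraMap R K s = t • y := by
    by_contra hne
    push Not at hne
    apply hb
    have h1 : IsIntegral R y := by
      apply isIntegral_of_smul_mem_submodule (Submodule.map (Algebra.linearMap R K) P)
      · intro h
        have hP0 : P = ⊥ := by
          rw [eq_bot_iff]
          intro a ha
          have h2 : algebraMap R K a ∈ Submodule.map (Algebra.linearMap R K) P := ⟨a, ha, rfl⟩
          rw [h, Submodule.mem_bot] at h2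
          rw [Ideal.mem_bot]
          apply hinj
          rw [h2, map_zero]
        -- but `y` is a fraction
        obtain ⟨⟨a, c⟩, hac⟩ := IsLocalization.surj (nonZeroDivisors R) y
        have h3 : (c : R) ∈ P := by
          rw [hP, hcond]
          refine ⟨a, ?_⟩
          rw [Algebra.smul_def, mul_comm]
          exact hac.symm
        rw [hP0, Ideal.mem_bot] at h3
        exact nonZeroDivisors.ne_zero c.2 h3
      · exact (IsNoetherian.noetherian P).map _
      · rintro _ ⟨a, ha, rfl⟩
        have h2 : a ∈ P := ha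
        rw [hP, hcond] at h2
        obtain ⟨r, hr⟩ := h2
        by_cases hrP : r ∈ P
        · refine ⟨r, hrP, ?_⟩
          rw [Algebra.linearMap_apply, Algebra.linearMap_apply, hr, smul_eq_mul, Algebra.smul_def, mul_comm]
        · exact absurd hr (hne a ha r hrP)
    exact (IsIntegrallyClosed.isIntegral_iff).1 h1
  obtain ⟨t, ht, s, hs, hst⟩ := hint
  refine ⟨P, hPprime, t, s, ?_, ht, ?_, hs, ?_⟩
  · intro a ha
    rw [hP, hcond, hy]
    obtain ⟨r, hr⟩ := ha
    refine ⟨b * r, ?_⟩
    rw [map_mul, hr, smul_smul, ← Algebra.smul_def, smul_smul, mul_comm]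
  · rintro rfl
    apply hs
    have : s = 0 := by
      apply hinj
      rw [hst, zero_smul, map_zero]
    rw [this]
    exact P.zero_mem
  · intro q hq
    rw [hP, hcond] at hq
    obtain ⟨r, hr⟩ := hq
    refine ⟨r, ?_⟩
    apply hinj
    rw [map_mul, map_mul, hst, hr, Algebra.smul_def, Algebra.smul_def]
    ring

/-- removing the factors `t` from a determinant -/
theorem exists_det_notMem {R : Type} [CommRing R] [IsDomain R] [IsNoetherianRing R]
    {P : Ideal R} [P.IsPrime] {t s : R} (ht : t ∈ P) (ht0 : t ≠ 0) (hs : s ∉ P)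
    (hst : ∀ q ∈ P, ∃ r : R, s * q = t * r) {ι1 ι : Type} [Fintype ι1] [DecidableEq ι1]
    [Fintype ι] [DecidableEq ι] (N : Submodule R (ι1 ⊕ ι → R))
    (hsat : ∀ (a : R) (z : ι1 ⊕ ι → R), a ≠ 0 → a • z ∈ N → z ∈ N)
    (w0 : Matrix (ι1 ⊕ ι) (ι1 ⊕ ι) R) (hw0 : ∀ i, w0 (Sum.inl i) ∈ N) (hdet : w0.det ≠ 0) :
    ∃ w : Matrix (ι1 ⊕ ι) (ι1 ⊕ ι) R, (∀ i, w (Sum.inl i) ∈ N) ∧ w.det ∉ P := by
  classical
  let A := Localization.AtPrime P
  have hinjA : Function.Injective (algebraMap R A) :=
    IsLocalization.injective A (P.primeCompl_le_nonZeroDivisors)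
  let T : Set (Ideal A) := {I | ∃ w : Matrix (ι1 ⊕ ι) (ι1 ⊕ ι) R, (∀ i, w (Sum.inl i) ∈ N) ∧
    w.det ≠ 0 ∧ I = Ideal.span {algebraMap R A w.det}}
  have hT : T.Nonempty := ⟨_, w0, hw0, hdet, rfl⟩
  have : IsNoetherianRing A := IsLocalization.isNoetherianRing P.primeCompl A ‹_›
  obtain ⟨I, ⟨w, hw, hwd, hI⟩, hmax⟩ := (set_has_maximal_iff_noetherian.2 this) T hT
  refine ⟨w, hw, ?_⟩
  intro hmem
  -- a relation modulo `P`
  have hrel : ∃ c : ι1 ⊕ ι → R, (∃ i, c i ∉ P) ∧ ∀ j, (∑ i, c i * w i j) ∈ P := by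
    have h0 : (w.map (Ideal.Quotient.mk P)).det = 0 := by
      rw [← RingHom.mapMatrix_apply, ← RingHom.map_det]
      exact Ideal.Quotient.eq_zero_iff_mem.2 hmem
    rw [← Matrix.exists_vecMul_eq_zero_iff] at h0
    obtain ⟨v, hv0, hv⟩ := h0
    choose c hc using fun i => Ideal.Quotient.mk_surjective (v i)
    refine ⟨c, ?_, fun j => ?_⟩
    · obtain ⟨i, hi⟩ := Function.ne_iff.1 hv0
      refine ⟨i, fun h => hi ?_⟩
      rw [← hc i]
      exact Ideal.Quotient.eq_zero_iff_mem.2 h
    · rw [← Ideal.Quotient.eq_zero_iff_mem, map_sum]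
      have := congrFun hv j
      simp only [Matrix.vecMul, dotProduct, Matrix.map_apply, Pi.zero_apply] at this
      rw [← this]
      refine Finset.sum_congr rfl fun i _ => ?_
      rw [map_mul, hc]
  -- normalise the relation
  have hrel2 : ∃ (c : ι1 ⊕ ι → R) (i0 : ι1 ⊕ ι), c i0 ∉ P ∧ (∀ j, (∑ i, c i * w i j) ∈ P) ∧
      (∀ i, i0 = Sum.inl i → ∀ j : ι, c (Sum.inr j) = 0) := by
    obtain ⟨c, ⟨i, hi⟩, hc⟩ := hrel
    by_cases h : ∃ j : ι, c (Sum.inr j) ∉ P
    · obtain ⟨j, hj⟩ := h
      exact ⟨c, Sum.inr j, hj, hc, fun i h => by simp at h⟩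
    · push Not at h
      have hi' : ∃ i' : ι1, i = Sum.inl i' := by
        rcases i with i' | j
        · exact ⟨i', rfl⟩
        · exact absurd (h j) hi
      obtain ⟨i', rfl⟩ := hi'
      refine ⟨Sum.elim (fun i => c (Sum.inl i)) 0, Sum.inl i', hi, fun j => ?_, fun _ _ _ => rfl⟩
      have h1 := hc j
      rw [Fintype.sum_sum_type] at h1 ⊢
      simp only [Sum.elim_inl, Sum.elim_inr, Pi.zero_apply, zero_mul, Finset.sum_const_zero, add_zero]
      refine (Ideal.add_mem_iff_left _ ?_).1 h1
      exact Ideal.sum_mem _ fun j' _ => Ideal.mul_mem_right _ _ (h j')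
  obtain ⟨c, i0, hc0, hc, hcN⟩ := hrel2
  choose z hz using fun j => hst _ (hc j)
  have hz' : t • z = ∑ i, (s * c i) • w i := by
    funext j
    rw [Finset.sum_apply]
    simp only [Pi.smul_apply, smul_eq_mul]
    rw [← hz j, Finset.mul_sum]
    exact Finset.sum_congr rfl fun i _ => by ring
  let w' := w.updateRow i0 z
  have hw' : ∀ i, w' (Sum.inl i) ∈ N := by
    intro i
    by_cases h : Sum.inl i = i0
    · subst h
      simp only [w']
      rw [Matrix.updateRow_self]
      apply hsat t z ht0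
      rw [hz', Fintype.sum_sum_type]
      apply Submodule.add_mem
      · exact Submodule.sum_mem _ fun i _ => N.smul_mem _ (hw i)
      · refine Submodule.sum_mem _ fun j _ => ?_
        rw [hcN i rfl j, mul_zero, zero_smul]
        exact N.zero_mem
    · simp only [w']
      rw [Matrix.updateRow_ne h]
      exact hw i
  have hdet' : t * w'.det = (s * c i0) * w.det := by
    simp only [w']
    rw [← Matrix.det_updateRow_smul, hz']
    exact Matrix.det_updateRow_sum w i0 (fun i => s * c i)
  have hsc : s * c i0 ∉ P := fun h => (Ideal.IsPrime.mem_or_mem ‹_› h).elim hs hc0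
  have hsc0 : s * c i0 ≠ 0 := fun h => hsc (h ▸ P.zero_mem)
  have hwd' : w'.det ≠ 0 := by
    intro h
    rw [h, mul_zero] at hdet'
    exact mul_ne_zero hsc0 hwd hdet'.symm
  have hunit : IsUnit (algebraMap R A (s * c i0)) :=
    IsLocalization.map_units A (⟨s * c i0, hsc⟩ : P.primeCompl)
  obtain ⟨u, hu⟩ := hunit
  have hdetA : algebraMap R A t * algebraMap R A w'.det = u * algebraMap R A w.det := by
    rw [hu, ← map_mul, ← map_mul, hdet']
  apply hmax (Ideal.span {algebraMap R A w'.det}) ⟨w', hw', hwd', rfl⟩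
  rw [hI]
  refine lt_of_le_of_ne ?_ ?_
  · rw [Ideal.span_singleton_le_span_singleton]
    refine ⟨↑u⁻¹ * algebraMap R A t, ?_⟩
    have : algebraMap R A w.det = ↑u⁻¹ * (u * algebraMap R A w.det) := by
      rw [← mul_assoc, Units.inv_mul, one_mul]
    rw [this, ← hdetA]
    ring
  · intro h
    have h1 : algebraMap R A w'.det ∈ Ideal.span {algebraMap R A w.det} := by
      rw [h]
      exact Ideal.mem_span_singleton_self _
    rw [Ideal.mem_span_singleton'] at h1
    obtain ⟨a, ha⟩ := h1
    have h2 : algebraMap R A t * a = u := by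
      have h3 : algebraMap R A w.det ≠ 0 := fun h => hwd (hinjA (by rw [h, map_zero]))
      apply mul_right_cancel₀ h3
      rw [← hdetA, ← ha, mul_assoc]
    have h3 : IsUnit (algebraMap R A t) := isUnit_of_mul_isUnit_left (h2 ▸ u.isUnit)
    rw [IsLocalization.AtPrime.isUnit_to_map_iff A P] at h3
    exact h3 ht

/-- the property of the conclusion, for a basis of the ambient space -/
def Good (R : Type) {K V ι : Type} [CommRing R] [Field K] [Algebra R K] [AddCommGroup V]
    [Module K V] [Module R V] [Fintype ι] [DecidableEq ι] (B : Basis ι K V)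
    (M : Submodule R V) : Prop :=
  ∃ δ : K, δ ≠ 0 ∧ ∀ f : K, (∀ v : ι → V, (∀ i, v i ∈ M) →
    ∃ r : R, algebraMap R K r = f * B.det v) ↔ ∃ r : R, algebraMap R K r = f * δ

section step

variable {R K V ι : Type} [CommRing R] [IsDomain R] [IsNoetherianRing R]
  [IsIntegrallyClosed R] [Field K] [Algebra R K] [IsFractionRing R K]
  [AddCommGroup V] [Module K V] [Module R V] [IsScalarTower R K V] [Fintype ι] [DecidableEq ι]

/-- coordinatewise inclusion -/
noncomputable def inc (R K : Type) [CommRing R] [Field K] [Algebra R K] (r : ℕ) :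
    (Fin r → R) →ₗ[R] (Fin r → K) :=
  LinearMap.pi fun j => (Algebra.linearMap R K) ∘ₗ LinearMap.proj j

theorem inc_apply (r : ℕ) (z : Fin r → R) (j : Fin r) : inc R K r z j = algebraMap R K (z j) := rfl

/-- common denominators -/
theorem exists_inc {r : ℕ} {κ : Type} [Fintype κ] (v : κ → Fin r → K) :
    ∃ (s : R) (z : κ → Fin r → R), s ≠ 0 ∧ ∀ i, inc R K r (z i) = algebraMap R K s • v i := by
  classical
  obtain ⟨s, hs⟩ := IsLocalization.exist_integer_multiples_of_finset (nonZeroDivisors R)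
    (Finset.univ.image fun q : κ × Fin r => v q.1 q.2)
  have hs' : ∀ (i : κ) (j : Fin r), ∃ a : R, algebraMap R K a = algebraMap R K (s : R) * v i j := by
    intro i j
    obtain ⟨a, ha⟩ := hs (v i j) (Finset.mem_image.2 ⟨(i, j), Finset.mem_univ _, rfl⟩)
    exact ⟨a, by rw [ha, Algebra.smul_def]⟩
  choose z hz using hs'
  refine ⟨s, z, nonZeroDivisors.ne_zero s.2, fun i => ?_⟩
  funext j
  rw [inc_apply, hz, Pi.smul_apply, smul_eq_mul]

theorem step {r : ℕ} (B : Basis ι K V) (M : Submodule R V)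
    (hspan : Submodule.span K (M : Set V) = ⊤) (g : (Fin r → R) →ₗ[R] V)
    (hg : LinearMap.range g = M)
    (IH : ∀ (V1 : Type) [AddCommGroup V1] [Module K V1] [Module R V1] [IsScalarTower R K V1]
      (ι1 : Type) [Fintype ι1] [DecidableEq ι1] (B1 : Basis ι1 K V1) (M1 : Submodule R V1),
      Submodule.span K (M1 : Set V1) = ⊤ → Nonempty (LinearMap.ker g ≃ₗ[R] M1) → Good R B1 M1) :
    Good R B M := by
  classical
  have hinj : Function.Injective (algebraMap R K) := IsFractionRing.injective R K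
  let p : (Fin r → K) →ₗ[K] V := (Pi.basisFun K (Fin r)).constr K (fun j => g (Pi.single j 1))
  have hp : ∀ z : Fin r → R, p (inc R K r z) = g z := by
    intro z
    rw [Basis.constr_apply_fintype]
    rw [LinearMap.pi_apply_eq_sum_univ g z]
    refine Finset.sum_congr rfl fun j _ => ?_
    rw [Pi.basisFun_equivFun, LinearEquiv.refl_apply, inc_apply, algebraMap_smul]
    congr 2
    funext i
    rw [Pi.single_apply]
    simp only [eq_comm]
  have hpsurj : LinearMap.range p = ⊤ := by
    rw [eq_top_iff, ← hspan, Submodule.span_le]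
    intro v hv
    rw [← hg] at hv
    obtain ⟨z, rfl⟩ := hv
    exact ⟨inc R K r z, hp z⟩
  obtain ⟨q, hq⟩ := p.exists_rightInverse_of_surjective hpsurj
  have hq' : ∀ v, p (q v) = v := fun v => LinearMap.congr_fun hq v
  let V1 := LinearMap.ker p
  let M1 : Submodule R V1 :=
    Submodule.comap ((LinearMap.ker p).subtype.restrictScalars R) (LinearMap.range (inc R K r))
  have hM1 : ∀ n : V1, n ∈ M1 ↔ ∃ z, inc R K r z = (n : Fin r → K) := fun n => Iff.rfl
  have hspan1 : Submodule.span K (M1 : Set V1) = ⊤ := by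
    rw [eq_top_iff]
    rintro ⟨v, hv⟩ -
    obtain ⟨s, z, hs0, hz⟩ := exists_inc (R := R) (K := K) (κ := Unit) (fun _ => v)
    have hs0' : algebraMap R K s ≠ 0 := fun h => hs0 (hinj (by rw [h, map_zero]))
    have h1 : (algebraMap R K s • (⟨v, hv⟩ : V1)) ∈ M1 := by
      rw [hM1]
      exact ⟨z (), hz ()⟩
    have h2 := Submodule.smul_mem _ (algebraMap R K s)⁻¹ (Submodule.subset_span (R := K) h1)
    rw [smul_smul, inv_mul_cancel₀ hs0', one_smul] at h2
    exact h2
  have hequiv : Nonempty (LinearMap.ker g ≃ₗ[R] M1) := by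
    let φ : LinearMap.ker g →ₗ[R] M1 :=
      { toFun := fun z => ⟨⟨inc R K r z, by
          rw [LinearMap.mem_ker, hp]; exact z.2⟩, ⟨z, rfl⟩⟩
        map_add' := fun z z' => by
          apply Subtype.ext
          apply Subtype.ext
          exact map_add (inc R K r) _ _
        map_smul' := fun c z => by
          apply Subtype.ext
          apply Subtype.ext
          exact map_smul (inc R K r) _ _ }
    refine ⟨LinearEquiv.ofBijective φ ⟨?_, ?_⟩⟩
    · intro z z' h
      apply Subtype.ext
      funext j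
      apply hinj
      have h1 : inc R K r (z : Fin r → R) = inc R K r (z' : Fin r → R) :=
        congrArg (fun n : M1 => ((n : V1) : Fin r → K)) h
      exact congrFun h1 j
    · rintro ⟨⟨v, hv⟩, z, hz⟩
      have hz' : inc R K r z = v := hz
      refine ⟨⟨z, ?_⟩, ?_⟩
      · rw [LinearMap.mem_ker, ← hp, hz']
        exact hv
      · apply Subtype.ext
        apply Subtype.ext
        exact hz'
  let ι1 := Fin (Module.finrank K V1)
  let B1 : Basis ι1 K V1 := Module.finBasis K V1
  obtain ⟨δ1, hδ1, hIH⟩ := IH V1 ι1 B1 M1 hspan1 hequiv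
  -- the splitting
  let e : (V1 × V) ≃ₗ[K] (Fin r → K) := LinearEquiv.ofBijective ((LinearMap.ker p).subtype.coprod q)
    ⟨by
      rw [← LinearMap.ker_eq_bot, LinearMap.ker_eq_bot']
      rintro ⟨n, v⟩ h
      rw [LinearMap.coprod_apply] at h
      have h1 := congrArg p h
      rw [map_add, hq', map_zero] at h1
      have h2 : p ((LinearMap.ker p).subtype n) = 0 := n.2
      rw [h2, zero_add] at h1
      rw [h1, map_zero, add_zero] at h
      have h3 : n = 0 := Subtype.ext h
      exact Prod.ext h3 h1, by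
      intro x
      have hx : p (x - q (p x)) = 0 := by rw [map_sub, hq', sub_self]
      refine ⟨(⟨x - q (p x), hx⟩, p x), ?_⟩
      rw [LinearMap.coprod_apply]
      exact sub_add_cancel _ _⟩
  have he : ∀ n v, e (n, v) = (n : Fin r → K) + q v := fun n v => LinearMap.coprod_apply _ _ _
  have hesymm1 : ∀ n : V1, e.symm (n : Fin r → K) = (n, 0) := by
    intro n
    rw [LinearEquiv.symm_apply_eq, he, map_zero, add_zero]
  have hesymm2 : ∀ x, (e.symm x).2 = p x := by
    intro x
    have h1 := e.apply_symm_apply x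
    rcases hx : e.symm x with ⟨n, v⟩
    rw [hx, he] at h1
    rw [← h1, map_add, hq']
    have h2 : p (n : Fin r → K) = 0 := n.2
    rw [h2, zero_add]
  let B' : Basis (ι1 ⊕ ι) K (Fin r → K) := (B1.prod B).map e
  let σ : Fin r ≃ ι1 ⊕ ι := (Pi.basisFun K (Fin r)).indexEquiv B'
  let B0 : Basis (ι1 ⊕ ι) K (Fin r → K) := (Pi.basisFun K (Fin r)).reindex σ
  set Δ : K := B0.det B' with hΔ
  have hΔ0 : Δ ≠ 0 := (B0.isUnit_det B').ne_zero
  have hformula : ∀ (n : ι1 → V1) (x : ι → Fin r → K),
      B0.det (Sum.elim (fun i => (n i : Fin r → K)) x) =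
        Δ * (B1.det n * B.det (fun i => p (x i))) := by
    intro n x
    rw [AlternatingMap.eq_smul_basis_det B' B0.det, AlternatingMap.smul_apply, smul_eq_mul, ← hΔ]
    congr 1
    rw [Basis.det_apply, Basis.det_apply, Basis.det_apply, ← Matrix.det_fromBlocks_zero₂₁
      (B1.toMatrix n) (Matrix.of fun (i : ι1) (j : ι) => B1.repr (e.symm (x j)).1 i)
      (B.toMatrix fun i => p (x i))]
    congr 1
    ext i j
    rcases i with i | i <;> rcases j with j | j
    · rw [Matrix.fromBlocks_apply₁₁, Basis.toMatrix_apply, Basis.toMatrix_apply]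
      show ((B1.prod B).map e).repr (n j : Fin r → K) (Sum.inl i) = _
      rw [Basis.map_repr, LinearEquiv.trans_apply, hesymm1, Basis.prod_repr_inl]
    · rw [Matrix.fromBlocks_apply₁₂, Basis.toMatrix_apply]
      show ((B1.prod B).map e).repr (x j) (Sum.inl i) = _
      rw [Basis.map_repr, LinearEquiv.trans_apply, Basis.prod_repr_inl, Matrix.of_apply]
    · rw [Matrix.fromBlocks_apply₂₁, Basis.toMatrix_apply]
      show ((B1.prod B).map e).repr (n j : Fin r → K) (Sum.inr i) = _
      rw [Basis.map_repr, LinearEquiv.trans_apply, hesymm1, Basis.prod_repr_inr]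
      simp
    · rw [Matrix.fromBlocks_apply₂₂, Basis.toMatrix_apply, Basis.toMatrix_apply]
      show ((B1.prod B).map e).repr (x j) (Sum.inr i) = _
      rw [Basis.map_repr, LinearEquiv.trans_apply, Basis.prod_repr_inr, hesymm2]
  -- integral determinants
  have hintdet : ∀ w : Matrix (ι1 ⊕ ι) (ι1 ⊕ ι) R,
      B0.det (fun i => inc R K r (fun j => w i (σ j))) = algebraMap R K w.det := by
    intro w
    rw [Basis.det_apply, ← Matrix.det_transpose, RingHom.map_det]
    congr 1
    ext i j
    rw [Matrix.transpose_apply, Basis.toMatrix_apply, RingHom.mapMatrix_apply, Matrix.map_apply]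
    show ((Pi.basisFun K (Fin r)).reindex σ).repr _ j = _
    rw [Basis.repr_reindex_apply, Pi.basisFun_repr, inc_apply, Equiv.apply_symm_apply]
  let g' : (ι1 ⊕ ι → R) →ₗ[R] V := g ∘ₗ LinearMap.funLeft R R σ
  have hg' : ∀ z : ι1 ⊕ ι → R, g' z = p (inc R K r (fun j => z (σ j))) := by
    intro z
    rw [hp]
    rfl
  -- the key statement
  have hkey : ∀ x : K, (∀ w : Matrix (ι1 ⊕ ι) (ι1 ⊕ ι) R, (∀ i, w (Sum.inl i) ∈ LinearMap.ker g') →
      ∃ a : R, algebraMap R K a = x * algebraMap R K w.det) → ∃ a : R, algebraMap R K a = x := by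
    intro x hx
    by_contra hne
    obtain ⟨P, hP, t, s, hcond, ht, ht0, hs, hst⟩ := exists_ht x hne
    obtain ⟨s0, z, hs0, hz⟩ := exists_inc (R := R) (K := K) (fun i => B' i)
    have hs0' : algebraMap R K s0 ≠ 0 := fun h => hs0 (hinj (by rw [h, map_zero]))
    let w0 : Matrix (ι1 ⊕ ι) (ι1 ⊕ ι) R := Matrix.of fun i j => z i (σ.symm j)
    have hw0 : ∀ i, (fun j => w0 i (σ j)) = z i := by
      intro i
      funext j
      simp only [w0, Matrix.of_apply, Equiv.symm_apply_apply]
    obtain ⟨w, hw, hwP⟩ := exists_det_notMem ht ht0 hs hst (LinearMap.ker g') (by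
      intro a z ha hz
      rw [LinearMap.mem_ker, map_smul, ← algebraMap_smul K] at hz
      rw [LinearMap.mem_ker]
      exact (smul_eq_zero.1 hz).resolve_left fun h => ha (hinj (by rw [h, map_zero])))
      w0 (by
        intro i
        rw [LinearMap.mem_ker, hg', hw0, hz, map_smul]
        have : p (B' (Sum.inl i)) = 0 := by
          have h1 : B' (Sum.inl i) = (B1 i : Fin r → K) := by
            show ((B1.prod B).map e) (Sum.inl i) = _
            rw [Basis.map_apply]
            have h2 : (B1.prod B) (Sum.inl i) = (B1 i, 0) := by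
              apply Prod.ext
              · exact Basis.prod_apply_inl_fst B1 B i
              · exact Basis.prod_apply_inl_snd B1 B i
            rw [h2, he, map_zero, add_zero]
          rw [h1]
          exact (B1 i).2
        rw [this, smul_zero]) (by
        intro h
        have h1 := hintdet w0
        simp only [hw0, hz] at h1
        rw [h, map_zero] at h1
        have h2 : B0.det (fun i => algebraMap R K s0 • B' i) =
            (∏ _i : ι1 ⊕ ι, algebraMap R K s0) • B0.det B' :=
          B0.det.toMultilinearMap.map_smul_univ (fun _ => algebraMap R K s0) B'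
        rw [h2, smul_eq_mul] at h1
        exact mul_ne_zero (Finset.prod_ne_zero_iff.2 fun _ _ => hs0') hΔ0 h1)
    obtain ⟨a, ha⟩ := hx w hw
    exact hwP (hcond w.det ⟨a, by rw [ha, Algebra.smul_def, mul_comm]⟩)
  have hM : ∀ v ∈ M, ∃ z : Fin r → R, p (inc R K r z) = v := by
    intro v hv
    rw [← hg] at hv
    obtain ⟨z, rfl⟩ := hv
    exact ⟨z, hp z⟩
  refine ⟨(Δ * δ1)⁻¹, inv_ne_zero (mul_ne_zero hΔ0 hδ1), fun f => ⟨fun hf => ?_, fun hf => ?_⟩⟩
  · apply hkey
    intro w hw
    -- the rows of `w`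
    let n : ι1 → V1 := fun i => ⟨inc R K r (fun j => w (Sum.inl i) (σ j)), by
      rw [LinearMap.mem_ker, ← hg']; exact hw i⟩
    let x : ι → Fin r → K := fun i => inc R K r (fun j => w (Sum.inr i) (σ j))
    have h1 := hformula n x
    have h2 : (Sum.elim (fun i => (n i : Fin r → K)) x) =
        fun i => inc R K r (fun j => w i (σ j)) := by
      funext i
      rcases i with i | i <;> rfl
    rw [h2, hintdet] at h1
    obtain ⟨a, ha⟩ := hf (fun i => p (x i)) (fun i => by
      rw [← hg]
      exact ⟨_, (hp _).symm⟩)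
    obtain ⟨b, hb⟩ := (hIH δ1⁻¹).2 ⟨1, by rw [map_one, inv_mul_cancel₀ hδ1]⟩ n
      (fun i => (hM1 _).2 ⟨_, rfl⟩)
    refine ⟨a * b, ?_⟩
    rw [map_mul, ha, hb, h1]
    field_simp
  · intro v hv
    obtain ⟨c, hc⟩ := hf
    choose z hz using fun i => hM (v i) (hv i)
    obtain ⟨b, hb⟩ := (hIH (Δ * B.det v)).1 (fun n hn => by
      choose y hy using fun i => (hM1 (n i)).1 (hn i)
      have h1 := hformula n (fun i => inc R K r (z i))
      simp only [hz] at h1
      have h2 : (Sum.elim (fun i => (n i : Fin r → K)) fun i => inc R K r (z i)) =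
          fun i => inc R K r (fun j => (Matrix.of fun (i' j' : ι1 ⊕ ι) =>
            (Sum.elim y z i' (σ.symm j'))) i (σ j)) := by
        funext i
        rcases i with i | i
        · simp only [Sum.elim_inl, Matrix.of_apply, Equiv.symm_apply_apply]
          exact (hy i).symm
        · simp only [Sum.elim_inr, Matrix.of_apply, Equiv.symm_apply_apply]
      rw [h2, hintdet] at h1
      exact ⟨_, by rw [h1]; ring⟩)
    refine ⟨c * b, ?_⟩
    rw [map_mul, hc, hb]
    field_simp

theorem good_zero (B : Basis ι K V) (M : Submodule R V) [Subsingleton M]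
    (hspan : Submodule.span K (M : Set V) = ⊤) : Good R B M := by
  have hV : ∀ v : V, v = 0 := by
    intro v
    have h : v ∈ Submodule.span K (M : Set V) := by rw [hspan]; trivial
    have h2 : (M : Set V) ⊆ {0} := by
      intro x hx
      have := Subsingleton.elim (⟨x, hx⟩ : M) 0
      exact congrArg Subtype.val this
    have h3 := Submodule.span_mono (R := K) h2 h
    rw [Submodule.mem_span_singleton] at h3
    obtain ⟨a, ha⟩ := h3
    rw [← ha, smul_zero]
  have hι : IsEmpty ι := ⟨fun i => B.ne_zero i (hV _)⟩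
  refine ⟨1, one_ne_zero, fun f => ⟨fun h => ?_, fun h v _ => ?_⟩⟩
  · obtain ⟨r, hr⟩ := h (fun i => hι.elim i) (fun i => hι.elim i)
    refine ⟨r, ?_⟩
    rw [hr, Basis.det_apply, Matrix.det_isEmpty]
  · obtain ⟨r, hr⟩ := h
    refine ⟨r, ?_⟩
    rw [hr, Basis.det_apply, Matrix.det_isEmpty]

end step

theorem ffr_equiv {R : Type} [CommRing R] : ∀ (m : ℕ) (M M' : Type) [AddCommGroup M] [Module R M]
    [AddCommGroup M'] [Module R M'] (_ : M ≃ₗ[R] M'), FFR R m M → FFR R m M'
  | 0, M, M', _, _, _, _, e, h => by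
    obtain ⟨r, ⟨f⟩⟩ := h
    exact ⟨r, ⟨e.symm.trans f⟩⟩
  | m + 1, M, M', _, _, _, _, e, h => by
    obtain ⟨r, g, hg, hk⟩ := h
    refine ⟨r, e.toLinearMap ∘ₗ g, e.surjective.comp hg, ?_⟩
    refine ffr_equiv m _ _ (LinearEquiv.ofEq _ _ ?_) hk
    rw [LinearMap.ker_comp_of_ker_eq_bot _ e.ker]

theorem good_of_ffr {R K : Type} [CommRing R] [IsDomain R] [IsNoetherianRing R]
    [IsIntegrallyClosed R] [Field K] [Algebra R K] [IsFractionRing R K] :
    ∀ (m : ℕ) (V : Type) [AddCommGroup V] [Module K V] [Module R V] [IsScalarTower R K V]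
    (ι : Type) [Fintype ι] [DecidableEq ι] (B : Basis ι K V) (M : Submodule R V),
    Submodule.span K (M : Set V) = ⊤ → FFR R m M → Good R B M := by
  intro m
  induction m with
  | zero =>
    intro V _ _ _ _ ι _ _ B M hspan h
    obtain ⟨r, ⟨f⟩⟩ := h
    refine step B M hspan (M.subtype ∘ₗ f.symm.toLinearMap) ?_ ?_
    · rw [LinearMap.range_comp, LinearEquiv.range, Submodule.map_top, Submodule.range_subtype]
    · intro V1 _ _ _ _ ι1 _ _ B1 M1 hspan1 ⟨e⟩
      have hk : LinearMap.ker (M.subtype ∘ₗ f.symm.toLinearMap) = ⊥ := by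
        rw [LinearMap.ker_comp_of_ker_eq_bot _ M.ker_subtype, LinearEquiv.ker]
      have hsub : Subsingleton M1 := by
        constructor
        intro a b
        obtain ⟨a', rfl⟩ := e.surjective a
        obtain ⟨b', rfl⟩ := e.surjective b
        congr 1
        apply Subtype.ext
        have ha : (a' : Fin r → R) ∈ (⊥ : Submodule R (Fin r → R)) := hk ▸ a'.2
        have hb : (b' : Fin r → R) ∈ (⊥ : Submodule R (Fin r → R)) := hk ▸ b'.2
        rw [Submodule.mem_bot] at ha hb
        rw [ha, hb]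
      exact good_zero B1 M1 hspan1
  | succ m ih =>
    intro V _ _ _ _ ι _ _ B M hspan h
    obtain ⟨r, g, hg, hk⟩ := h
    refine step B M hspan (M.subtype ∘ₗ g) ?_ ?_
    · rw [LinearMap.range_comp, LinearMap.range_eq_top.2 hg, Submodule.map_top,
        Submodule.range_subtype]
    · intro V1 _ _ _ _ ι1 _ _ B1 M1 hspan1 ⟨e⟩
      have hk' : LinearMap.ker (M.subtype ∘ₗ g) = LinearMap.ker g :=
        LinearMap.ker_comp_of_ker_eq_bot _ M.ker_subtype
      exact ih V1 ι1 B1 M1 hspan1 (ffr_equiv m _ _ ((LinearEquiv.ofEq _ _ hk'.symm).trans e) hk)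

end Pool.Agent.HVG.DetW

namespace Pool.Agent.HVG

open Module Pool.Agent.HVG.DetW

theorem det_lattice {R K : Type} [CommRing R] [IsDomain R] [IsNoetherianRing R]
    [IsIntegrallyClosed R] [Field K] [Algebra R K] [IsFractionRing R K] {d : ℕ}
    (M : Submodule R (Fin d → K)) (hfg : M.FG) (hspan : Submodule.span K (M : Set (Fin d → K)) = ⊤)
    {m : ℕ} (hres : FFR R m M) :
    ∃ δ : K, δ ≠ 0 ∧ ∀ f : K, f ∈ LL R M ↔ ∃ r : R, algebraMap R K r = f * δ := by
  have _ := hfg
  obtain ⟨δ, hδ, h⟩ := good_of_ffr m (Fin d → K) (Fin d) (Pi.basisFun K (Fin d)) M hspan hres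
  refine ⟨δ, hδ, fun f => ?_⟩
  rw [← h f]
  simp only [Pi.basisFun_det_apply]
  rfl

end Pool.Agent.HVG
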