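import Pool.Agent.HVG.FormDef

/-!
Calculus of differential forms in coordinates.
-/

set_option autoImplicit false

namespace Pool.Agent.HVG

open TensorProduct Module Pool.Agent.HV

/-! ### Operators on the exterior algebra -/

section Lam

variable {k : Type} [Field k] {d : ℕ}

/-- the grade involution of the exterior algebra -/
noncomputable abbrev lamInv (k : Type) [Field k] (d : ℕ) : Lam k d →ₐ[k] Lam k d :=
  CliffordAlgebra.involute (Q := (0 : QuadraticForm k (Fin d → k)))

theorem lamInv_ι (m : Fin d → k) : lamInv k d (ExteriorAlgebra.ι k m) = - ExteriorAlgebra.ι k m :=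
  CliffordAlgebra.involute_ι (Q := (0 : QuadraticForm k (Fin d → k))) m

theorem iop_ι_mul (a : Fin d) (m : Fin d → k) (w : Lam k d) :
    iop k a (ExteriorAlgebra.ι k m * w) = m a • w - ExteriorAlgebra.ι k m * iop k a w :=
  CliffordAlgebra.contractLeft_ι_mul (Q := (0 : QuadraticForm k (Fin d → k)))
    (d := (LinearMap.proj a : (Fin d → k) →ₗ[k] k)) m w

theorem iop_ι (a : Fin d) (m : Fin d → k) :
    iop k a (ExteriorAlgebra.ι k m) = m a • 1 := by
  have := iop_ι_mul a m (1 : Lam k d)
  rwa [mul_one, iop_one, mul_zero, sub_zero] at this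

theorem iop_sq (a : Fin d) : iop k a * iop k a = 0 := by
  apply LinearMap.ext
  intro w
  rw [Module.End.mul_apply]
  unfold iop
  rw [CliffordAlgebra.contractLeft_contractLeft]
  rfl

theorem eop_sq (a : Fin d) : eop k a * eop k a = 0 := by
  apply LinearMap.ext
  intro w
  rw [Module.End.mul_apply, eop_apply, eop_apply, ← mul_assoc, ExteriorAlgebra.ι_sq_zero, zero_mul]
  rfl

theorem lam_induction {P : Lam k d → Prop} (h1 : ∀ r : k, P (algebraMap k _ r))
    (h2 : ∀ x y, P x → P y → P (x + y)) (h3 : ∀ (m : Fin d → k) (x), P x → P (ExteriorAlgebra.ι k m * x))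
    (x : Lam k d) : P x :=
  CliffordAlgebra.left_induction (Q := (0 : QuadraticForm k (Fin d → k))) h1
    (fun x y => h2 x y) (fun x m h => h3 m x h) x

theorem iop_algebraMap (a : Fin d) (r : k) : iop k a (algebraMap k (Lam k d) r) = 0 := by
  rw [Algebra.algebraMap_eq_smul_one, map_smul, iop_one, smul_zero]

theorem iop_mul (a : Fin d) (x : Lam k d) : ∀ w : Lam k d,
    iop k a (x * w) = iop k a x * w + lamInv k d x * iop k a w := by
  induction x using lam_induction with
  | h1 r =>
    intro w
    rw [iop_algebraMap, zero_mul, zero_add, AlgHom.commutes, ← Algebra.smul_def, map_smul,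
      Algebra.smul_def]
  | h2 x y hx hy =>
    intro w
    rw [add_mul, map_add, hx, hy, map_add, map_add, add_mul, add_mul]
    abel
  | h3 m x hx =>
    intro w
    rw [mul_assoc, iop_ι_mul, iop_ι_mul, hx, map_mul, lamInv_ι, sub_mul, smul_mul_assoc, mul_add,
      neg_mul, neg_mul, mul_assoc, mul_assoc]
    abel

theorem iop_lamInv (a : Fin d) (x : Lam k d) :
    iop k a (lamInv k d x) = - lamInv k d (iop k a x) := by
  induction x using lam_induction with
  | h1 r => rw [AlgHom.commutes, iop_algebraMap, map_zero, neg_zero]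
  | h2 x y hx hy => rw [map_add, map_add, hx, hy, map_add, map_add, neg_add]
  | h3 m x hx =>
    rw [map_mul, lamInv_ι, neg_mul, map_neg, iop_ι_mul, iop_ι_mul, hx, map_sub, map_smul, map_mul,
      lamInv_ι, mul_neg, neg_mul]

end Lam

/-! ### Forms -/

section Any

variable {k : Type} [Field k] {d : ℕ} {R : Type} [CommRing R] [Algebra k R]

/-- the operators over `R` -/
noncomputable def Iop (R : Type) [CommRing R] [Algebra k R] (a : Fin d) :
    Module.End R (R ⊗[k] Lam k d) := (iop k a).baseChange R

/-- the operators over `R` -/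
noncomputable def Eop (R : Type) [CommRing R] [Algebra k R] (a : Fin d) :
    Module.End R (R ⊗[k] Lam k d) := (eop k a).baseChange R

theorem Iop_tmul (a : Fin d) (r : R) (w : Lam k d) : Iop R a (r ⊗ₜ[k] w) = r ⊗ₜ[k] iop k a w := rfl

theorem Eop_tmul (a : Fin d) (r : R) (w : Lam k d) : Eop R a (r ⊗ₜ[k] w) = r ⊗ₜ[k] eop k a w := rfl

theorem invR_tmul (r : R) (w : Lam k d) : invR k d R (r ⊗ₜ[k] w) = r ⊗ₜ[k] lamInv k d w := rfl

theorem Iop_Iop (a b : Fin d) : Iop (k := k) R a * Iop R b + Iop R b * Iop R a = 0 := by
  have h := congrArg (Module.End.baseChangeHom k R (Lam k d)) (iop_iop (K := k) a b)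
  rw [map_add, map_mul, map_mul, map_zero] at h
  exact h

theorem Eop_Eop (a b : Fin d) : Eop (k := k) R a * Eop R b + Eop R b * Eop R a = 0 := by
  have h := congrArg (Module.End.baseChangeHom k R (Lam k d)) (eop_eop (K := k) a b)
  rw [map_add, map_mul, map_mul, map_zero] at h
  exact h

theorem Iop_sq (a : Fin d) : Iop (k := k) R a * Iop R a = 0 := by
  have h := congrArg (Module.End.baseChangeHom k R (Lam k d)) (iop_sq (k := k) a)
  rw [map_mul, map_zero] at h
  exact h

theorem Eop_sq (a : Fin d) : Eop (k := k) R a * Eop R a = 0 := by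
  have h := congrArg (Module.End.baseChangeHom k R (Lam k d)) (eop_sq (k := k) a)
  rw [map_mul, map_zero] at h
  exact h

theorem Iop_Eop (a b : Fin d) :
    Iop (k := k) R a * Eop R b + Eop R b * Iop R a = if a = b then 1 else 0 := by
  have h := congrArg (Module.End.baseChangeHom k R (Lam k d)) (iop_eop (K := k) a b)
  rw [map_add, map_mul, map_mul, apply_ite (Module.End.baseChangeHom k R (Lam k d)), map_one,
    map_zero] at h
  exact h

theorem conR_eq (c : Fin d → R) :
    (conR c : Module.End R (R ⊗[k] Lam k d)) = ∑ a, c a • Iop R a := rfl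

theorem conR_mul_conR (c c' : Fin d → R) :
    (conR c : Module.End R (R ⊗[k] Lam k d)) * conR c' + conR c' * conR c = 0 := by
  rw [conR_eq, conR_eq, Finset.sum_mul_sum, Finset.sum_mul_sum,
    Finset.sum_comm (s := Finset.univ) (t := Finset.univ) (f := fun i j => (c' i • Iop R i) * (c j • Iop (k := k) R j)),
    ← Finset.sum_add_distrib]
  refine Finset.sum_eq_zero fun a _ => ?_
  rw [← Finset.sum_add_distrib]
  refine Finset.sum_eq_zero fun b _ => ?_
  rw [smul_mul_smul_comm, smul_mul_smul_comm, mul_comm (c' b), ← smul_add, Iop_Iop, smul_zero]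

theorem sum_sq {ι : Type} [DecidableEq ι] {S : Type} [Ring S] [Module R S] [IsScalarTower R S S]
    [SMulCommClass R S S] (x : ι → S)
    (h1 : ∀ i, x i * x i = 0) (h2 : ∀ i j, x i * x j + x j * x i = 0) (c : ι → R) (s : Finset ι) :
    (∑ a ∈ s, c a • x a) * (∑ a ∈ s, c a • x a) = 0 := by
  induction s using Finset.induction_on with
  | empty => simp
  | insert a s ha ih =>
    rw [Finset.sum_insert ha, add_mul, mul_add, mul_add, ih, add_zero, smul_mul_smul_comm, h1,
      smul_zero, zero_add, Finset.mul_sum, Finset.sum_mul, ← Finset.sum_add_distrib]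
    refine Finset.sum_eq_zero fun b _ => ?_
    rw [smul_mul_smul_comm, smul_mul_smul_comm, mul_comm (c b), ← smul_add, h2, smul_zero]

theorem conR_sq (c : Fin d → R) :
    (conR c : Module.End R (R ⊗[k] Lam k d)) * conR c = 0 := by
  rw [conR_eq]
  exact sum_sq (S := Module.End R (R ⊗[k] Lam k d)) (fun a => Iop R a) Iop_sq Iop_Iop c Finset.univ

theorem conR_conR0 (c : Fin d → R) (l : R ⊗[k] Lam k d) : conR c (conR c l) = 0 := by
  have := LinearMap.congr_fun (conR_sq (k := k) c) l
  exact this

theorem Iop_invR (a : Fin d) (l : R ⊗[k] Lam k d) :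
    Iop R a (invR k d R l) = - invR k d R (Iop R a l) := by
  induction l using TensorProduct.induction_on with
  | zero => simp
  | tmul r w => rw [invR_tmul, Iop_tmul, iop_lamInv, Iop_tmul, invR_tmul, TensorProduct.tmul_neg]
  | add x y hx hy => rw [map_add, map_add, hx, hy, map_add, map_add, neg_add]

theorem conR_invR0 (c : Fin d → R) (l : R ⊗[k] Lam k d) :
    conR c (invR k d R l) = - invR k d R (conR c l) := by
  rw [conR_eq, LinearMap.sum_apply, LinearMap.sum_apply, map_sum, ← Finset.sum_neg_distrib]
  refine Finset.sum_congr rfl fun a _ => ?_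
  rw [LinearMap.smul_apply, LinearMap.smul_apply, Iop_invR, map_smul, smul_neg]

theorem Iop_mul (a : Fin d) (α η : R ⊗[k] Lam k d) :
    Iop R a (α * η) = Iop R a α * η + invR k d R α * Iop R a η := by
  induction α using TensorProduct.induction_on with
  | zero => simp
  | add x y hx hy => rw [add_mul, map_add, map_add, map_add, add_mul, add_mul, hx, hy]; abel
  | tmul f x =>
    induction η using TensorProduct.induction_on with
    | zero => simp
    | add u v hu hv => rw [mul_add, map_add, map_add, mul_add, mul_add, hu, hv]; abel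
    | tmul g w =>
      rw [Algebra.TensorProduct.tmul_mul_tmul, Iop_tmul, iop_mul, Iop_tmul, invR_tmul, Iop_tmul,
        Algebra.TensorProduct.tmul_mul_tmul, Algebra.TensorProduct.tmul_mul_tmul,
        TensorProduct.tmul_add]

theorem conR_mul (c : Fin d → R) (α η : R ⊗[k] Lam k d) :
    conR c (α * η) = conR c α * η + invR k d R α * conR c η := by
  rw [conR_eq, LinearMap.sum_apply, LinearMap.sum_apply, LinearMap.sum_apply, Finset.sum_mul,
    Finset.mul_sum, ← Finset.sum_add_distrib]
  refine Finset.sum_congr rfl fun a _ => ?_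
  rw [LinearMap.smul_apply, LinearMap.smul_apply, LinearMap.smul_apply, Iop_mul, smul_add,
    smul_mul_assoc, mul_smul_comm]

end Any

section A

variable {k K : Type} [Field k] [Field K] [Algebra k K] {d : ℕ} (p : Fin d → Derivation k K K)
  (v v' : Fin d → K)

theorem con_eq : (con v : Om k K d →ₗ[K] Om k K d) = conR v := rfl

theorem con_con (η : Om k K d) : con v (con v' η) = - con v' (con v η) := by
  rw [eq_neg_iff_add_eq_zero]
  exact LinearMap.congr_fun (conR_mul_conR (k := k) v v') η

theorem con_self (η : Om k K d) : con v (con v η) = 0 := conR_conR0 v η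

theorem con_one : con v (1 : Om k K d) = 0 := by
  rw [con_eq, conR_eq, LinearMap.sum_apply]
  refine Finset.sum_eq_zero fun a _ => ?_
  rw [LinearMap.smul_apply, Algebra.TensorProduct.one_def, Iop_tmul, iop_one,
    TensorProduct.tmul_zero, smul_zero]

theorem dK_mul_eq (y : K) (η : Om k K d) : dK p y * η = ∑ a, p a y • Eop K a η := by
  unfold dK
  rw [Finset.sum_mul]
  refine Finset.sum_congr rfl fun a _ => ?_
  induction η using TensorProduct.induction_on with
  | zero => simp
  | add u v hu hv => rw [mul_add, map_add, smul_add, hu, hv]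
  | tmul f w =>
    rw [Algebra.TensorProduct.tmul_mul_tmul, Eop_tmul, eop_apply, TensorProduct.smul_tmul',
      smul_eq_mul]

theorem con_dK_mul (y : K) (η : Om k K d) :
    con v (dK p y * η) = (∑ a, v a * p a y) • η - dK p y * con v η := by
  rw [dK_mul_eq, dK_mul_eq, con_eq, conR_eq, LinearMap.sum_apply, Finset.sum_smul]
  have h1 : ∀ a : Fin d, (v a • Iop (k := k) K a) (∑ b, p b y • Eop K b η) =
      (v a * p a y) • η - ∑ b, p b y • Eop K b ((v a • Iop (k := k) K a) η) := by
    intro a
    rw [map_sum, eq_sub_iff_add_eq, ← Finset.sum_add_distrib]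
    have h2 : ∀ b : Fin d, (v a • Iop (k := k) K a) (p b y • Eop K b η) +
        p b y • Eop K b ((v a • Iop (k := k) K a) η) = if a = b then (v a * p a y) • η else 0 := by
      intro b
      have h3 := LinearMap.congr_fun (Iop_Eop (k := k) (R := K) a b) η
      rw [LinearMap.add_apply, Module.End.mul_apply, Module.End.mul_apply] at h3
      rw [map_smul, LinearMap.smul_apply, LinearMap.smul_apply, map_smul, ← smul_add, ← smul_add,
        h3]
      by_cases h : a = b
      · subst h
        rw [if_pos rfl, if_pos rfl, smul_smul, Module.End.one_apply, mul_comm]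
      · rw [if_neg h, if_neg h, LinearMap.zero_apply, smul_zero, smul_zero]
    rw [Finset.sum_congr rfl fun b _ => h2 b, Finset.sum_ite_eq, if_pos (Finset.mem_univ _)]
  rw [Finset.sum_congr rfl fun a _ => h1 a, Finset.sum_sub_distrib, Finset.sum_comm]
  congr 1
  refine Finset.sum_congr rfl fun b _ => ?_
  rw [LinearMap.sum_apply, map_sum, Finset.smul_sum]

theorem con_mul (α η : Om k K d) : con v (α * η) = con v α * η + inv k K d α * con v η :=
  conR_mul v α η

theorem inv_con (η : Om k K d) : con v (inv k K d η) = - inv k K d (con v η) := conR_invR0 v η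

theorem inv_mul (α β : Om k K d) : inv k K d (α * β) = inv k K d α * inv k K d β := by
  induction α using TensorProduct.induction_on with
  | zero => simp
  | add x y hx hy => rw [add_mul, map_add, map_add, add_mul, hx, hy]
  | tmul f x =>
    induction β using TensorProduct.induction_on with
    | zero => simp
    | add u v hu hv => rw [mul_add, map_add, map_add, mul_add, hu, hv]
    | tmul g w =>
      rw [Algebra.TensorProduct.tmul_mul_tmul]
      change (f * g) ⊗ₜ[k] lamInv k d (x * w) = (f ⊗ₜ[k] lamInv k d x) * (g ⊗ₜ[k] lamInv k d w)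
      rw [map_mul, Algebra.TensorProduct.tmul_mul_tmul]

/-! #### products of anticommuting elements -/

theorem list_prod_comm {S ι : Type} [Ring S] (x : ι → S) (h : ∀ i j, x i * x j + x j * x i = 0)
    (b : ι) (l : List ι) : ∃ s : S, (s = 1 ∨ s = -1) ∧ (l.map x).prod * x b = s * (x b * (l.map x).prod) := by
  induction l with
  | nil => exact ⟨1, Or.inl rfl, by simp⟩
  | cons a l ih =>
    obtain ⟨s, hs, he⟩ := ih
    refine ⟨-s, ?_, ?_⟩
    · rcases hs with rfl | rfl
      · exact Or.inr rfl
      · exact Or.inl (neg_neg 1)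
    · rw [List.map_cons, List.prod_cons, mul_assoc, he]
      have h1 : x a * x b = - (x b * x a) := eq_neg_of_add_eq_zero_left (h a b)
      have h2 : x a * s = s * x a := by
        rcases hs with rfl | rfl
        · rw [mul_one, one_mul]
        · rw [mul_neg, mul_one, neg_mul, one_mul]
      rw [← mul_assoc, h2, mul_assoc, ← mul_assoc (x a), h1]
      simp only [neg_mul, mul_neg, mul_assoc]

theorem list_prod_mul_zero {S ι : Type} [Ring S] (x : ι → S) (h0 : ∀ i, x i * x i = 0)
    (h : ∀ i j, x i * x j + x j * x i = 0) (b : ι) (l : List ι) (hb : b ∈ l) :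
    x b * (l.map x).prod = 0 := by
  induction l with
  | nil => cases hb
  | cons a l ih =>
    rw [List.map_cons, List.prod_cons, ← mul_assoc]
    rcases List.mem_cons.1 hb with rfl | hb
    · rw [h0, zero_mul]
    · rw [eq_neg_of_add_eq_zero_left (h b a), neg_mul, mul_assoc, ih hb, mul_zero, neg_zero]

theorem list_prod_mul_zero' {S ι : Type} [Ring S] (x : ι → S) (h0 : ∀ i, x i * x i = 0)
    (h : ∀ i j, x i * x j + x j * x i = 0) (b : ι) (l : List ι) (hb : b ∈ l) :
    (l.map x).prod * x b = 0 := by
  obtain ⟨s, -, hs⟩ := list_prod_comm x h b l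
  rw [hs, list_prod_mul_zero x h0 h b l hb, mul_zero]

theorem list_prod_zero {S ι : Type} [Ring S] (x : ι → S) (h0 : ∀ i, x i * x i = 0)
    (h : ∀ i j, x i * x j + x j * x i = 0) (l : List ι) (hl : ¬ l.Nodup) :
    (l.map x).prod = 0 := by
  induction l with
  | nil => exact absurd List.nodup_nil hl
  | cons a l ih =>
    rw [List.map_cons, List.prod_cons]
    by_cases ha : a ∈ l
    · exact list_prod_mul_zero x h0 h a l ha
    · rw [ih fun h' => hl (List.nodup_cons.2 ⟨ha, h'⟩), mul_zero]

theorem ofFn_eq_map {S : Type} {d : ℕ} (f : Fin d → S) :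
    List.ofFn f = (List.ofFn fun a : Fin d => a).map f := by
  rw [List.map_ofFn]
  rfl

theorem top_con (η : Om k K d) : top k K d (con v η) = 0 := by
  have h1 : ∀ b : Fin d, topE k d ∘ₗ iop k b = 0 := by
    intro b
    unfold topE
    rw [LinearMap.comp_assoc]
    have h2 : ((List.ofFn fun a : Fin d => iop k a).prod : Module.End k (Lam k d)) * iop k b = 0 := by
      rw [ofFn_eq_map]
      exact list_prod_mul_zero' _ iop_sq iop_iop b _ (by rw [List.mem_ofFn]; exact ⟨b, rfl⟩)
    have h3 : ((List.ofFn fun a : Fin d => iop k a).prod : Module.End k (Lam k d)) ∘ₗ iop k b = 0 :=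
      h2
    rw [h3, LinearMap.comp_zero]
  rw [con_eq, conR_eq, LinearMap.sum_apply, map_sum]
  refine Finset.sum_eq_zero fun a _ => ?_
  rw [LinearMap.smul_apply, map_smul]
  have h4 : top k K d ∘ₗ (Iop (k := k) K a) = 0 := by
    unfold top Iop
    rw [LinearMap.comp_assoc, ← LinearMap.baseChange_comp, h1, LinearMap.baseChange_zero,
      LinearMap.comp_zero]
  have h5 := LinearMap.congr_fun h4 η
  rw [LinearMap.comp_apply, LinearMap.zero_apply] at h5
  rw [h5, smul_zero]

theorem dK_mul (a b : K) : dK p (a * b) = a • dK p b + b • dK p a := by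
  unfold dK
  rw [Finset.smul_sum, Finset.smul_sum, ← Finset.sum_add_distrib]
  refine Finset.sum_congr rfl fun c _ => ?_
  rw [Derivation.leibniz, TensorProduct.add_tmul, TensorProduct.smul_tmul', TensorProduct.smul_tmul']

theorem dK_add (a b : K) : dK p (a + b) = dK p a + dK p b := by
  unfold dK
  rw [← Finset.sum_add_distrib]
  refine Finset.sum_congr rfl fun c _ => ?_
  rw [map_add, TensorProduct.add_tmul]

theorem dK_algebraMap (c : k) : dK p (algebraMap k K c) = 0 := by
  unfold dK
  refine Finset.sum_eq_zero fun a _ => ?_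
  rw [Derivation.map_algebraMap, TensorProduct.zero_tmul]

theorem dK_mul_dK_mul (y z : K) (η : Om k K d) :
    dK p y * (dK p z * η) = - (dK p z * (dK p y * η)) := by
  rw [dK_mul_eq p z η, dK_mul_eq p y η, dK_mul_eq, dK_mul_eq, ← Finset.sum_neg_distrib]
  simp only [map_sum, Finset.smul_sum, map_smul]
  rw [Finset.sum_comm]
  refine Finset.sum_congr rfl fun b _ => ?_
  rw [← Finset.sum_neg_distrib]
  refine Finset.sum_congr rfl fun a _ => ?_
  have h := LinearMap.congr_fun (Eop_Eop (k := k) (R := K) a b) η
  rw [LinearMap.add_apply, Module.End.mul_apply, Module.End.mul_apply, LinearMap.zero_apply] at h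
  rw [eq_neg_of_add_eq_zero_left h, smul_neg, smul_neg, smul_comm]

theorem dd_tmul (f : K) (w : Lam k d) :
    dd p (f ⊗ₜ[k] w) = ∑ a, (p a f) ⊗ₜ[k] eop k a w := by
  unfold dd
  rw [LinearMap.sum_apply]
  rfl

theorem dd_smul (g : K) (η : Om k K d) : dd p (g • η) = dK p g * η + g • dd p η := by
  induction η using TensorProduct.induction_on with
  | zero => simp
  | add u v hu hv => rw [smul_add, map_add, hu, hv, map_add, mul_add, smul_add]; abel
  | tmul f w =>
    rw [dK_mul_eq, TensorProduct.smul_tmul', dd_tmul, dd_tmul, Finset.smul_sum,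
      ← Finset.sum_add_distrib]
    refine Finset.sum_congr rfl fun a _ => ?_
    rw [Eop_tmul, TensorProduct.smul_tmul', TensorProduct.smul_tmul', ← TensorProduct.add_tmul,
      smul_eq_mul, Derivation.leibniz]
    simp only [smul_eq_mul]
    rw [add_comm, mul_comm f]

theorem dd_one : dd p (1 : Om k K d) = 0 := by
  rw [Algebra.TensorProduct.one_def, dd_tmul]
  refine Finset.sum_eq_zero fun a _ => ?_
  rw [Derivation.map_one_eq_zero, TensorProduct.zero_tmul]

theorem sum_sym_zero {V : Type} [AddCommGroup V] (T : Fin d → Fin d → V)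
    (h0 : ∀ a, T a a = 0) (h : ∀ a b, T a b + T b a = 0) : ∑ a, ∑ b, T a b = 0 := by
  classical
  rw [← Finset.sum_product']
  refine Finset.sum_involution (fun x _ => (x.2, x.1)) ?_ ?_ ?_ ?_
  · intro x _
    exact h _ _
  · intro x _ hx hx'
    apply hx
    have : x.1 = x.2 := (Prod.ext_iff.1 hx').2
    rw [this]
    exact h0 _
  · intro x _
    exact Finset.mem_univ _
  · intro x _
    rfl

theorem dd_dK_mul (hc : ∀ a b y, p a (p b y) = p b (p a y)) (y : K) (η : Om k K d) :
    dd p (dK p y * η) = - (dK p y * dd p η) := by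
  induction η using TensorProduct.induction_on with
  | zero => simp
  | add u v hu hv => rw [mul_add, map_add, hu, hv, map_add, mul_add, neg_add]
  | tmul f w =>
    rw [dK_mul_eq, dK_mul_eq, dd_tmul, map_sum, ← Finset.sum_neg_distrib]
    have h1 : ∀ b : Fin d, dd p (p b y • Eop K b (f ⊗ₜ[k] w)) =
        (∑ a, (p a (p b y) * f) ⊗ₜ[k] eop k a (eop k b w)) +
        ∑ a, (p b y * p a f) ⊗ₜ[k] eop k a (eop k b w) := by
      intro b
      rw [Eop_tmul, TensorProduct.smul_tmul', dd_tmul, ← Finset.sum_add_distrib]
      refine Finset.sum_congr rfl fun a _ => ?_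
      rw [← TensorProduct.add_tmul, smul_eq_mul, Derivation.leibniz]
      simp only [smul_eq_mul]
      rw [add_comm, mul_comm f]
    rw [Finset.sum_congr rfl fun b _ => h1 b, Finset.sum_add_distrib]
    have hE : ∀ a b : Fin d, eop k a (eop k b w) = - eop k b (eop k a w) := by
      intro a b
      have h := LinearMap.congr_fun (eop_eop (K := k) a b) w
      rw [LinearMap.add_apply, Module.End.mul_apply, Module.End.mul_apply, LinearMap.zero_apply] at h
      exact eq_neg_of_add_eq_zero_left h
    have hE0 : ∀ a : Fin d, eop k a (eop k a w) = 0 := by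
      intro a
      have h := LinearMap.congr_fun (eop_sq (k := k) a) w
      exact h
    have h2 : ∑ b : Fin d, ∑ a, (p a (p b y) * f) ⊗ₜ[k] eop k a (eop k b w) = 0 := by
      apply sum_sym_zero
      · intro a
        rw [hE0, TensorProduct.tmul_zero]
      · intro a b
        rw [hc b a, hE b a, TensorProduct.tmul_neg, neg_add_cancel]
    rw [h2, zero_add]
    refine Finset.sum_congr rfl fun b _ => ?_
    rw [map_sum, Finset.smul_sum, ← Finset.sum_neg_distrib]
    refine Finset.sum_congr rfl fun a _ => ?_
    rw [Eop_tmul, TensorProduct.smul_tmul', smul_eq_mul, hE a b, TensorProduct.tmul_neg]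

theorem sc_one : sc k K d (1 : Om k K d) = 1 := by
  unfold sc
  rw [Algebra.TensorProduct.one_def, LinearMap.comp_apply, LinearMap.baseChange_tmul]
  simp

theorem sc_tmul (f : K) (w : Lam k d) : sc k K d (f ⊗ₜ[k] w) = aug k d w • f := by
  unfold sc
  rw [LinearMap.comp_apply, LinearMap.baseChange_tmul]
  simp

theorem sc_dK_mul (y : K) (η : Om k K d) : sc k K d (dK p y * η) = 0 := by
  rw [dK_mul_eq, map_sum]
  refine Finset.sum_eq_zero fun a _ => ?_
  rw [map_smul]
  have : sc k K d (Eop K a η) = 0 := by
    induction η using TensorProduct.induction_on with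
    | zero => simp
    | add u v hu hv => rw [map_add, map_add, hu, hv, add_zero]
    | tmul f w => rw [Eop_tmul, sc_tmul, aug_eop, zero_smul]
  rw [this, smul_zero]

theorem con_single (a : Fin d) :
    (con (Pi.single a (1 : K)) : Om k K d →ₗ[K] Om k K d) = Iop K a := by
  rw [con_eq, conR_eq, Finset.sum_eq_single a]
  · rw [Pi.single_eq_same, one_smul]
  · intro b _ hb
    rw [Pi.single_eq_of_ne hb, zero_smul]
  · intro h
    exact absurd (Finset.mem_univ a) h

/-- `con` as a linear map in the vector field -/
noncomputable def conLin (k K : Type) [Field k] [Field K] [Algebra k K] (d : ℕ) :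
    (Fin d → K) →ₗ[K] Module.End K (Om k K d) where
  toFun v := con v
  map_add' u v := by
    rw [con_eq, con_eq, con_eq, conR_eq, conR_eq, conR_eq, ← Finset.sum_add_distrib]
    exact Finset.sum_congr rfl fun a _ => by rw [Pi.add_apply, add_smul]
  map_smul' c v := by
    rw [con_eq, con_eq, conR_eq, conR_eq, Finset.smul_sum]
    exact Finset.sum_congr rfl fun a _ => by
      rw [Pi.smul_apply, RingHom.id_apply, smul_smul, smul_eq_mul]

/-- contraction with `d` vector fields, as a multilinear map -/
noncomputable def scMul (η : Om k K d) : MultilinearMap K (fun _ : Fin d => Fin d → K) K :=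
  (sc k K d ∘ₗ (LinearMap.applyₗ η : Module.End K (Om k K d) →ₗ[K] Om k K d)).compMultilinearMap
    ((MultilinearMap.mkPiAlgebraFin K d (Module.End K (Om k K d))).compLinearMap
      fun _ => conLin k K d)

theorem scMul_apply (η : Om k K d) (v : Fin d → Fin d → K) :
    scMul η v = sc k K d ((List.ofFn fun i => (con (v i) : Module.End K (Om k K d))).prod η) := rfl

/-- contraction with `d` vector fields, as an alternating map -/
noncomputable def scAlt (η : Om k K d) : (Fin d → K) [⋀^Fin d]→ₗ[K] K where
  __ := scMul η
  map_eq_zero_of_eq' := by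
    intro v i j hij hne
    change scMul η v = 0
    have : (List.ofFn fun i => (con (v i) : Module.End K (Om k K d))).prod = 0 := by
      have h := list_prod_zero (S := Module.End K (Om k K d)) (fun w : Fin d → K => con w)
        (fun w => conR_sq (k := k) w) (fun w w' => conR_mul_conR (k := k) w w')
        (List.ofFn v) (by
          rw [List.nodup_ofFn]
          intro h
          exact hne (h hij))
      rw [List.map_ofFn] at h
      exact h
    rw [scMul_apply, this, LinearMap.zero_apply, map_zero]

/-- contraction with `d` vector fields -/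
theorem sc_con_prod (v : Fin d → Fin d → K) (η : Om k K d) :
    sc k K d ((List.ofFn fun i => (con (v i) : Module.End K (Om k K d))).prod η) =
      Matrix.det (Matrix.of v) * top k K d η := by
  rw [← scMul_apply]
  change scAlt η v = _
  rw [AlternatingMap.eq_smul_basis_det (Pi.basisFun K (Fin d)) (scAlt η),
    AlternatingMap.smul_apply, Pi.basisFun_det, smul_eq_mul, mul_comm]
  have h1 : scAlt η (⇑(Pi.basisFun K (Fin d))) = top k K d η := by
    change scMul η (⇑(Pi.basisFun K (Fin d))) = _
    rw [scMul_apply]
    have h2 : (List.ofFn fun i => (con ((Pi.basisFun K (Fin d)) i) : Module.End K (Om k K d))).prod =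
        Module.End.baseChangeHom k K (Lam k d) (List.ofFn fun a : Fin d => iop k a).prod := by
      rw [map_list_prod, List.map_ofFn]
      congr 2
      funext i
      rw [Pi.basisFun_apply, con_single]
      rfl
    rw [h2]
    unfold sc top topE
    rw [LinearMap.baseChange_comp]
    rfl
  rw [h1]
  rfl

theorem iop_list_one (a : Fin d) (l : List (Fin d)) (ha : a ∉ l) :
    iop k a ((l.map fun b => eop k b).prod 1) = 0 := by
  induction l with
  | nil => exact iop_one a
  | cons b l ih =>
    rw [List.map_cons, List.prod_cons, Module.End.mul_apply]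
    have h := LinearMap.congr_fun (iop_eop (K := k) a b) ((l.map fun b => eop k b).prod 1)
    rw [LinearMap.add_apply, Module.End.mul_apply, Module.End.mul_apply,
      ih fun h => ha (List.mem_cons_of_mem _ h), map_zero, add_zero,
      if_neg (fun e : a = b => ha (by rw [e]; exact List.mem_cons_self))] at h
    rw [h, LinearMap.zero_apply]

theorem iop_eop_list (l : List (Fin d)) (hl : l.Nodup) :
    (l.map fun b => iop k b).prod ((l.reverse.map fun b => eop k b).prod (1 : Lam k d)) = 1 := by
  induction l using List.reverseRecOn with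
  | nil => rfl
  | append_singleton l a ih =>
    have hl' := List.nodup_append.1 hl
    have ha : a ∉ l := fun h => hl'.2.2 a h a (List.mem_singleton_self a) rfl
    rw [List.map_append, List.prod_append, List.reverse_append, List.reverse_singleton,
      List.singleton_append, List.map_cons, List.map_cons, List.prod_cons, List.prod_cons,
      List.map_nil, List.prod_nil, mul_one, Module.End.mul_apply, Module.End.mul_apply]
    have h := LinearMap.congr_fun (iop_eop (K := k) a a) ((l.reverse.map fun b => eop k b).prod 1)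
    rw [LinearMap.add_apply, Module.End.mul_apply, Module.End.mul_apply,
      iop_list_one a l.reverse (fun h => ha (List.mem_reverse.1 h)), map_zero, add_zero,
      if_pos rfl, Module.End.one_apply] at h
    rw [h]
    exact ih hl'.1

theorem lamInv_list (l : List (Fin d)) :
    lamInv k d ((l.map fun b => eop k b).prod (1 : Lam k d)) =
      ((-1 : k) ^ l.length) • (l.map fun b => eop k b).prod (1 : Lam k d) := by
  induction l with
  | nil =>
    rw [List.length_nil, pow_zero, one_smul]
    exact map_one _
  | cons b l ih =>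
    rw [List.map_cons, List.prod_cons, Module.End.mul_apply, eop_apply, map_mul, lamInv_ι, ih,
      List.length_cons, pow_succ, mul_neg, mul_one, neg_smul, mul_smul_comm, neg_mul, smul_neg]

theorem exists_u : ∃ (u : Lam k d) (σ : k), σ * σ = 1 ∧ topE k d u = 1 ∧
    CliffordAlgebra.involute (Q := (0 : QuadraticForm k (Fin d → k))) u = σ • u := by
  refine ⟨((List.ofFn fun a : Fin d => a).reverse.map fun b => eop k b).prod 1,
    (-1) ^ (List.ofFn fun a : Fin d => a).reverse.length, ?_, ?_, ?_⟩
  · rw [← mul_pow, neg_mul_neg, one_mul, one_pow]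
  · unfold topE
    rw [LinearMap.comp_apply, ofFn_eq_map (fun a : Fin d => iop k a), iop_eop_list _
      (List.nodup_ofFn.2 fun a b h => h)]
    exact map_one (aug k d)
  · exact lamInv_list _

variable (R : Type) [CommRing R] [Algebra k R] [Algebra R K] [IsScalarTower k R K]

theorem toOm_tmul (r : R) (w : Lam k d) :
    toOm (K := K) R (r ⊗ₜ[k] w) = algebraMap R K r ⊗ₜ[k] w := rfl

theorem toOm_conR (c : Fin d → R) (l : R ⊗[k] Lam k d) :
    toOm (K := K) R (conR c l) = con (fun a => algebraMap R K (c a)) (toOm (K := K) R l) := by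
  rw [con_eq, conR_eq, conR_eq, LinearMap.sum_apply, LinearMap.sum_apply, map_sum]
  refine Finset.sum_congr rfl fun a _ => ?_
  rw [LinearMap.smul_apply, LinearMap.smul_apply, map_smul]
  have h : toOm (K := K) R (Iop R a l) = Iop K a (toOm (K := K) R l) := by
    induction l using TensorProduct.induction_on with
    | zero => simp
    | add u v hu hv => rw [map_add, map_add, hu, hv, map_add, map_add]
    | tmul r w => rw [Iop_tmul, toOm_tmul, toOm_tmul, Iop_tmul]
  rw [h, algebraMap_smul]

theorem toOm_invR (l : R ⊗[k] Lam k d) :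
    toOm (K := K) R (invR k d R l) = inv k K d (toOm (K := K) R l) := by
  induction l using TensorProduct.induction_on with
  | zero => simp
  | add u v hu hv => rw [map_add, map_add, hu, hv, map_add, map_add]
  | tmul r w => rfl

theorem conR_conR (c : Fin d → R) (l : R ⊗[k] Lam k d) : conR c (conR c l) = 0 := conR_conR0 c l

theorem conR_invR (c : Fin d → R) (l : R ⊗[k] Lam k d) :
    conR c (invR k d R l) = - invR k d R (conR c l) := conR_invR0 c l

end A

end Pool.Agent.HVG
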