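import Pool.Agent.HVG.BaseDef

/-!
Module L: derivations of `R` as a lattice.
-/

set_option autoImplicit false

namespace Pool.Agent.HVG

open TensorProduct Module Pool.Agent.HV

/-- derivations extend to localizations -/
theorem lattW_der_ext_loc {k R K : Type} [Field k] [CommRing R] [Algebra k R] [Field K] [Algebra R K]
    [IsDomain R] [IsFractionRing R K] [Algebra k K] [IsScalarTower k R K]
    (d0 : Derivation k R K) : ∃ d : Derivation k K K, ∀ r : R, d (algebraMap R K r) = d0 r := by
  have : Algebra.FormallyEtale R K := Algebra.FormallyEtale.of_isLocalization (nonZeroDivisors R)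
  let l0 : Ω[R⁄k] →ₗ[R] K := d0.liftKaehlerDifferential
  let l1 : K ⊗[R] Ω[R⁄k] →ₗ[K] K := l0.liftBaseChange K
  let l2 : Ω[K⁄k] →ₗ[K] K := l1 ∘ₗ
    (KaehlerDifferential.tensorKaehlerEquivOfFormallyEtale k R K).symm.toLinearMap
  refine ⟨l2.compDer (KaehlerDifferential.D k K), fun r => ?_⟩
  show l1 ((KaehlerDifferential.tensorKaehlerEquivOfFormallyEtale k R K).symm
    (KaehlerDifferential.D k K (algebraMap R K r))) = d0 r
  rw [KaehlerDifferential.tensorKaehlerEquivOfFormallyEtale_symm_D_algebraMap,
    LinearMap.liftBaseChange_tmul, one_smul]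
  show d0.liftKaehlerDifferential (KaehlerDifferential.D k _ r) = d0 r
  rw [Derivation.liftKaehlerDifferential_comp_D]

theorem lattW_der_sum_apply {k K ι : Type} [Field k] [Field K] [Algebra k K] (s : Finset ι)
    (f : ι → Derivation k K K) (y : K) : (∑ i ∈ s, f i) y = ∑ i ∈ s, f i y := by
  classical
  induction s using Finset.induction_on with
  | empty => rw [Finset.sum_empty, Finset.sum_empty, Derivation.zero_apply]
  | insert a s ha ih => rw [Finset.sum_insert ha, Finset.sum_insert ha, Derivation.add_apply, ih]

section L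

variable {k R K : Type} [Field k] [CommRing R] [IsDomain R]
  [Algebra k R] [Field K] [Algebra R K] [IsFractionRing R K] [Algebra k K] [IsScalarTower k R K]
  {d : ℕ} (Fr : Frame k R K d)

/-- every derivation of `R` extends to `K` -/
theorem exists_ext (D : Derivation k R R) :
    ∀ r : R, ∑ a, algebraMap R K (D (Fr.x a)) * Fr.p a (algebraMap R K r) = algebraMap R K (D r) := by
  intro r
  let d0 : Derivation k R K := (Algebra.linearMap R K).compDer D
  obtain ⟨D', hD'⟩ := lattW_der_ext_loc d0
  have hD'' : ∀ r, D' (algebraMap R K r) = algebraMap R K (D r) := fun r => hD' r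
  have h0 := Fr.uniq (D' - ∑ a, algebraMap R K (D (Fr.x a)) • Fr.p a) (by
    intro b
    rw [Derivation.sub_apply, hD'', lattW_der_sum_apply, sub_eq_zero]
    symm
    rw [Finset.sum_eq_single b]
    · rw [Derivation.smul_apply, Fr.px, if_pos rfl, smul_eq_mul, mul_one]
    · intro a _ hab
      rw [Derivation.smul_apply, Fr.px, if_neg hab, smul_zero]
    · intro h
      exact absurd (Finset.mem_univ b) h)
  have h1 := congrArg (fun D : Derivation k K K => D (algebraMap R K r)) h0
  simp only [Derivation.sub_apply, lattW_der_sum_apply, Derivation.smul_apply,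
    smul_eq_mul, Derivation.zero_apply, sub_eq_zero] at h1
  rw [← h1, hD'']

theorem exists_lattEquiv : ∃ E : Derivation k R R ≃ₗ[R] latt R Fr.p,
    ∀ D a, (E D : Fin d → K) a = algebraMap R K (D (Fr.x a)) := by
  have hinj : Function.Injective (algebraMap R K) := IsFractionRing.injective R K
  let φ : Derivation k R R →ₗ[R] latt R Fr.p :=
    { toFun := fun D => ⟨fun a => algebraMap R K (D (Fr.x a)), fun y => ⟨D y, (exists_ext Fr D y).symm⟩⟩
      map_add' := by
        intro D D'
        apply Subtype.ext
        funext a
        show algebraMap R K ((D + D') (Fr.x a)) =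
          algebraMap R K (D (Fr.x a)) + algebraMap R K (D' (Fr.x a))
        rw [Derivation.add_apply, map_add]
      map_smul' := by
        intro c D
        apply Subtype.ext
        funext a
        show algebraMap R K ((c • D) (Fr.x a)) = c • algebraMap R K (D (Fr.x a))
        rw [Derivation.smul_apply, smul_eq_mul, map_mul, Algebra.smul_def] }
  have hφ : ∀ D a, (φ D : Fin d → K) a = algebraMap R K (D (Fr.x a)) := fun _ _ => rfl
  refine ⟨LinearEquiv.ofBijective φ ⟨?_, ?_⟩, hφ⟩
  · rw [← LinearMap.ker_eq_bot, LinearMap.ker_eq_bot']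
    intro D hD
    ext r
    rw [Derivation.zero_apply]
    apply hinj
    rw [← exists_ext Fr D r, map_zero]
    refine Finset.sum_eq_zero fun a _ => ?_
    rw [← hφ D a, hD]
    show (0 : K) * _ = 0
    rw [zero_mul]
  · rintro ⟨v, hv⟩
    have hv' := hv
    choose f hf using hv'
    let D : Derivation k R R := Derivation.mk'
      { toFun := f
        map_add' := by
          intro y z
          apply hinj
          rw [map_add, hf, hf, hf, ← Finset.sum_add_distrib]
          exact Finset.sum_congr rfl fun a _ => by rw [map_add, map_add, mul_add]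
        map_smul' := by
          intro c y
          apply hinj
          show algebraMap R K (f (c • y)) = algebraMap R K (c • f y)
          rw [Algebra.smul_def, Algebra.smul_def, map_mul, hf, hf, Finset.mul_sum]
          refine Finset.sum_congr rfl fun a _ => ?_
          rw [map_mul, ← IsScalarTower.algebraMap_apply, ← Algebra.smul_def, Derivation.map_smul,
            Algebra.smul_def]
          ring } (by
        intro y z
        apply hinj
        show algebraMap R K (f (y * z)) = algebraMap R K (y • f z + z • f y)
        rw [smul_eq_mul, smul_eq_mul, map_add, map_mul, map_mul, hf, hf, hf, Finset.mul_sum,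
          Finset.mul_sum, ← Finset.sum_add_distrib]
        refine Finset.sum_congr rfl fun a _ => ?_
        rw [map_mul, Derivation.leibniz, smul_eq_mul, smul_eq_mul]
        ring)
    refine ⟨D, ?_⟩
    apply Subtype.ext
    funext a
    rw [hφ]
    show algebraMap R K (f (Fr.x a)) = v a
    rw [hf, Finset.sum_eq_single a]
    · rw [Fr.px, if_pos rfl, mul_one]
    · intro b _ hab
      rw [Fr.px, if_neg hab, mul_zero]
    · intro h
      exact absurd (Finset.mem_univ a) h

theorem latt_fg [IsNoetherianRing R] : (latt R Fr.p).FG := by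
  have hinj : Function.Injective (algebraMap R K) := IsFractionRing.injective R K
  let ψ : (Fin d → R) →ₗ[R] (Fin d → K) := LinearMap.pi fun a => (Algebra.linearMap R K) ∘ₗ LinearMap.proj a
  have h : latt R Fr.p ≤ LinearMap.range ψ := by
    intro v hv
    choose f hf using hv
    refine ⟨fun a => f (Fr.x a), ?_⟩
    funext a
    show algebraMap R K (f (Fr.x a)) = v a
    rw [hf, Finset.sum_eq_single a]
    · rw [Fr.px, if_pos rfl, mul_one]
    · intro b _ hab
      rw [Fr.px, if_neg hab, mul_zero]
    · intro h
      exact absurd (Finset.mem_univ a) h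
  have e : latt R Fr.p = Submodule.map ψ (Submodule.comap ψ (latt R Fr.p)) := by
    rw [Submodule.map_comap_eq, inf_eq_right.2 h]
  rw [e]
  exact (IsNoetherian.noetherian _).map ψ

theorem latt_span {A : Type} [CommRing A] [Algebra k A] [Algebra A R] [IsScalarTower k A R]
    [Module.Finite A R] [Algebra A K] [IsScalarTower A R K] (B : Base k A d)
    (hp : ∀ a y, Fr.p a (algebraMap A K y) = algebraMap A K (B.p a y)) :
    Submodule.span K (latt R Fr.p : Set (Fin d → K)) = ⊤ := by
  classical
  obtain ⟨n, g, hg⟩ := Module.Finite.exists_fin (R := A) (M := R)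
  obtain ⟨s, hs⟩ := IsLocalization.exist_integer_multiples_of_finset (nonZeroDivisors R)
    (Finset.univ.image fun q : Fin d × Fin n => Fr.p q.1 (algebraMap R K (g q.2)))
  have hs' : ∀ (a : Fin d) (i : Fin n), ∃ r : R, algebraMap R K r =
      algebraMap R K (s : R) * Fr.p a (algebraMap R K (g i)) := by
    intro a i
    obtain ⟨r, hr⟩ := hs (Fr.p a (algebraMap R K (g i)))
      (Finset.mem_image.2 ⟨(a, i), Finset.mem_univ _, rfl⟩)
    exact ⟨r, by rw [hr, Algebra.smul_def]⟩
  have key : ∀ (a : Fin d) (y : R), ∃ r : R, algebraMap R K r =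
      algebraMap R K (s : R) * Fr.p a (algebraMap R K y) := by
    intro a y
    have hy : y ∈ Submodule.span A (Set.range g) := by rw [hg]; trivial
    induction hy using Submodule.span_induction with
    | mem y hy =>
      obtain ⟨i, rfl⟩ := hy
      exact hs' a i
    | zero => exact ⟨0, by rw [map_zero, map_zero, mul_zero]⟩
    | add y z _ _ hy hz =>
      obtain ⟨r, hr⟩ := hy
      obtain ⟨r', hr'⟩ := hz
      exact ⟨r + r', by rw [map_add, map_add, map_add, mul_add, hr, hr']⟩
    | smul c y _ hy =>
      obtain ⟨r, hr⟩ := hy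
      refine ⟨algebraMap A R c * r + s * algebraMap A R (B.p a c) * y, ?_⟩
      rw [Algebra.smul_def, map_mul, Derivation.leibniz, map_add, map_mul, hr, map_mul, map_mul,
        ← IsScalarTower.algebraMap_apply, ← IsScalarTower.algebraMap_apply, hp, smul_eq_mul,
        smul_eq_mul]
      ring
  have hs0 : algebraMap R K (s : R) ≠ 0 := by
    intro h
    have h1 : (s : R) = 0 := by
      apply IsFractionRing.injective R K
      rw [h, map_zero]
    exact nonZeroDivisors.ne_zero s.2 h1
  rw [eq_top_iff]
  rw [← (Pi.basisFun K (Fin d)).span_eq, Submodule.span_le]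
  rintro _ ⟨a, rfl⟩
  have hmem : algebraMap R K (s : R) • (Pi.single a (1 : K) : Fin d → K) ∈ latt R Fr.p := by
    intro y
    obtain ⟨r, hr⟩ := key a y
    refine ⟨r, ?_⟩
    rw [hr, Finset.sum_eq_single a]
    · rw [Pi.smul_apply, Pi.single_eq_same, smul_eq_mul, mul_one]
    · intro b _ hab
      rw [Pi.smul_apply, Pi.single_eq_of_ne hab, smul_zero, zero_mul]
    · intro h
      exact absurd (Finset.mem_univ a) h
  have h2 := Submodule.smul_mem _ (algebraMap R K (s : R))⁻¹ (Submodule.subset_span (R := K) hmem)
  rw [smul_smul, inv_mul_cancel₀ hs0, one_smul] at h2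
  rw [Pi.basisFun_apply]
  exact h2

theorem frame_comm (a b : Fin d) (y : K) : Fr.p a (Fr.p b y) = Fr.p b (Fr.p a y) := by
  have h0 := Fr.uniq ⁅Fr.p a, Fr.p b⁆ (by
    intro c
    rw [Derivation.commutator_apply, Fr.px, Fr.px]
    split_ifs <;> simp)
  have h1 := congrArg (fun D : Derivation k K K => D y) h0
  simp only [Derivation.commutator_apply, Derivation.zero_apply, sub_eq_zero] at h1
  exact h1

end L

end Pool.Agent.HVG
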