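import Pool.Agent.HVG.FormDef
import Pool.Agent.HVG.Forms
import Pool.Agent.HVG.Latt

/-!
The Euler–Koszul complex.
-/

set_option autoImplicit false

namespace Pool.Agent.HVG

open TensorProduct Module Pool.Agent.HV

section B

variable {k R K : Type} [Field k] [CharZero k] [CommRing R] [IsDomain R] [IsLocalRing R]
  [Algebra k R] [Field K] [Algebra R K] [IsFractionRing R K] [Algebra k K] [IsScalarTower k R K]
  {n d : ℕ} (Q : QH k R n) (Fr : Frame k R K d)
  (eK : Fin d → K)
  (heK : ∀ r : R, ∑ a, eK a * Fr.p a (algebraMap R K r) = algebraMap R K (Q.e r))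

include heK

omit [CharZero k] [IsDomain R] [IsFractionRing R K] in
theorem con_dY_mul (i : Fin n) (η : Om k K d) :
    con eK (dK Fr.p (algebraMap R K (Q.y i)) * η) =
      ((Q.w i : R) * Q.y i) • η - dK Fr.p (algebraMap R K (Q.y i)) * con eK η := by
  rw [con_dK_mul, heK, Q.ey, ← algebraMap_smul K ((Q.w i : R) * Q.y i) η, nsmul_eq_mul]

theorem con_mem_CC (j : ℕ) (η : Om k K d) (hη : η ∈ CC Fr.p Q.y (j + 1)) :
    con eK η ∈ CC Fr.p Q.y j := by
  induction j generalizing η with
  | zero =>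
    refine Submodule.span_induction (p := fun η _ => con eK η ∈ CC Fr.p Q.y 0) ?_ ?_ ?_ ?_ hη
    · rintro z ⟨i, η, hη, rfl⟩
      rw [con_dY_mul Q Fr eK heK]
      obtain ⟨r, rfl⟩ := Submodule.mem_span_singleton.1 hη
      have : con eK (r • (1 : Om k K d)) = 0 := by
        rw [← algebraMap_smul K r, map_smul, con_one, smul_zero]
      rw [this, mul_zero, sub_zero]
      exact Submodule.smul_mem _ _ hη
    · rw [map_zero]; exact Submodule.zero_mem _
    · intro a b _ _ ha hb
      rw [map_add]; exact Submodule.add_mem _ ha hb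
    · intro r a _ ha
      rw [← algebraMap_smul K r, map_smul, algebraMap_smul]
      exact Submodule.smul_mem _ _ ha
  | succ j IH =>
    refine Submodule.span_induction (p := fun η _ => con eK η ∈ CC Fr.p Q.y (j + 1)) ?_ ?_ ?_ ?_ hη
    · rintro z ⟨i, η, hη, rfl⟩
      rw [con_dY_mul Q Fr eK heK]
      refine Submodule.sub_mem _ (Submodule.smul_mem _ _ hη) ?_
      exact Submodule.subset_span ⟨i, _, IH η hη, rfl⟩
    · rw [map_zero]; exact Submodule.zero_mem _
    · intro a b _ _ ha hb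
      rw [map_add]; exact Submodule.add_mem _ ha hb
    · intro r a _ ha
      rw [← algebraMap_smul K r, map_smul, algebraMap_smul]
      exact Submodule.smul_mem _ _ ha

theorem exact_CC_zero (r : R) (hr : r ∈ IsLocalRing.maximalIdeal R) :
    ∃ ζ ∈ CC Fr.p Q.y 1, con eK ζ = r • (1 : Om k K d) := by
  rw [Q.max] at hr
  refine Submodule.span_induction
    (p := fun r _ => ∃ ζ ∈ CC Fr.p Q.y 1, con eK ζ = r • (1 : Om k K d)) ?_ ?_ ?_ ?_ hr
  · rintro _ ⟨i, rfl⟩
    refine ⟨(algebraMap k R (Q.w i : k)⁻¹) • (dK Fr.p (algebraMap R K (Q.y i)) * 1), ?_, ?_⟩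
    · refine Submodule.smul_mem _ _ (Submodule.subset_span ⟨i, 1, Submodule.mem_span_singleton_self 1, rfl⟩)
    · rw [← algebraMap_smul K (algebraMap k R (Q.w i : k)⁻¹), map_smul, algebraMap_smul,
        con_dY_mul Q Fr eK heK, con_one, mul_zero, sub_zero, smul_smul, ← mul_assoc]
      have h0 : (Q.w i : k) ≠ 0 := by
        have := Q.wpos i
        exact_mod_cast this.ne'
      have : algebraMap k R (Q.w i : k)⁻¹ * (Q.w i : R) = 1 := by
        rw [← map_natCast (algebraMap k R) (Q.w i), ← map_mul, inv_mul_cancel₀ h0, map_one]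
      rw [this, one_mul]
  · exact ⟨0, Submodule.zero_mem _, by rw [map_zero, zero_smul]⟩
  · rintro a b _ _ ⟨ζ, hζ, h⟩ ⟨ζ', hζ', h'⟩
    exact ⟨ζ + ζ', Submodule.add_mem _ hζ hζ', by rw [map_add, h, h', add_smul]⟩
  · rintro c a _ ⟨ζ, hζ, h⟩
    refine ⟨c • ζ, Submodule.smul_mem _ _ hζ, ?_⟩
    rw [← algebraMap_smul K c ζ, map_smul, algebraMap_smul, h, smul_smul, smul_eq_mul]

end B

/-! ### Homogeneous generators -/

section Gn

variable {k R K : Type} [Field k] [CommRing R] [IsLocalRing R]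
  [Algebra k R] [Field K] [Algebra R K] [Algebra k K] [IsScalarTower k R K]
  {n d : ℕ} (Q : QH k R n) (Fr : Frame k R K d)

/-- products of the `y_i` and of their differentials, with degree and weight -/
inductive Gn : ℕ → ℕ → Om k K d → Prop
  | one : Gn 0 0 1
  | mul (j c : ℕ) (z : Om k K d) (i : Fin n) (h : Gn j c z) : Gn j (c + Q.w i) (Q.y i • z)
  | dmul (j c : ℕ) (z : Om k K d) (i : Fin n) (h : Gn j c z) :
      Gn (j + 1) (c + Q.w i) (dK Fr.p (algebraMap R K (Q.y i)) * z)

theorem Gn.le {j c : ℕ} {z : Om k K d} (h : Gn Q Fr j c z) : j ≤ c := by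
  induction h with
  | one => exact le_rfl
  | mul j c z i h ih => omega
  | dmul j c z i h ih => have := Q.wpos i; omega

theorem Gn.mem_CC {j c : ℕ} {z : Om k K d} (h : Gn Q Fr j c z) : z ∈ CC Fr.p Q.y j := by
  induction h with
  | one => exact Submodule.mem_span_singleton_self 1
  | mul j c z i h ih => exact Submodule.smul_mem _ _ ih
  | dmul j c z i h ih => exact Submodule.subset_span ⟨i, z, ih, rfl⟩

/-- the `k`-span of the homogeneous generators -/
noncomputable def SG (j : ℕ) : Submodule k (Om k K d) :=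
  Submodule.span k {z | ∃ c, Gn Q Fr j c z}

theorem SG_le_CC {j : ℕ} {z : Om k K d} (h : z ∈ SG Q Fr j) : z ∈ CC Fr.p Q.y j := by
  refine Submodule.span_induction (p := fun z _ => z ∈ CC Fr.p Q.y j) ?_ ?_ ?_ ?_ h
  · rintro z ⟨c, hc⟩
    exact hc.mem_CC
  · exact Submodule.zero_mem _
  · intro a b _ _ ha hb
    exact Submodule.add_mem _ ha hb
  · intro c a _ ha
    rw [← algebraMap_smul R c a]
    exact Submodule.smul_mem _ _ ha

theorem SG_y_smul {j : ℕ} (i : Fin n) {z : Om k K d} (h : z ∈ SG Q Fr j) :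
    Q.y i • z ∈ SG Q Fr j := by
  refine Submodule.span_induction (p := fun z _ => Q.y i • z ∈ SG Q Fr j) ?_ ?_ ?_ ?_ h
  · rintro z ⟨c, hc⟩
    exact Submodule.subset_span ⟨_, Gn.mul j c z i hc⟩
  · rw [smul_zero]; exact Submodule.zero_mem _
  · intro a b _ _ ha hb
    rw [smul_add]; exact Submodule.add_mem _ ha hb
  · intro c a _ ha
    rw [smul_comm]
    exact Submodule.smul_mem _ _ ha

theorem SG_smul {j : ℕ} (b : R) (hb : b ∈ Algebra.adjoin k (Set.range Q.y)) {z : Om k K d}
    (h : z ∈ SG Q Fr j) : b • z ∈ SG Q Fr j := by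
  refine Algebra.adjoin_induction
    (p := fun b _ => ∀ z : Om k K d, z ∈ SG Q Fr j → b • z ∈ SG Q Fr j) ?_ ?_ ?_ ?_ hb z h
  · rintro _ ⟨i, rfl⟩ z hz
    exact SG_y_smul Q Fr i hz
  · intro c z hz
    rw [algebraMap_smul]
    exact Submodule.smul_mem _ _ hz
  · intro a b _ _ ha hb z hz
    rw [add_smul]
    exact Submodule.add_mem _ (ha z hz) (hb z hz)
  · intro a b _ _ ha hb z hz
    rw [mul_smul]
    exact ha _ (hb z hz)

theorem SG_dmul {j : ℕ} (i : Fin n) {z : Om k K d} (h : z ∈ SG Q Fr j) :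
    dK Fr.p (algebraMap R K (Q.y i)) * z ∈ SG Q Fr (j + 1) := by
  refine Submodule.span_induction
    (p := fun z _ => dK Fr.p (algebraMap R K (Q.y i)) * z ∈ SG Q Fr (j + 1)) ?_ ?_ ?_ ?_ h
  · rintro z ⟨c, hc⟩
    exact Submodule.subset_span ⟨_, Gn.dmul j c z i hc⟩
  · rw [mul_zero]; exact Submodule.zero_mem _
  · intro a b _ _ ha hb
    rw [mul_add]; exact Submodule.add_mem _ ha hb
  · intro c a _ ha
    rw [mul_smul_comm]
    exact Submodule.smul_mem _ _ ha

/-- clearing denominators -/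
theorem exists_unit_smul_mem {j : ℕ} {η : Om k K d} (h : η ∈ CC Fr.p Q.y j) :
    ∃ b ∈ Algebra.adjoin k (Set.range Q.y), IsUnit b ∧ b • η ∈ SG Q Fr j := by
  have aux : ∀ j : ℕ, ∀ G : Set (Om k K d),
      (∀ z ∈ G, ∃ b ∈ Algebra.adjoin k (Set.range Q.y), IsUnit b ∧ b • z ∈ SG Q Fr j) →
      ∀ η ∈ Submodule.span R G,
        ∃ b ∈ Algebra.adjoin k (Set.range Q.y), IsUnit b ∧ b • η ∈ SG Q Fr j := by
    intro j G hG η hη
    refine Submodule.span_induction (p := fun η _ =>
      ∃ b ∈ Algebra.adjoin k (Set.range Q.y), IsUnit b ∧ b • η ∈ SG Q Fr j) ?_ ?_ ?_ ?_ hη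
    · exact hG
    · exact ⟨1, Subalgebra.one_mem _, isUnit_one, by rw [smul_zero]; exact Submodule.zero_mem _⟩
    · rintro x y _ _ ⟨b, hb, ub, hx⟩ ⟨b', hb', ub', hy⟩
      refine ⟨b * b', Subalgebra.mul_mem _ hb hb', ub.mul ub', ?_⟩
      rw [smul_add]
      refine Submodule.add_mem _ ?_ ?_
      · rw [mul_comm, mul_smul]
        exact SG_smul Q Fr _ hb' hx
      · rw [mul_smul]
        exact SG_smul Q Fr _ hb hy
    · rintro r x _ ⟨b, hb, ub, hx⟩
      obtain ⟨a, ha, b', hb', ub', h⟩ := Q.frac r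
      refine ⟨b * b', Subalgebra.mul_mem _ hb hb', ub.mul ub', ?_⟩
      rw [smul_smul]
      have : b * b' * r = a * b := by rw [← h]; ring
      rw [this, mul_smul]
      exact SG_smul Q Fr _ ha hx
  induction j generalizing η with
  | zero =>
    refine aux 0 {1} ?_ η h
    intro z hz
    rw [Set.mem_singleton_iff] at hz
    subst hz
    exact ⟨1, Subalgebra.one_mem _, isUnit_one, by
      rw [one_smul]; exact Submodule.subset_span ⟨0, Gn.one⟩⟩
  | succ j IH =>
    refine aux (j + 1) _ ?_ η h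
    rintro z ⟨i, η, hη, rfl⟩
    obtain ⟨b, hb, ub, hx⟩ := IH hη
    refine ⟨b, hb, ub, ?_⟩
    rw [← mul_smul_comm]
    exact SG_dmul Q Fr i hx

end Gn

section B2

variable {k R K : Type} [Field k] [CharZero k] [CommRing R] [IsDomain R] [IsLocalRing R]
  [Algebra k R] [Field K] [Algebra R K] [IsFractionRing R K] [Algebra k K] [IsScalarTower k R K]
  {n d : ℕ} (Q : QH k R n) (Fr : Frame k R K d)
  (eK : Fin d → K)
  (heK : ∀ r : R, ∑ a, eK a * Fr.p a (algebraMap R K r) = algebraMap R K (Q.e r))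

omit [CharZero k] in
theorem dd_mem_SG {j : ℕ} {z : Om k K d} (h : z ∈ SG Q Fr j) : dd Fr.p z ∈ SG Q Fr (j + 1) := by
  have hy : ∀ (i : Fin n) (z : Om k K d), dd Fr.p (Q.y i • z) =
      dK Fr.p (algebraMap R K (Q.y i)) * z + Q.y i • dd Fr.p z := by
    intro i z
    rw [← algebraMap_smul K (Q.y i) z, dd_smul, algebraMap_smul]
  have hG : ∀ (j c : ℕ) (z : Om k K d), Gn Q Fr j c z → dd Fr.p z ∈ SG Q Fr (j + 1) := by
    intro j c z hz
    induction hz with
    | one => rw [dd_one]; exact Submodule.zero_mem _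
    | mul j c z i h ih =>
      rw [hy]
      exact Submodule.add_mem _ (SG_dmul Q Fr i (Submodule.subset_span ⟨c, h⟩))
        (SG_y_smul Q Fr i ih)
    | dmul j c z i h ih =>
      rw [dd_dK_mul Fr.p (frame_comm Fr)]
      exact Submodule.neg_mem _ (SG_dmul Q Fr i ih)
  refine Submodule.span_induction (p := fun z _ => dd Fr.p z ∈ SG Q Fr (j + 1)) ?_ ?_ ?_ ?_ h
  · rintro z ⟨c, hc⟩
    exact hG j c z hc
  · rw [map_zero]; exact Submodule.zero_mem _
  · intro a b _ _ ha hb
    rw [map_add]; exact Submodule.add_mem _ ha hb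
  · intro c a _ ha
    rw [map_smul]
    exact Submodule.smul_mem _ _ ha

/-- the Lie derivative along the Euler field -/
noncomputable def Lie (p : Fin d → Derivation k K K) (eK : Fin d → K) : Module.End k (Om k K d) :=
  dd p * (con eK).restrictScalars k + (con eK).restrictScalars k * dd p

include heK

omit [CharZero k] in
theorem Lie_Gn {j c : ℕ} {z : Om k K d} (h : Gn Q Fr j c z) :
    Lie Fr.p eK z = (c : k) • z := by
  have hy : ∀ (i : Fin n) (z : Om k K d), dd Fr.p (Q.y i • z) =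
      dK Fr.p (algebraMap R K (Q.y i)) * z + Q.y i • dd Fr.p z := by
    intro i z
    rw [← algebraMap_smul K (Q.y i) z, dd_smul, algebraMap_smul]
  have hcy : ∀ (r : R) (z : Om k K d), con eK (r • z) = r • con eK z := by
    intro r z
    rw [← algebraMap_smul K r z, map_smul, algebraMap_smul]
  have hL : ∀ z : Om k K d, Lie Fr.p eK z = dd Fr.p (con eK z) + con eK (dd Fr.p z) :=
    fun z => rfl
  have hw : ∀ (m : ℕ) (z : Om k K d), dd Fr.p ((m : R) • z) = m • dd Fr.p z := by
    intro m z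
    rw [Nat.cast_smul_eq_nsmul, map_nsmul]
  induction h with
  | one => rw [hL, con_one, dd_one, map_zero, map_zero, add_zero, Nat.cast_zero, zero_smul]
  | mul j c z i h ih =>
    rw [hL] at ih ⊢
    rw [hcy, hy, hy, map_add, con_dY_mul Q Fr eK heK, hcy]
    have : dK Fr.p (algebraMap R K (Q.y i)) * con eK z + Q.y i • dd Fr.p (con eK z) +
        (((Q.w i : R) * Q.y i) • z - dK Fr.p (algebraMap R K (Q.y i)) * con eK z +
          Q.y i • con eK (dd Fr.p z)) =
        ((Q.w i : R) * Q.y i) • z + Q.y i • (dd Fr.p (con eK z) + con eK (dd Fr.p z)) := by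
      rw [smul_add]; abel
    rw [this, ih, mul_smul, Nat.cast_add, add_smul, smul_comm (Q.y i) (c : k) z, add_comm]
    congr 1
    rw [Nat.cast_smul_eq_nsmul, Nat.cast_smul_eq_nsmul]
  | dmul j c z i h ih =>
    rw [hL] at ih ⊢
    rw [con_dY_mul Q Fr eK heK, dd_dK_mul Fr.p (frame_comm Fr), map_sub, map_neg,
      con_dY_mul Q Fr eK heK, dd_dK_mul Fr.p (frame_comm Fr), mul_smul, hw, hy]
    have : Q.w i • (dK Fr.p (algebraMap R K (Q.y i)) * z + Q.y i • dd Fr.p z) -
        -(dK Fr.p (algebraMap R K (Q.y i)) * dd Fr.p (con eK z)) +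
        -(((Q.w i : R) * Q.y i) • dd Fr.p z -
          dK Fr.p (algebraMap R K (Q.y i)) * con eK (dd Fr.p z)) =
        Q.w i • (dK Fr.p (algebraMap R K (Q.y i)) * z) + dK Fr.p (algebraMap R K (Q.y i)) *
          (dd Fr.p (con eK z) + con eK (dd Fr.p z)) := by
      rw [mul_smul, Nat.cast_smul_eq_nsmul, smul_add, mul_add]; abel
    rw [this, ih, mul_smul_comm, Nat.cast_add, add_smul, add_comm, Nat.cast_smul_eq_nsmul,
      Nat.cast_smul_eq_nsmul]

/-- every element of positive degree is killed by a polynomial in the Lie derivative with nonzero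
constant term -/
theorem exists_poly {j : ℕ} {z : Om k K d} (h : z ∈ SG Q Fr (j + 1)) :
    ∃ P : Polynomial k, P.coeff 0 ≠ 0 ∧ Polynomial.aeval (Lie Fr.p eK) P z = 0 := by
  refine Submodule.span_induction (p := fun z _ =>
    ∃ P : Polynomial k, P.coeff 0 ≠ 0 ∧ Polynomial.aeval (Lie Fr.p eK) P z = 0) ?_ ?_ ?_ ?_ h
  · rintro z ⟨c, hc⟩
    refine ⟨Polynomial.X - Polynomial.C (c : k), ?_, ?_⟩
    · have h1 : j + 1 ≤ c := hc.le
      have h2 : (c : k) ≠ 0 := by
        have : c ≠ 0 := by omega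
        exact_mod_cast this
      simpa using h2
    · rw [map_sub, Polynomial.aeval_X, Polynomial.aeval_C, LinearMap.sub_apply,
        Module.algebraMap_end_apply, Lie_Gn Q Fr eK heK hc, sub_self]
  · exact ⟨1, by simp, by rw [map_zero]⟩
  · rintro a b _ _ ⟨P, hP, h1⟩ ⟨P', hP', h2⟩
    refine ⟨P * P', ?_, ?_⟩
    · rw [Polynomial.mul_coeff_zero]
      exact mul_ne_zero hP hP'
    · rw [map_add]
      have e1 : Polynomial.aeval (Lie Fr.p eK) (P * P') a = 0 := by
        rw [mul_comm, map_mul, Module.End.mul_apply, h1, map_zero]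
      have e2 : Polynomial.aeval (Lie Fr.p eK) (P * P') b = 0 := by
        rw [map_mul, Module.End.mul_apply, h2, map_zero]
      rw [e1, e2, add_zero]
  · rintro c a _ ⟨P, hP, h1⟩
    exact ⟨P, hP, by rw [map_smul, h1, smul_zero]⟩

theorem aeval_Lie_mem {j : ℕ} (P : Polynomial k) {z : Om k K d} (h : z ∈ SG Q Fr j) :
    Polynomial.aeval (Lie Fr.p eK) P z ∈ SG Q Fr j := by
  have hX : ∀ z ∈ SG Q Fr j, Lie Fr.p eK z ∈ SG Q Fr j := by
    intro z hz
    refine Submodule.span_induction (p := fun z _ => Lie Fr.p eK z ∈ SG Q Fr j) ?_ ?_ ?_ ?_ hz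
    · rintro z ⟨c, hc⟩
      rw [Lie_Gn Q Fr eK heK hc]
      exact Submodule.smul_mem _ _ (Submodule.subset_span ⟨c, hc⟩)
    · rw [map_zero]; exact Submodule.zero_mem _
    · intro a b _ _ ha hb
      rw [map_add]; exact Submodule.add_mem _ ha hb
    · intro c a _ ha
      rw [map_smul]
      exact Submodule.smul_mem _ _ ha
  induction P using Polynomial.induction_on generalizing z with
  | C a =>
    rw [Polynomial.aeval_C, Module.algebraMap_end_apply]
    exact Submodule.smul_mem _ _ h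
  | add P P' h1 h2 =>
    rw [map_add, LinearMap.add_apply]
    exact Submodule.add_mem _ (h1 h) (h2 h)
  | monomial m a ih =>
    rw [pow_succ, ← mul_assoc, map_mul, Polynomial.aeval_X, Module.End.mul_apply]
    exact ih (hX z h)

theorem exact_CC (j : ℕ) (η : Om k K d) (hη : η ∈ CC Fr.p Q.y (j + 1)) (h : con eK η = 0) :
    ∃ ζ ∈ CC Fr.p Q.y (j + 2), con eK ζ = η := by
  obtain ⟨b, hb, ub, hbη⟩ := exists_unit_smul_mem Q Fr hη
  have hcy : ∀ (r : R) (z : Om k K d), con eK (r • z) = r • con eK z := by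
    intro r z
    rw [← algebraMap_smul K r z, map_smul, algebraMap_smul]
  set η' := b • η with hη'
  have hcon : con eK η' = 0 := by rw [hη', hcy, h, smul_zero]
  obtain ⟨P, hP, hPη⟩ := exists_poly Q Fr eK heK hbη
  set L := Lie Fr.p eK with hL
  -- `L` commutes with the contraction
  have hcc : ∀ z : Om k K d, L (con eK z) = con eK (L z) := by
    intro z
    have e1 : L (con eK z) = dd Fr.p (con eK (con eK z)) + con eK (dd Fr.p (con eK z)) := rfl
    have e2 : L z = dd Fr.p (con eK z) + con eK (dd Fr.p z) := rfl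
    rw [e1, e2, con_self, map_zero, zero_add, map_add, con_self, add_zero]
  have hcP : ∀ (P : Polynomial k) (z : Om k K d),
      Polynomial.aeval L P (con eK z) = con eK (Polynomial.aeval L P z) := by
    intro P
    induction P using Polynomial.induction_on with
    | C a =>
      intro z
      rw [Polynomial.aeval_C, Module.algebraMap_end_apply, Module.algebraMap_end_apply,
        ← algebraMap_smul K a z, map_smul, algebraMap_smul]
    | add P P' h1 h2 =>
      intro z
      rw [map_add, LinearMap.add_apply, LinearMap.add_apply, map_add, h1, h2]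
    | monomial m a ih =>
      intro z
      rw [pow_succ, ← mul_assoc, map_mul, Polynomial.aeval_X, Module.End.mul_apply,
        Module.End.mul_apply, hcc, ih]
  have hLη : L η' = con eK (dd Fr.p η') := by
    have e2 : L η' = dd Fr.p (con eK η') + con eK (dd Fr.p η') := rfl
    rw [e2, hcon, map_zero, zero_add]
  have key : con eK (Polynomial.aeval L P.divX (dd Fr.p η')) = - (P.coeff 0 • η') := by
    rw [← hcP, ← hLη]
    have := hPη
    rw [← Polynomial.divX_mul_X_add P, map_add, map_mul, Polynomial.aeval_X, Polynomial.aeval_C,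
      LinearMap.add_apply, Module.End.mul_apply, Module.algebraMap_end_apply] at this
    exact eq_neg_of_add_eq_zero_left this
  obtain ⟨u, rfl⟩ := ub
  refine ⟨(↑u⁻¹ : R) • ((- (P.coeff 0)⁻¹ : k) • Polynomial.aeval L P.divX (dd Fr.p η')), ?_, ?_⟩
  · refine Submodule.smul_mem _ _ (SG_le_CC Q Fr (Submodule.smul_mem _ _ ?_))
    exact aeval_Lie_mem Q Fr eK heK _ (dd_mem_SG Q Fr hbη)
  · rw [hcy, ← algebraMap_smul K (- (P.coeff 0)⁻¹ : k), map_smul, algebraMap_smul, key, smul_neg,
      neg_smul, neg_neg, smul_smul, inv_mul_cancel₀ hP, one_smul, hη', smul_smul, Units.inv_mul,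
      one_smul]

end B2

end Pool.Agent.HVG
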