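import Pool.Agent.HVG.Model

/-!
Module K: coordinates on the fraction field.
-/

set_option autoImplicit false

namespace Pool.Agent.HVG

open TensorProduct Module Pool.Agent.HV

/-- the fraction field is formally étale over the base ring -/
theorem formallyEtale_frac {A R K : Type} [CommRing A] [IsDomain A] [CharZero A]
    [CommRing R] [IsDomain R] [Algebra A R] [Module.Finite A R]
    [Field K] [Algebra R K] [IsFractionRing R K] [Algebra A K] [IsScalarTower A R K]
    (hinj : Function.Injective (algebraMap A R)) : Algebra.FormallyEtale A K := by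
  have hinjK : Function.Injective (algebraMap A K) := by
    rw [IsScalarTower.algebraMap_eq A R K, RingHom.coe_comp]
    exact (IsFractionRing.injective R K).comp hinj
  have hf : FaithfulSMul A K := (faithfulSMul_iff_algebraMap_injective A K).2 hinjK
  let _ : Algebra (FractionRing A) K := FractionRing.liftAlgebra A K
  have htow : IsScalarTower A (FractionRing A) K := FractionRing.isScalarTower_liftAlgebra A K
  have h1 : Algebra.FormallyEtale A (FractionRing A) :=
    Algebra.FormallyEtale.of_isLocalization (nonZeroDivisors A)
  have hAR : Algebra.IsAlgebraic A R := inferInstance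
  have hAK : Algebra.IsAlgebraic A K := by
    have hRK : Algebra.IsAlgebraic R K := IsLocalization.isAlgebraic K (nonZeroDivisors R)
    exact Algebra.IsAlgebraic.trans A R K
  have halg : Algebra.IsAlgebraic (FractionRing A) K :=
    Algebra.IsAlgebraic.extendScalars (R := A) (IsFractionRing.injective A (FractionRing A))
  have : CharZero (FractionRing A) := inferInstance
  have hsep : Algebra.IsSeparable (FractionRing A) K := inferInstance
  have h2 : Algebra.FormallyEtale (FractionRing A) K := Algebra.FormallyEtale.of_isSeparable _ _
  exact Algebra.FormallyEtale.comp A (FractionRing A) K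

/-- extension of derivations along a formally étale map -/
theorem exists_extDer {k A K : Type} [Field k] [CommRing A] [Algebra k A] [Field K]
    [Algebra k K] [Algebra A K] [IsScalarTower k A K] [Algebra.FormallyEtale A K]
    (d0 : Derivation k A K) : ∃ D : Derivation k K K, ∀ a : A, D (algebraMap A K a) = d0 a := by
  let l0 : Ω[A⁄k] →ₗ[A] K := d0.liftKaehlerDifferential
  let l1 : K ⊗[A] Ω[A⁄k] →ₗ[K] K := l0.liftBaseChange K
  let l2 : Ω[K⁄k] →ₗ[K] K := l1 ∘ₗ
    (KaehlerDifferential.tensorKaehlerEquivOfFormallyEtale k A K).symm.toLinearMap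
  refine ⟨l2.compDer (KaehlerDifferential.D k K), fun a => ?_⟩
  show l1 ((KaehlerDifferential.tensorKaehlerEquivOfFormallyEtale k A K).symm
    (KaehlerDifferential.D k K (algebraMap A K a))) = d0 a
  rw [KaehlerDifferential.tensorKaehlerEquivOfFormallyEtale_symm_D_algebraMap,
    LinearMap.liftBaseChange_tmul, one_smul]
  show d0.liftKaehlerDifferential (KaehlerDifferential.D k _ a) = d0 a
  rw [Derivation.liftKaehlerDifferential_comp_D]

/-- uniqueness of extensions -/
theorem extDer_uniq {k A K : Type} [Field k] [CommRing A] [Algebra k A] [Field K]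
    [Algebra k K] [Algebra A K] [IsScalarTower k A K] [Algebra.FormallyEtale A K]
    (D : Derivation k K K) (h : ∀ a : A, D (algebraMap A K a) = 0) : D = 0 := by
  have h1 : D.liftKaehlerDifferential = 0 := by
    apply LinearMap.ext
    intro ω
    obtain ⟨z, rfl⟩ := (KaehlerDifferential.tensorKaehlerEquivOfFormallyEtale k A K).surjective ω
    induction z using TensorProduct.induction_on with
    | zero => rw [map_zero, map_zero, LinearMap.zero_apply]
    | add x y hx hy => rw [map_add, map_add, hx, hy, LinearMap.zero_apply, LinearMap.zero_apply, LinearMap.zero_apply, add_zero]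
    | tmul c ω =>
      rw [KaehlerDifferential.tensorKaehlerEquivOfFormallyEtale_apply,
        KaehlerDifferential.mapBaseChange_tmul, map_smul]
      have h2 : ∀ ω : Ω[A⁄k], D.liftKaehlerDifferential (KaehlerDifferential.map k k A K ω) = 0 := by
        intro ω
        have hs : ω ∈ Submodule.span A (Set.range (KaehlerDifferential.D k A)) := by
          rw [KaehlerDifferential.span_range_derivation]
          trivial
        induction hs using Submodule.span_induction with
        | mem x hx =>
          obtain ⟨a, rfl⟩ := hx
          rw [KaehlerDifferential.map_D, Derivation.liftKaehlerDifferential_comp_D]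
          exact h a
        | zero => rw [map_zero, map_zero]
        | add x y _ _ hx hy => rw [map_add, map_add, hx, hy, add_zero]
        | smul a x _ hx =>
          rw [map_smul, ← algebraMap_smul K a, map_smul, hx, smul_zero]
      rw [h2, smul_zero, LinearMap.zero_apply]
  have h2 := D.liftKaehlerDifferential_comp
  rw [h1] at h2
  rw [← h2]
  ext x
  rfl

theorem exists_frame {k A R K : Type} [Field k] [CharZero k]
    [CommRing A] [IsDomain A] [Algebra k A]
    [CommRing R] [IsDomain R] [Algebra k R] [Algebra A R] [IsScalarTower k A R]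
    [Module.Finite A R] [Field K] [Algebra R K] [IsFractionRing R K] [Algebra k K]
    [IsScalarTower k R K] [Algebra A K] [IsScalarTower A R K]
    (hinj : Function.Injective (algebraMap A R)) {d : ℕ} (B : Base k A d)
    (huniq : ∀ D : Derivation k A K, (∀ a, D (B.x a) = 0) → D = 0) :
    ∃ Fr : Frame k R K d, (∀ a, algebraMap A R (B.x a) = Fr.x a) ∧
      ∀ a y, Fr.p a (algebraMap A K y) = algebraMap A K (B.p a y) := by
  have hchar : CharZero A := charZero_of_injective_algebraMap (algebraMap k A).injective
  have htow : IsScalarTower k A K := by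
    refine IsScalarTower.of_algebraMap_eq fun c => ?_
    rw [IsScalarTower.algebraMap_apply k R K, IsScalarTower.algebraMap_apply A R K,
      ← IsScalarTower.algebraMap_apply k A R]
  have het : Algebra.FormallyEtale A K := formallyEtale_frac (R := R) hinj
  have hex : ∀ a, ∃ D : Derivation k K K, ∀ y : A, D (algebraMap A K y) = algebraMap A K (B.p a y) := by
    intro a
    obtain ⟨D, hD⟩ := exists_extDer (k := k) (A := A) (K := K)
      ((Algebra.linearMap A K).compDer (B.p a))
    exact ⟨D, fun y => hD y⟩
  choose p hp using hex
  refine ⟨⟨fun a => algebraMap A R (B.x a), p, fun a b => ?_, fun D hD => ?_⟩, fun a => rfl, hp⟩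
  · rw [← IsScalarTower.algebraMap_apply A R K, hp, B.px]
    split
    · rw [map_one]
    · rw [map_zero]
  · apply extDer_uniq (A := A)
    have h1 := huniq (D.compAlgebraMap A) (fun a => by
      have := hD a
      rw [← IsScalarTower.algebraMap_apply A R K] at this
      exact this)
    intro a
    have h2 := congrArg (fun E : Derivation k A K => E a) h1
    exact h2

/-- uniqueness of derivations on the base ring -/
theorem base_uniq {k K : Type} [Field k] [Field K] [Algebra k K] {d : ℕ} [Algebra (MA k d) K]
    [IsScalarTower k (MA k d) K] (D : Derivation k (MA k d) K)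
    (h : ∀ a, D (algebraMap _ _ (MvPolynomial.X a : MvPolynomial (Fin d) k)) = 0) : D = 0 := by
  let _ : Algebra (MvPolynomial (Fin d) k) K :=
    ((algebraMap (MA k d) K).comp (algebraMap (MvPolynomial (Fin d) k) (MA k d))).toAlgebra
  have ht : IsScalarTower (MvPolynomial (Fin d) k) (MA k d) K := IsScalarTower.of_algebraMap_eq fun _ => rfl
  have ht2 : IsScalarTower k (MvPolynomial (Fin d) k) K := IsScalarTower.of_algebraMap_eq fun c => by
    show _ = algebraMap (MA k d) K (algebraMap (MvPolynomial (Fin d) k) (MA k d) (algebraMap k _ c))
    rw [← IsScalarTower.algebraMap_apply k (MvPolynomial (Fin d) k) (MA k d),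
      ← IsScalarTower.algebraMap_apply k (MA k d) K]
  have hp : ∀ f : MvPolynomial (Fin d) k, D (algebraMap _ (MA k d) f) = 0 := by
    intro f
    have h1 := der_poly (D.compAlgebraMap (MvPolynomial (Fin d) k)) f
    have h2 : D.compAlgebraMap (MvPolynomial (Fin d) k) f = D (algebraMap _ (MA k d) f) := rfl
    rw [← h2, h1]
    refine Finset.sum_eq_zero fun i _ => ?_
    have h3 : D.compAlgebraMap (MvPolynomial (Fin d) k) (MvPolynomial.X i) =
      D (algebraMap (MvPolynomial (Fin d) k) (MA k d) (MvPolynomial.X i)) := rfl
    rw [h3, h, smul_zero]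
  ext z
  rw [Derivation.zero_apply]
  obtain ⟨⟨f, s⟩, hfs⟩ := IsLocalization.surj (oIdeal k d).primeCompl z
  simp only at hfs
  have h1 := congrArg D hfs
  rw [Derivation.leibniz, hp, hp, smul_zero, zero_add] at h1
  obtain ⟨u, hu⟩ := IsLocalization.map_units (MA k d) s
  rw [← hu] at h1
  have h2 : (↑u⁻¹ : MA k d) • (↑u : MA k d) • D z = 0 := by rw [h1, smul_zero]
  rwa [smul_smul, Units.inv_mul, one_smul] at h2

end Pool.Agent.HVG
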