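import Pool.Agent.HVG.Defs

/-!
Module N: homogeneous Noether normalization.
-/

set_option autoImplicit false

namespace Pool.Agent.HVG.NoetherW

open Module Pool.Agent.HV Pool.Agent.HVG

/-- sum of the exponents -/
theorem sum_of_mem {k : Type} [Field k] {m j : ℕ} {F : MvPolynomial (Fin m) k}
    (hF : F.IsHomogeneous j) {s : Fin m →₀ ℕ} (hs : s ∈ F.support) : ∑ i, s i = j := by
  have h := hF (MvPolynomial.mem_support_iff.1 hs)
  have h' : s.degree = j := by rw [Finsupp.degree_eq_weight_one]; exact h
  rw [← h', Finsupp.degree_eq_sum]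

theorem aeval_sum {k R : Type} [Field k] [CommRing R] [Algebra k R] {m : ℕ} (z : Fin m → R)
    (F : MvPolynomial (Fin m) k) :
    MvPolynomial.aeval z F = ∑ s ∈ F.support, F.coeff s • ∏ i, z i ^ s i := by
  rw [MvPolynomial.aeval_def, MvPolynomial.eval₂_eq']
  exact Finset.sum_congr rfl fun s _ => (Algebra.smul_def _ _).symm

theorem eig_aeval {k R : Type} [Field k] [CommRing R] [Algebra k R] (e : Derivation k R R) (N : ℕ)
    {m j : ℕ} (z : Fin m → R) (hz : ∀ i, e (z i) = N • z i) {F : MvPolynomial (Fin m) k}
    (hF : F.IsHomogeneous j) :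
    e (MvPolynomial.aeval z F) = (j * N) • MvPolynomial.aeval z F := by
  have hmul : ∀ (a b : ℕ) (r s : R), e r = (a * N) • r → e s = (b * N) • s →
      e (r * s) = ((a + b) * N) • (r * s) := by
    intro a b r s hr hs
    rw [Derivation.leibniz, hr, hs]
    simp only [nsmul_eq_mul, smul_eq_mul]
    push_cast
    ring
  have h1 : e 1 = (0 * N) • (1 : R) := by rw [Derivation.map_one_eq_zero, zero_mul, zero_smul]
  have hpow : ∀ (r : R), e r = N • r → ∀ a : ℕ, e (r ^ a) = (a * N) • r ^ a := by
    intro r hr a
    induction a with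
    | zero => rw [pow_zero]; exact h1
    | succ a ih =>
      rw [pow_succ]
      exact hmul a 1 _ _ ih (by rw [one_mul]; exact hr)
  have hprod : ∀ (S : Finset (Fin m)) (s : Fin m → ℕ),
      e (∏ i ∈ S, z i ^ s i) = ((∑ i ∈ S, s i) * N) • ∏ i ∈ S, z i ^ s i := by
    intro S s
    classical
    induction S using Finset.induction_on with
    | empty => rw [Finset.prod_empty, Finset.sum_empty]; exact h1
    | insert a S ha ih =>
      rw [Finset.prod_insert ha, Finset.sum_insert ha]
      exact hmul _ _ _ _ (hpow _ (hz a) _) ih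
  rw [aeval_sum, map_sum, Finset.smul_sum]
  refine Finset.sum_congr rfl fun s hs => ?_
  rw [Derivation.map_smul, hprod, sum_of_mem hF hs, smul_comm]

theorem exists_homog_rel {k R : Type} [Field k] [CharZero k] [CommRing R] [Nontrivial R]
    [Algebra k R] (e : Derivation k R R) (N : ℕ) (hN : 0 < N) {m : ℕ} (z : Fin m → R)
    (hz : ∀ i, e (z i) = N • z i) (hdep : ¬ AlgebraicIndependent k z) :
    ∃ (j : ℕ) (F : MvPolynomial (Fin m) k), 0 < j ∧ F.IsHomogeneous j ∧ F ≠ 0 ∧
      MvPolynomial.aeval z F = 0 := by
  classical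
  rw [algebraicIndependent_iff] at hdep
  push Not at hdep
  obtain ⟨p, hp, hp0⟩ := hdep
  let v : ℕ → R := fun i => MvPolynomial.aeval z (MvPolynomial.homogeneousComponent i p)
  have hv : ∀ i, e (v i) = ((i * N : ℕ) : k) • v i := fun i => by
    rw [Nat.cast_smul_eq_nsmul]
    exact eig_aeval e N z hz (MvPolynomial.homogeneousComponent_isHomogeneous i p)
  have hsum : ∑ i ∈ Finset.range (p.totalDegree + 1), v i = 0 := by
    rw [← map_sum, MvPolynomial.sum_homogeneousComponent, hp]
  let T : Finset ℕ := (Finset.range (p.totalDegree + 1)).filter fun i => v i ≠ 0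
  have hT : T = ∅ := by
    by_contra hne
    obtain ⟨i0, hi0⟩ := Finset.nonempty_of_ne_empty hne
    have hli := Module.End.eigenvectors_linearIndependent' (e : R →ₗ[k] R)
      (fun i : T => ((i * N : ℕ) : k)) (by
        intro i i' h
        have h' : (i : ℕ) * N = (i' : ℕ) * N := by
          have h2 : (((i : ℕ) * N : ℕ) : k) = (((i' : ℕ) * N : ℕ) : k) := h
          exact_mod_cast h2
        exact Subtype.ext (Nat.eq_of_mul_eq_mul_right hN h')) (fun i : T => v i) (by
        intro i
        exact ⟨Module.End.mem_eigenspace_iff.2 (hv i), (Finset.mem_filter.1 i.2).2⟩)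
    rw [Fintype.linearIndependent_iff] at hli
    have h1 := hli (fun _ => 1) (by
      simp only [one_smul]
      rw [Finset.sum_coe_sort T v, Finset.sum_filter_ne_zero]
      exact hsum) ⟨i0, hi0⟩
    exact one_ne_zero h1
  have hv0 : ∀ i ∈ Finset.range (p.totalDegree + 1), v i = 0 := by
    intro i hi
    by_contra h
    have : i ∈ T := Finset.mem_filter.2 ⟨hi, h⟩
    rw [hT] at this
    exact absurd this (Finset.notMem_empty i)
  have : ∃ i ∈ Finset.range (p.totalDegree + 1), MvPolynomial.homogeneousComponent i p ≠ 0 := by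
    by_contra h
    push Not at h
    apply hp0
    rw [← MvPolynomial.sum_homogeneousComponent p]
    exact Finset.sum_eq_zero h
  obtain ⟨i, hi, hne⟩ := this
  refine ⟨i, _, ?_, MvPolynomial.homogeneousComponent_isHomogeneous i p, hne, hv0 i hi⟩
  rcases Nat.eq_zero_or_pos i with h | h
  · exfalso
    subst h
    have h0 := hv0 0 hi
    rw [MvPolynomial.homogeneousComponent_zero] at hne
    simp only [v] at h0
    rw [MvPolynomial.homogeneousComponent_zero, MvPolynomial.aeval_C] at h0
    have : p.coeff 0 = 0 := by
      apply (algebraMap k R).injective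
      rw [h0, map_zero]
    rw [this, map_zero] at hne
    exact hne rfl
  · exact h

theorem aeval_scale {k B : Type} [Field k] [CommRing B] [Algebra k B] {m j : ℕ}
    {F : MvPolynomial (Fin m) k} (hF : F.IsHomogeneous j) (t : B) (u : Fin m → B) :
    MvPolynomial.aeval (fun i => t * u i) F = t ^ j * MvPolynomial.aeval u F := by
  rw [aeval_sum, aeval_sum, Finset.mul_sum]
  refine Finset.sum_congr rfl fun s hs => ?_
  simp only [mul_pow]
  rw [Finset.prod_mul_distrib, Finset.prod_pow_eq_pow_sum, sum_of_mem hF hs, mul_smul_comm]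

theorem exists_point {k : Type} [Field k] [CharZero k] {m j : ℕ} (hj : 0 < j)
    {F : MvPolynomial (Fin m) k} (hF : F.IsHomogeneous j) (h0 : F ≠ 0) :
    ∃ (a : Fin m → k) (l : Fin m), a l = 1 ∧ MvPolynomial.aeval a F ≠ (0 : k) := by
  have : ∃ a : Fin m → k, MvPolynomial.aeval a F ≠ (0 : k) := by
    by_contra h
    push Not at h
    apply h0
    apply MvPolynomial.funext
    intro x
    rw [map_zero]
    exact h x
  obtain ⟨a, ha⟩ := this
  have : ∃ l, a l ≠ 0 := by
    by_contra h
    push Not at h
    apply ha
    have h1 := aeval_scale hF (0 : k) a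
    have h2 : (fun i => (0 : k) * a i) = a := by funext i; rw [h i, mul_zero]
    rw [h2, zero_pow hj.ne', zero_mul] at h1
    exact h1
  obtain ⟨l, hl⟩ := this
  refine ⟨fun i => (a l)⁻¹ * a i, l, inv_mul_cancel₀ hl, ?_⟩
  rw [aeval_scale hF]
  exact mul_ne_zero (pow_ne_zero _ (inv_ne_zero hl)) ha

open Polynomial in
theorem poly_facts {k C : Type} [Field k] [CommRing C] [Algebra k C] {m j : ℕ}
    {F : MvPolynomial (Fin m) k} (hF : F.IsHomogeneous j) (u : Fin m → C) (a : Fin m → k) :
    let G : C[X] := MvPolynomial.aeval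
      (fun i => Polynomial.C (u i) + Polynomial.C (algebraMap k C (a i)) * Polynomial.X) F
    G.natDegree ≤ j ∧ G.coeff j = algebraMap k C (MvPolynomial.aeval a F) := by
  intro G
  let f : Fin m → C[X] := fun i =>
    Polynomial.C (u i) + Polynomial.C (algebraMap k C (a i)) * Polynomial.X
  have hf : ∀ i, (f i).natDegree ≤ 1 ∧ (f i).coeff 1 = algebraMap k C (a i) := by
    intro i
    refine ⟨?_, ?_⟩
    · refine (Polynomial.natDegree_add_le _ _).trans (max_le ?_ ?_)
      · rw [Polynomial.natDegree_C]; exact Nat.zero_le 1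
      · exact (Polynomial.natDegree_C_mul_le _ _).trans Polynomial.natDegree_X_le
    · simp only [f]
      rw [Polynomial.coeff_add, Polynomial.coeff_C_mul_X]
      simp
  have hmul : ∀ (p q : C[X]) (m n : ℕ) (c c' : C), (p.natDegree ≤ m ∧ p.coeff m = c) →
      (q.natDegree ≤ n ∧ q.coeff n = c') →
      ((p * q).natDegree ≤ m + n ∧ (p * q).coeff (m + n) = c * c') := by
    intro p q m n c c' hp hq
    refine ⟨Polynomial.natDegree_mul_le_of_le hp.1 hq.1, ?_⟩
    rw [Polynomial.coeff_mul_add_eq_of_natDegree_le hp.1 hq.1, hp.2, hq.2]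
  have h1 : (1 : C[X]).natDegree ≤ 0 ∧ (1 : C[X]).coeff 0 = 1 := by
    refine ⟨by rw [Polynomial.natDegree_one], by simp⟩
  have hpow : ∀ (i : Fin m) (s : ℕ), ((f i) ^ s).natDegree ≤ s ∧
      ((f i) ^ s).coeff s = algebraMap k C (a i) ^ s := by
    intro i s
    induction s with
    | zero => rw [pow_zero, pow_zero]; exact h1
    | succ s ih =>
      rw [pow_succ, pow_succ]
      exact hmul _ _ _ _ _ _ ih (hf i)
  have hprod : ∀ (S : Finset (Fin m)) (s : Fin m → ℕ),
      (∏ i ∈ S, (f i) ^ s i).natDegree ≤ ∑ i ∈ S, s i ∧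
      (∏ i ∈ S, (f i) ^ s i).coeff (∑ i ∈ S, s i) = ∏ i ∈ S, algebraMap k C (a i) ^ s i := by
    intro S s
    classical
    induction S using Finset.induction_on with
    | empty => rw [Finset.prod_empty, Finset.sum_empty, Finset.prod_empty]; exact h1
    | insert i S hi ih =>
      rw [Finset.prod_insert hi, Finset.sum_insert hi, Finset.prod_insert hi]
      exact hmul _ _ _ _ _ _ (hpow i (s i)) ih
  have hG : G = ∑ s ∈ F.support, F.coeff s • ∏ i, (f i) ^ s i := aeval_sum f F
  refine ⟨?_, ?_⟩
  · rw [hG]
    refine Polynomial.natDegree_sum_le_of_forall_le _ _ fun s hs => ?_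
    refine (Polynomial.natDegree_smul_le _ _).trans ?_
    have := (hprod Finset.univ s).1
    rw [sum_of_mem hF hs] at this
    exact this
  · rw [hG, Polynomial.finsetSum_coeff, aeval_sum, map_sum]
    refine Finset.sum_congr rfl fun s hs => ?_
    have := (hprod Finset.univ s).2
    rw [sum_of_mem hF hs] at this
    rw [Polynomial.coeff_smul, this, Algebra.smul_def, smul_eq_mul, map_mul, map_prod]
    simp only [map_pow]

theorem rad_iff {k R : Type} [Field k] [CommRing R] [Algebra k R] (S : Subalgebra k R) {d : ℕ}
    (x : Fin d → S) (r : S) : r ∈ (Ideal.span (Set.range x)).radical ↔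
    ∃ M : ℕ, ∃ c : Fin d → R, (∀ a, c a ∈ S) ∧ (r : R) ^ M = ∑ a, c a * (x a : R) := by
  rw [Ideal.mem_radical_iff]
  constructor
  · rintro ⟨M, hM⟩
    rw [Ideal.mem_span_range_iff_exists_fun] at hM
    obtain ⟨c, hc⟩ := hM
    refine ⟨M, fun a => (c a : R), fun a => (c a).2, ?_⟩
    have := congrArg (fun s : S => (s : R)) hc
    simp only [AddSubmonoidClass.coe_finsetSum, MulMemClass.coe_mul, SubmonoidClass.coe_pow] at this
    exact this.symm
  · rintro ⟨M, c, hc, h⟩
    refine ⟨M, ?_⟩
    rw [Ideal.mem_span_range_iff_exists_fun]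
    refine ⟨fun a => ⟨c a, hc a⟩, ?_⟩
    apply Subtype.ext
    simp only [AddSubmonoidClass.coe_finsetSum, MulMemClass.coe_mul, SubmonoidClass.coe_pow]
    exact h.symm

theorem noeth {k R : Type} [Field k] [CharZero k] [CommRing R] [Nontrivial R] [Algebra k R]
    (e : Derivation k R R) (S : Subalgebra k R) (N : ℕ) (hN : 0 < N) :
    ∀ (m : ℕ) (z : Fin m → R), (∀ i, e (z i) = N • z i) → (∀ i, z i ∈ S) →
    ∃ (d : ℕ) (x : Fin d → R), AlgebraicIndependent k x ∧
      (∀ a, x a ∈ Submodule.span k (Set.range z)) ∧
      (∀ i, IsIntegral (Algebra.adjoin k (Set.range x)) (z i)) ∧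
      ∀ i, ∃ M : ℕ, ∃ c : Fin d → R, (∀ a, c a ∈ S) ∧ z i ^ M = ∑ a, c a * x a := by
  intro m
  induction m with
  | zero =>
    intro z _ _
    refine ⟨0, z, ?_, fun a => a.elim0, fun a => a.elim0, fun a => a.elim0⟩
    rw [algebraicIndependent_iff_injective_aeval]
    intro p q hpq
    rw [MvPolynomial.eq_C_of_isEmpty p, MvPolynomial.eq_C_of_isEmpty q] at hpq ⊢
    rw [MvPolynomial.aeval_C, MvPolynomial.aeval_C] at hpq
    rw [(algebraMap k R).injective hpq]
  | succ m ih =>
    intro z hz hzS
    by_cases hdep : AlgebraicIndependent k z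
    · refine ⟨m + 1, z, hdep, fun a => Submodule.subset_span ⟨a, rfl⟩, fun i => ?_, fun i => ?_⟩
      · exact isIntegral_algebraMap (R := Algebra.adjoin k (Set.range z))
          (x := ⟨z i, Algebra.subset_adjoin ⟨i, rfl⟩⟩)
      · refine ⟨1, Pi.single i 1, fun a => ?_, ?_⟩
        · by_cases h : a = i
          · subst h; rw [Pi.single_eq_same]; exact S.one_mem
          · rw [Pi.single_eq_of_ne h]; exact S.zero_mem
        · rw [pow_one, Finset.sum_eq_single i]
          · rw [Pi.single_eq_same, one_mul]
          · intro b _ hb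
            rw [Pi.single_eq_of_ne hb, zero_mul]
          · intro h
            exact absurd (Finset.mem_univ i) h
    · obtain ⟨j, F, hj, hF, hF0, hFz⟩ := exists_homog_rel e N hN z hz hdep
      obtain ⟨a, l, hal, haF⟩ := exists_point hj hF hF0
      let z' : Fin m → R := fun i => z (l.succAbove i) - a (l.succAbove i) • z l
      have hz' : ∀ i, e (z' i) = N • z' i := by
        intro i
        simp only [z']
        rw [map_sub, Derivation.map_smul, hz, hz, smul_sub, smul_comm]
      have hz'S : ∀ i, z' i ∈ S := fun i =>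
        S.sub_mem (hzS _) (S.smul_mem (hzS _) _)
      obtain ⟨d, x, hx, hxs, hint, hrad⟩ := ih z' hz' hz'S
      have hspan : ∀ i, z' i ∈ Submodule.span k (Set.range z) := fun i =>
        Submodule.sub_mem _ (Submodule.subset_span ⟨_, rfl⟩)
          (Submodule.smul_mem _ _ (Submodule.subset_span ⟨_, rfl⟩))
      have hle : Submodule.span k (Set.range z') ≤ Submodule.span k (Set.range z) := by
        rw [Submodule.span_le]
        rintro _ ⟨i, rfl⟩
        exact hspan i
      have hleS : Submodule.span k (Set.range z) ≤ Subalgebra.toSubmodule S := by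
        rw [Submodule.span_le]
        rintro _ ⟨i, rfl⟩
        exact hzS i
      have hxS : ∀ a, x a ∈ S := fun a => hleS (hle (hxs a))
      -- coordinates with respect to the new elements
      let z0 : Fin (m + 1) → R := fun i => z i - a i • z l
      have hz0l : z0 l = 0 := by simp only [z0]; rw [hal, one_smul, sub_self]
      have hz0s : ∀ i, z0 (l.succAbove i) = z' i := fun i => rfl
      have hcase : ∀ (P : R → Prop), P 0 → (∀ i, P (z' i)) → ∀ i, P (z0 i) := by
        intro P h0 h1 i
        rcases Fin.eq_self_or_eq_succAbove l i with h | ⟨i', h⟩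
        · rw [h, hz0l]; exact h0
        · rw [h, hz0s]; exact h1 i'
      have hzz : ∀ i, z i = z0 i + a i • z l := fun i => by simp only [z0]; rw [sub_add_cancel]
      -- integrality of `z l`
      let B := Algebra.adjoin k (Set.range x)
      let C := integralClosure B R
      have hz0C : ∀ i, z0 i ∈ C := hcase (fun r => r ∈ C) C.zero_mem (fun i => hint i)
      have hlint : IsIntegral B (z l) := by
        let u : Fin (m + 1) → C := fun i => ⟨z0 i, hz0C i⟩
        obtain ⟨hG1, hG2⟩ := poly_facts hF u a
        set G : Polynomial C := MvPolynomial.aeval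
          (fun i => Polynomial.C (u i) + Polynomial.C (algebraMap k C (a i)) * Polynomial.X) F with hG
        set c0 : k := MvPolynomial.aeval a F with hc0
        have hC : IsIntegral C (z l) := by
          refine ⟨Polynomial.C (algebraMap k C c0⁻¹) * G, ?_, ?_⟩
          · apply Polynomial.monic_of_natDegree_le_of_coeff_eq_one j
            · exact (Polynomial.natDegree_C_mul_le _ _).trans hG1
            · rw [Polynomial.coeff_C_mul, hG2, ← map_mul, inv_mul_cancel₀ haF, map_one]
          · rw [← Polynomial.aeval_def, map_mul]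
            have h1 : Polynomial.aeval (z l) G = MvPolynomial.aeval z F := by
              let θ : Polynomial C →ₐ[k] R := (Polynomial.aeval (R := C) (z l)).restrictScalars k
              have h2 : θ G = MvPolynomial.aeval (fun i => θ (Polynomial.C (u i) +
                  Polynomial.C (algebraMap k C (a i)) * Polynomial.X)) F := by
                rw [hG, ← MvPolynomial.comp_aeval_apply]
              have h3 : (fun i => θ (Polynomial.C (u i) +
                  Polynomial.C (algebraMap k C (a i)) * Polynomial.X)) = z := by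
                funext i
                rw [map_add, map_mul]
                have e1 : θ (Polynomial.C (u i)) = z0 i := by
                  show Polynomial.aeval (z l) (Polynomial.C (u i)) = z0 i
                  rw [Polynomial.aeval_C]
                  rfl
                have e2 : θ (Polynomial.C (algebraMap k C (a i))) = algebraMap k R (a i) := by
                  show Polynomial.aeval (z l) (Polynomial.C (algebraMap k C (a i))) = _
                  rw [Polynomial.aeval_C]
                  rfl
                have e3 : θ Polynomial.X = z l := by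
                  show Polynomial.aeval (z l) Polynomial.X = z l
                  rw [Polynomial.aeval_X]
                rw [e1, e2, e3, hzz i, Algebra.smul_def]
              rw [h3] at h2
              exact h2
            rw [h1, hFz, mul_zero]
        exact isIntegral_trans (R := B) (A := C) (z l) hC
      have hzint : ∀ i, IsIntegral B (z i) := by
        intro i
        have h1 : z0 i ∈ C := hz0C i
        have h2 : z l ∈ C := hlint
        have h3 : algebraMap k R (a i) ∈ C := by
          have : algebraMap k R (a i) = algebraMap B R (algebraMap k B (a i)) := rfl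
          rw [this]
          exact C.algebraMap_mem _
        have h4 : z i ∈ C := by
          rw [hzz i, Algebra.smul_def]
          exact C.add_mem h1 (C.mul_mem h3 h2)
        exact h4
      -- the radical
      let xS : Fin d → S := fun a => ⟨x a, hxS a⟩
      have hrad' : ∀ i, (⟨z' i, hz'S i⟩ : S) ∈ (Ideal.span (Set.range xS)).radical := fun i =>
        (rad_iff S xS _).2 (hrad i)
      have hz0S : ∀ i, z0 i ∈ S := hcase (fun r => r ∈ S) S.zero_mem hz'S
      have hz0rad : ∀ i, (⟨z0 i, hz0S i⟩ : S) ∈ (Ideal.span (Set.range xS)).radical := by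
        intro i
        have := hcase (fun r => ∀ h : r ∈ S, (⟨r, h⟩ : S) ∈ (Ideal.span (Set.range xS)).radical)
          (fun h => by
            have : (⟨0, h⟩ : S) = 0 := rfl
            rw [this]
            exact Ideal.zero_mem _) (fun i h => hrad' i) i
        exact this (hz0S i)
      let J := (Ideal.span (Set.range xS)).radical
      have hlrad : (⟨z l, hzS l⟩ : S) ∈ J := by
        let π := Ideal.Quotient.mkₐ k J
        let zS : Fin (m + 1) → S := fun i => ⟨z i, hzS i⟩
        have h1 : MvPolynomial.aeval zS F = 0 := by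
          apply Subtype.ext
          have : ((MvPolynomial.aeval zS F : S) : R) = MvPolynomial.aeval z F := by
            have := MvPolynomial.comp_aeval_apply zS S.val F
            exact this
          rw [this, hFz]
          rfl
        have h2 : MvPolynomial.aeval (fun i => π (zS i)) F = 0 := by
          rw [← MvPolynomial.comp_aeval_apply, h1, map_zero]
        have h3 : (fun i => π (zS i)) = fun i => π (zS l) * algebraMap k (S ⧸ J) (a i) := by
          funext i
          have e1 : zS i = ⟨z0 i, hz0S i⟩ + a i • zS l := by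
            apply Subtype.ext
            exact hzz i
          rw [e1, map_add, map_smul]
          have e2 : π ⟨z0 i, hz0S i⟩ = 0 := Ideal.Quotient.eq_zero_iff_mem.2 (hz0rad i)
          rw [e2, zero_add, Algebra.smul_def, mul_comm]
        rw [h3, aeval_scale hF] at h2
        have h4 : MvPolynomial.aeval (fun i => algebraMap k (S ⧸ J) (a i)) F =
            algebraMap k (S ⧸ J) (MvPolynomial.aeval a F) := by
          have := MvPolynomial.comp_aeval_apply a (Algebra.ofId k (S ⧸ J)) F
          exact this.symm
        rw [h4] at h2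
        have h5 : π (zS l) ^ j = 0 := by
          have h6 := congrArg (fun q => q * algebraMap k (S ⧸ J) (MvPolynomial.aeval a F)⁻¹) h2
          simp only [zero_mul] at h6
          rw [mul_assoc, ← map_mul, mul_inv_cancel₀ haF, map_one, mul_one] at h6
          exact h6
        have h7 : (zS l) ^ j ∈ J := by
          rw [← map_pow] at h5
          exact Ideal.Quotient.eq_zero_iff_mem.1 h5
        have h8 : zS l ∈ J.radical := ⟨j, h7⟩
        rw [Ideal.radical_idem] at h8
        exact h8
      refine ⟨d, x, hx, fun a => hle (hxs a), hzint, fun i => ?_⟩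
      have h1 : (⟨z i, hzS i⟩ : S) ∈ J := by
        have e1 : (⟨z i, hzS i⟩ : S) = ⟨z0 i, hz0S i⟩ + a i • (⟨z l, hzS l⟩ : S) := by
          apply Subtype.ext
          exact hzz i
        rw [e1, Algebra.smul_def]
        exact Ideal.add_mem _ (hz0rad i) (Ideal.mul_mem_left _ _ hlrad)
      exact (rad_iff S xS _).1 h1

end Pool.Agent.HVG.NoetherW

namespace Pool.Agent.HVG

open Pool.Agent.HVG.NoetherW

theorem exists_noether {k R : Type} [Field k] [CharZero k] [CommRing R] [IsDomain R]
    [IsLocalRing R] [Algebra k R] {n : ℕ} (Q : QH k R n) :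
    ∃ (d : ℕ) (x : Fin d → R) (N : ℕ), 0 < N ∧ AlgebraicIndependent k x ∧
      (∀ a, Q.e (x a) = N • x a) ∧
      (∀ a, x a ∈ IsLocalRing.maximalIdeal R) ∧
      (∀ i, IsIntegral (Algebra.adjoin k (Set.range x)) (Q.y i)) ∧
      ∀ i, ∃ M : ℕ, ∃ c : Fin d → R, (∀ a, c a ∈ Algebra.adjoin k (Set.range Q.y)) ∧
        Q.y i ^ M = ∑ a, c a * x a := by
  let N : ℕ := ∏ i, Q.w i
  have hN : 0 < N := Finset.prod_pos fun i _ => Q.wpos i
  have hdvd : ∀ i, Q.w i ∣ N := fun i => Finset.dvd_prod_of_mem _ (Finset.mem_univ i)
  choose t ht using hdvd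
  have htpos : ∀ i, 0 < t i := fun i => by
    rcases Nat.eq_zero_or_pos (t i) with h | h
    · exfalso
      have := ht i
      rw [h, mul_zero] at this
      omega
    · exact h
  let S := Algebra.adjoin k (Set.range Q.y)
  have hyS : ∀ i, Q.y i ∈ S := fun i => Algebra.subset_adjoin ⟨i, rfl⟩
  have hym : ∀ i, Q.y i ∈ IsLocalRing.maximalIdeal R := fun i => by
    rw [Q.max]; exact Ideal.subset_span ⟨i, rfl⟩
  have hpow : ∀ (i : Fin n) (a : ℕ), Q.e (Q.y i ^ a) = (Q.w i * a) • Q.y i ^ a := by
    intro i a
    induction a with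
    | zero => rw [pow_zero, Derivation.map_one_eq_zero, mul_zero, zero_smul]
    | succ a ih =>
      rw [pow_succ, Derivation.leibniz, ih, Q.ey]
      simp only [nsmul_eq_mul, smul_eq_mul]
      push_cast
      ring
  obtain ⟨d, x, hx, hxs, hint, hrad⟩ := noeth Q.e S N hN n (fun i => Q.y i ^ t i)
    (fun i => by rw [hpow, ← ht i]) (fun i => S.pow_mem (hyS i) _)
  refine ⟨d, x, N, hN, hx, fun a => ?_, fun a => ?_, fun i => ?_, fun i => ?_⟩
  · have h : ∀ r ∈ Submodule.span k (Set.range fun i => Q.y i ^ t i), Q.e r = N • r := by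
      intro r hr
      induction hr using Submodule.span_induction with
      | mem y hy =>
        obtain ⟨i, rfl⟩ := hy
        simp only
        rw [hpow, ← ht i]
      | zero => rw [map_zero, smul_zero]
      | add y z _ _ hy hz => rw [map_add, hy, hz, smul_add]
      | smul c y _ hy => rw [Derivation.map_smul, hy, smul_comm]
    exact h _ (hxs a)
  · have := hxs a
    have h2 : Submodule.span k (Set.range fun i => Q.y i ^ t i) ≤
        (IsLocalRing.maximalIdeal R).restrictScalars k := by
      rw [Submodule.span_le]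
      rintro _ ⟨i, rfl⟩
      exact Ideal.pow_mem_of_mem _ (hym i) _ (htpos i)
    exact h2 this
  · exact IsIntegral.of_pow (htpos i) (hint i)
  · obtain ⟨M, c, hc, h⟩ := hrad i
    exact ⟨t i * M, c, hc, by rw [pow_mul]; exact h⟩

end Pool.Agent.HVG
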