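import Pool.Agent.HVG.FormDef
import Pool.Agent.HVG.Forms

/-!
The forms generated by the differentials of the elements of `R`.
-/

set_option autoImplicit false

namespace Pool.Agent.HVG

open TensorProduct Module Pool.Agent.HV

section C0

variable {k K : Type} [Field k] [Field K] [Algebra k K] {d : ℕ}

theorem scPr_tmul (a : K) (w : Lam k d) :
    sc k K d (a ⊗ₜ[k] w) = a * algebraMap k K (aug k d w) := by
  unfold sc
  rw [LinearMap.comp_apply, LinearMap.baseChange_tmul]
  simp [Algebra.smul_def, mul_comm]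

theorem sc_mul (α β : Om k K d) : sc k K d (α * β) = sc k K d α * sc k K d β := by
  induction α using TensorProduct.induction_on with
  | zero => rw [zero_mul, map_zero, zero_mul]
  | add x y hx hy => rw [add_mul, map_add, map_add, add_mul, hx, hy]
  | tmul a w =>
    induction β using TensorProduct.induction_on with
    | zero => rw [mul_zero, map_zero, mul_zero]
    | add x y hx hy => rw [mul_add, map_add, map_add, mul_add, hx, hy]
    | tmul b w' =>
      rw [Algebra.TensorProduct.tmul_mul_tmul, scPr_tmul, scPr_tmul, scPr_tmul, map_mul, map_mul]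
      ring

theorem inv_dK (p : Fin d → Derivation k K K) (y : K) : inv k K d (dK p y) = - dK p y := by
  unfold dK inv
  rw [map_sum, ← Finset.sum_neg_distrib]
  refine Finset.sum_congr rfl fun a _ => ?_
  rw [LinearMap.baseChange_tmul, ← TensorProduct.tmul_neg]
  congr 1
  exact CliffordAlgebra.involute_ι _

theorem inv_one' : inv k K d (1 : Om k K d) = 1 := by
  unfold inv
  rw [Algebra.TensorProduct.one_def, LinearMap.baseChange_tmul]
  congr 1
  exact map_one (CliffordAlgebra.involute (Q := (0 : QuadraticForm k (Fin d → k))))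

end C0

section C

variable {k R K : Type} [Field k] [CharZero k] [CommRing R] [IsDomain R] [IsLocalRing R]
  [Algebra k R] [Field K] [Algebra R K] [IsFractionRing R K] [Algebra k K] [IsScalarTower k R K]
  {n d : ℕ} (Q : QH k R n) (Fr : Frame k R K d)

theorem CC_le_Ctot (j : ℕ) (η : Om k K d) (hη : η ∈ CC Fr.p Q.y j) : η ∈ Ctot (R := R) Fr.p := by
  induction j generalizing η with
  | zero =>
    obtain ⟨r, rfl⟩ := Submodule.mem_span_singleton.1 hη
    exact Subalgebra.smul_mem _ (Subalgebra.one_mem _) r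
  | succ j IH =>
    refine Submodule.span_induction (p := fun η _ => η ∈ Ctot (R := R) Fr.p) ?_ ?_ ?_ ?_ hη
    · rintro z ⟨i, η, hη, rfl⟩
      exact Subalgebra.mul_mem _ (Algebra.subset_adjoin ⟨_, rfl⟩) (IH η hη)
    · exact Subalgebra.zero_mem _
    · intro a b _ _ ha hb
      exact Subalgebra.add_mem _ ha hb
    · intro r a _ ha
      exact Subalgebra.smul_mem _ ha r

theorem toOm_mem_Ctot (l : R ⊗[k] Lam k d) : toOm (K := K) R l ∈ Ctot (R := R) Fr.p := by
  have h1 : ∀ w : Lam k d, (1 : K) ⊗ₜ[k] w ∈ Ctot (R := R) Fr.p := by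
    intro w
    induction w using ExteriorAlgebra.induction with
    | algebraMap c =>
      have : (1 : K) ⊗ₜ[k] (algebraMap k (Lam k d) c) = algebraMap k R c • (1 : Om k K d) := by
        rw [algebraMap_smul, Algebra.algebraMap_eq_smul_one, Algebra.TensorProduct.one_def,
          TensorProduct.tmul_smul]
      rw [this]
      exact Subalgebra.smul_mem _ (Subalgebra.one_mem _) _
    | ι v =>
      have hx : ∀ a, dK Fr.p (algebraMap R K (Fr.x a)) =
          (1 : K) ⊗ₜ[k] ExteriorAlgebra.ι k (Pi.single a (1 : k)) := by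
        intro a
        unfold dK
        rw [Finset.sum_eq_single a]
        · rw [Fr.px, if_pos rfl]
        · intro b _ hb
          rw [Fr.px, if_neg hb, TensorProduct.zero_tmul]
        · intro h; exact absurd (Finset.mem_univ a) h
      have : (1 : K) ⊗ₜ[k] (ExteriorAlgebra.ι k v) =
          ∑ a, algebraMap k R (v a) • dK Fr.p (algebraMap R K (Fr.x a)) := by
        have hv : v = ∑ a, v a • (Pi.single a (1 : k) : Fin d → k) := by
          ext b
          simp [Finset.sum_apply, Pi.single_apply]
        conv_lhs => rw [hv]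
        rw [map_sum, TensorProduct.tmul_sum]
        refine Finset.sum_congr rfl fun a _ => ?_
        rw [map_smul, TensorProduct.tmul_smul, hx, algebraMap_smul]
      rw [this]
      refine Subalgebra.sum_mem _ fun a _ => Subalgebra.smul_mem _ ?_ _
      exact Algebra.subset_adjoin ⟨_, rfl⟩
    | mul a b ha hb =>
      have : (1 : K) ⊗ₜ[k] (a * b) = ((1 : K) ⊗ₜ[k] a) * ((1 : K) ⊗ₜ[k] b) := by
        rw [Algebra.TensorProduct.tmul_mul_tmul, one_mul]
      rw [this]
      exact Subalgebra.mul_mem _ ha hb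
    | add a b ha hb =>
      rw [TensorProduct.tmul_add]
      exact Subalgebra.add_mem _ ha hb
  induction l using TensorProduct.induction_on with
  | zero => rw [map_zero]; exact Subalgebra.zero_mem _
  | add x y hx hy => rw [map_add]; exact Subalgebra.add_mem _ hx hy
  | tmul r w =>
    have : toOm (K := K) R (r ⊗ₜ[k] w) = r • ((1 : K) ⊗ₜ[k] w) := by
      unfold toOm
      rw [TensorProduct.AlgebraTensorModule.map_tmul, TensorProduct.smul_tmul', Algebra.smul_def,
        mul_one]
      rfl
    rw [this]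
    exact Subalgebra.smul_mem _ (h1 w) r

/-- the grade involution preserves the forms on `R` -/
theorem inv_mem_Ctot (η : Om k K d) (hη : η ∈ Ctot (R := R) Fr.p) :
    inv k K d η ∈ Ctot (R := R) Fr.p := by
  refine Algebra.adjoin_induction
    (p := fun η _ => inv k K d η ∈ Ctot (R := R) Fr.p) ?_ ?_ ?_ ?_ hη
  · rintro _ ⟨r, rfl⟩
    rw [inv_dK]
    exact Subalgebra.neg_mem _ (Algebra.subset_adjoin ⟨_, rfl⟩)
  · intro r
    rw [Algebra.algebraMap_eq_smul_one, ← algebraMap_smul K r, map_smul, inv_one', algebraMap_smul]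
    exact Subalgebra.smul_mem _ (Subalgebra.one_mem _) r
  · intro a b _ _ ha hb
    rw [map_add]
    exact Subalgebra.add_mem _ ha hb
  · intro a b _ _ ha hb
    rw [inv_mul]
    exact Subalgebra.mul_mem _ ha hb

/-- contraction with a derivation of `R` preserves the forms on `R` -/
theorem con_mem_Ctot (v : Fin d → K) (hv : v ∈ latt R Fr.p) (η : Om k K d)
    (hη : η ∈ Ctot (R := R) Fr.p) : con v η ∈ Ctot (R := R) Fr.p := by
  refine Algebra.adjoin_induction
    (p := fun η _ => con v η ∈ Ctot (R := R) Fr.p) ?_ ?_ ?_ ?_ hη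
  · rintro _ ⟨r, rfl⟩
    obtain ⟨r', hr'⟩ := hv r
    have := con_dK_mul Fr.p v (algebraMap R K r) 1
    rw [mul_one, con_one, mul_zero, sub_zero, ← hr', algebraMap_smul] at this
    rw [this]
    exact Subalgebra.smul_mem _ (Subalgebra.one_mem _) r'
  · intro r
    rw [Algebra.algebraMap_eq_smul_one, ← algebraMap_smul K r, map_smul, con_one, smul_zero]
    exact Subalgebra.zero_mem _
  · intro a b _ _ ha hb
    rw [map_add]
    exact Subalgebra.add_mem _ ha hb
  · intro a b ha' _ ha hb
    rw [con_mul]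
    exact Subalgebra.add_mem _ (Subalgebra.mul_mem _ ha (by assumption))
      (Subalgebra.mul_mem _ (inv_mem_Ctot Fr a ha') hb)

theorem sc_mem (η : Om k K d) (hη : η ∈ Ctot (R := R) Fr.p) :
    ∃ r : R, algebraMap R K r = sc k K d η := by
  refine Algebra.adjoin_induction
    (p := fun η _ => ∃ r : R, algebraMap R K r = sc k K d η) ?_ ?_ ?_ ?_ hη
  · rintro _ ⟨r, rfl⟩
    refine ⟨0, ?_⟩
    have := sc_dK_mul Fr.p (algebraMap R K r) 1
    rw [mul_one] at this
    rw [this, map_zero]
  · intro r
    refine ⟨r, ?_⟩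
    rw [Algebra.algebraMap_eq_smul_one (A := Om k K d), ← algebraMap_smul K r, map_smul, sc_one,
      smul_eq_mul, mul_one]
  · rintro a b _ _ ⟨r, hr⟩ ⟨r', hr'⟩
    exact ⟨r + r', by rw [map_add, map_add, hr, hr']⟩
  · rintro a b _ _ ⟨r, hr⟩ ⟨r', hr'⟩
    exact ⟨r * r', by rw [map_mul, sc_mul, hr, hr']⟩

theorem top_mem_LL (η : Om k K d) (hη : η ∈ Ctot (R := R) Fr.p) :
    top k K d η ∈ LL R (latt R Fr.p) := by
  intro v hv
  have h := sc_con_prod v η
  have hl : ∀ l : List (Fin d → K), (∀ v ∈ l, v ∈ latt R Fr.p) → ∀ η ∈ Ctot (R := R) Fr.p,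
      (l.map fun v => (con v : Module.End K (Om k K d))).prod η ∈ Ctot (R := R) Fr.p := by
    intro l
    induction l with
    | nil => intro _ η hη; simpa using hη
    | cons a l ih =>
      intro hl η hη
      rw [List.map_cons, List.prod_cons, Module.End.mul_apply]
      exact con_mem_Ctot Fr a (hl a List.mem_cons_self) _
        (ih (fun v hv => hl v (List.mem_cons_of_mem _ hv)) η hη)
  obtain ⟨r, hr⟩ := sc_mem Fr _ (hl (List.ofFn v) (by
    intro w hw
    obtain ⟨i, rfl⟩ := (List.mem_ofFn' v w).1 hw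
    exact hv i) η hη)
  refine ⟨r, ?_⟩
  rw [hr, mul_comm, ← h, List.map_ofFn]
  rfl

end C

end Pool.Agent.HVG
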