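import Pool.Agent.HVG.Defs

/-!
Finite free resolutions of finitely generated modules of finite projective dimension.
-/

set_option autoImplicit false

namespace Pool.Agent.HVG

open TensorProduct Module Pool.Agent.HV CategoryTheory

theorem FFR.equiv {R M M' : Type} [CommRing R] [AddCommGroup M] [Module R M]
    [AddCommGroup M'] [Module R M'] {m : ℕ} (e : M ≃ₗ[R] M') (h : FFR R m M) : FFR R m M' := by
  cases m with
  | zero =>
    obtain ⟨r, ⟨f⟩⟩ := h
    exact ⟨r, ⟨e.symm.trans f⟩⟩
  | succ m =>
    obtain ⟨r, g, hg, hk⟩ := h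
    refine ⟨r, e.toLinearMap ∘ₗ g, e.surjective.comp hg, ?_⟩
    have : LinearMap.ker (e.toLinearMap ∘ₗ g) = LinearMap.ker g := by
      rw [LinearMap.ker_comp, LinearEquiv.ker]
      rfl
    rw [this]
    exact hk

theorem hpd_of_hasRes {R : Type} [CommRing R] : ∀ {m : ℕ} {M : Type} [AddCommGroup M]
    [Module R M], HasRes R m M → HasProjectiveDimensionLT (ModuleCat.of R M) m
  | 0, M, _, _, h => by
    have : Subsingleton M := h
    have h0 : Limits.IsZero (ModuleCat.of R M) := ModuleCat.isZero_of_subsingleton _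
    exact h0.hasProjectiveDimensionLT_zero
  | m + 1, M, _, _, h => by
    obtain ⟨P, _, _, hP, g, hg, hk⟩ := h
    have h1 := hpd_of_hasRes hk
    have hS := LinearMap.shortExact_shortComplexKer hg
    have h2 : HasProjectiveDimensionLT (ModuleCat.of R P) (m + 1) := by
      have : Projective (ModuleCat.of R P) := inferInstance
      exact hasProjectiveDimensionLT_of_ge _ 1 (m + 1) (by omega)
    exact hS.hasProjectiveDimensionLT_X₃ m h1 h2

theorem ffr_of_hpd {R : Type} [CommRing R] [IsLocalRing R] [IsNoetherianRing R] :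
    ∀ (n : ℕ) {M : Type} [AddCommGroup M] [Module R M] [Module.Finite R M],
    HasProjectiveDimensionLT (ModuleCat.of R M) (n + 1) → FFR R n M
  | 0, M, _, _, _, h => by
    have h1 : Projective (ModuleCat.of R M) := projective_iff_hasProjectiveDimensionLT_one.2 h
    have h2 : Module.Projective R M := (IsProjective.iff_projective M).2 h1
    have h3 : Module.Free R M := Module.free_of_flat_of_isLocalRing
    exact ⟨_, ⟨(Module.finBasis R M).equivFun⟩⟩
  | n + 1, M, _, _, _, h => by
    obtain ⟨r, g, hg⟩ := Module.Finite.exists_fin' R M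
    have hS := LinearMap.shortExact_shortComplexKer hg
    have h2 : HasProjectiveDimensionLT (ModuleCat.of R (Fin r → R)) (n + 1) := by
      have : Projective (ModuleCat.of R (Fin r → R)) := inferInstance
      exact hasProjectiveDimensionLT_of_ge _ 1 (n + 1) (by omega)
    have h1 := hS.hasProjectiveDimensionLT_X₁ (n + 1) h2 h
    exact ⟨r, g, hg, ffr_of_hpd n h1⟩

theorem ffr_of_hasRes {R M : Type} [CommRing R] [IsLocalRing R] [IsNoetherianRing R]
    [AddCommGroup M] [Module R M] [Module.Finite R M] {m : ℕ} (h : HasRes R m M) :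
    ∃ m', FFR R m' M := by
  have h1 := hpd_of_hasRes h
  have h2 : HasProjectiveDimensionLT (ModuleCat.of R M) (m + 1) :=
    hasProjectiveDimensionLT_of_ge _ m (m + 1) (by omega)
  exact ⟨m, ffr_of_hpd m h2⟩

/-- a free module as a resolution -/
noncomputable def seqResFree {R M : Type} [CommRing R] [AddCommGroup M] [Module R M] (r0 : ℕ)
    (e : M ≃ₗ[R] (Fin r0 → R)) : SeqRes R M where
  s := 1
  r := fun j => Nat.casesOn j r0 fun _ => 0
  φ := fun _ => 0
  ε := e.symm.toLinearMap
  surj := e.symm.surjective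
  exact0 := by
    rw [LinearMap.range_zero]
    exact (LinearEquiv.ker e.symm).symm
  exact := fun j => by
    have : Subsingleton (Fin (Nat.casesOn (motive := fun _ => ℕ) (j + 1) r0 fun _ => 0) → R) :=
      inferInstanceAs (Subsingleton (Fin 0 → R))
    exact Subsingleton.elim _ _
  zero := fun j hj => by
    obtain ⟨j, rfl⟩ : ∃ i, j = i + 1 := ⟨j - 1, by omega⟩
    rfl

/-- gluing -/
noncomputable def seqResSucc {R M : Type} [CommRing R] [AddCommGroup M] [Module R M] (r0 : ℕ)
    (g : (Fin r0 → R) →ₗ[R] M) (hg : Function.Surjective g) (S : SeqRes R (LinearMap.ker g)) :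
    SeqRes R M where
  s := S.s + 1
  r := fun j => Nat.casesOn j r0 fun i => S.r i
  φ := fun j => match j with
    | 0 => (LinearMap.ker g).subtype ∘ₗ S.ε
    | j + 1 => S.φ j
  ε := g
  surj := hg
  exact0 := by
    show LinearMap.range ((LinearMap.ker g).subtype ∘ₗ S.ε) = LinearMap.ker g
    rw [LinearMap.range_comp, LinearMap.range_eq_top.2 S.surj, Submodule.map_top,
      Submodule.range_subtype]
  exact := fun j => match j with
    | 0 => by
      show LinearMap.range (S.φ 0) = LinearMap.ker ((LinearMap.ker g).subtype ∘ₗ S.ε)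
      rw [LinearMap.ker_comp_of_ker_eq_bot _ (Submodule.ker_subtype _), S.exact0]
    | j + 1 => S.exact j
  zero := fun j hj => by
    obtain ⟨j, rfl⟩ : ∃ i, j = i + 1 := ⟨j - 1, by omega⟩
    exact S.zero j (by omega)

theorem seqRes_of_ffr {R M : Type} [CommRing R] [AddCommGroup M] [Module R M] {m : ℕ}
    (h : FFR R m M) : Nonempty (SeqRes R M) := by
  induction m generalizing M with
  | zero =>
    obtain ⟨r, ⟨e⟩⟩ := h
    exact ⟨seqResFree r e⟩
  | succ m ih =>
    obtain ⟨r, g, hg, hk⟩ := h
    obtain ⟨S⟩ := ih hk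
    exact ⟨seqResSucc r g hg S⟩

end Pool.Agent.HVG
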