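import Pool.Agent.HVG.BaseDef

/-!
Integrality of traces of elements of the inverse of the Jacobian lattice.
-/

set_option autoImplicit false

namespace Pool.Agent.HVG

open Module IsLocalRing

/-! ### The local rings above a prime element -/

section dvr

variable {A R : Type} [CommRing A] [IsDomain A] [IsNoetherianRing A] [CommRing R] [IsDomain R]
  [Algebra A R] [Algebra.IsIntegral A R]

theorem prime_le_span {t : A} (ht : Prime t) {Q : Ideal A} [Q.IsPrime]
    (hQ : Q ≤ Ideal.span {t}) : Q = ⊥ ∨ Q = Ideal.span {t} := by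
  by_cases h : t ∈ Q
  · right
    exact le_antisymm hQ ((Ideal.span_singleton_le_iff_mem _).2 h)
  · left
    rw [eq_bot_iff]
    have key : ∀ n : ℕ, Q ≤ Ideal.span {t} ^ n := by
      intro n
      induction n with
      | zero => simp
      | succ n ih =>
        intro a ha
        obtain ⟨b, rfl⟩ := Ideal.mem_span_singleton'.1 (hQ ha)
        have hb : b ∈ Q := ((Ideal.IsPrime.mem_or_mem inferInstance ha).resolve_right h)
        rw [pow_succ]
        exact Ideal.mul_mem_mul (ih hb) (Ideal.mem_span_singleton_self t)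
    have h1 : (⨅ n : ℕ, Ideal.span {t} ^ n) = ⊥ := by
      apply Ideal.iInf_pow_eq_bot_of_isDomain
      intro h
      exact ht.not_isUnit (Ideal.span_singleton_eq_top.1 h)
    rw [← h1]
    exact le_iInf key

theorem dvr_of_over [IsIntegrallyClosed R] [IsNoetherianRing R] {t : A} (ht : Prime t)
    (hinj : Function.Injective (algebraMap A R))
    (P : Ideal R) [P.IsPrime] (hP : P.comap (algebraMap A R) = Ideal.span {t}) :
    IsDiscreteValuationRing (Localization.AtPrime P) := by
  have hN : IsNoetherianRing (Localization.AtPrime P) :=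
    IsLocalization.isNoetherianRing P.primeCompl _ inferInstance
  have hI : IsIntegrallyClosed (Localization.AtPrime P) :=
    isIntegrallyClosed_of_isLocalization (Localization.AtPrime P) P.primeCompl
      P.primeCompl_le_nonZeroDivisors
  have hPb : P ≠ ⊥ := by
    rintro rfl
    have : t ∈ Ideal.comap (algebraMap A R) ⊥ := by
      rw [hP]; exact Ideal.mem_span_singleton_self t
    rw [Ideal.mem_comap, Ideal.mem_bot, ← map_zero (algebraMap A R)] at this
    exact ht.ne_zero (hinj this)
  have hcomap : (maximalIdeal (Localization.AtPrime P)).comap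
      (algebraMap R (Localization.AtPrime P)) = P := Localization.AtPrime.under_maximalIdeal
  have hF : ¬ IsField (Localization.AtPrime P) := by
    intro hF
    apply hPb
    rw [← hcomap]
    have := (isField_iff_maximalIdeal_eq).1 hF
    rw [this, eq_bot_iff]
    intro x hx
    rw [Ideal.mem_comap, Ideal.mem_bot] at hx
    have := IsLocalization.injective (Localization.AtPrime P) P.primeCompl_le_nonZeroDivisors
    rw [Ideal.mem_bot]
    exact this (by rw [hx, map_zero])
  have hmap : ∀ Q : Ideal (Localization.AtPrime P), Ideal.map (algebraMap R _)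
      (Q.comap (algebraMap R (Localization.AtPrime P))) = Q :=
    fun Q => IsLocalization.map_under P.primeCompl _ Q
  refine ((IsDiscreteValuationRing.TFAE (Localization.AtPrime P) hF).out 3 0 rfl rfl).1 ?_
  refine ⟨hI, maximalIdeal _, ⟨(isField_iff_maximalIdeal_eq).not.1 hF, inferInstance⟩, ?_⟩
  rintro Q ⟨hQ0, hQ⟩
  set Q0 : Ideal R := Q.comap (algebraMap R (Localization.AtPrime P)) with hQ0def
  have hQ0p : Q0.IsPrime := Ideal.comap_isPrime _ _
  have hle : Q0 ≤ P := by
    rw [← hcomap]
    exact Ideal.comap_mono (le_maximalIdeal hQ.ne_top)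
  have hQ0b : Q0 ≠ ⊥ := by
    intro h
    apply hQ0
    rw [← hmap Q, ← hQ0def, h, Ideal.map_bot]
  have heq : Q0 = P := by
    by_contra hne
    have hlt : Q0 < P := lt_of_le_of_ne hle hne
    have h1 := Ideal.IsIntegral.comap_lt_comap (R := A) (A := R) hlt
    have h2 : Q0.comap (algebraMap A R) ≤ Ideal.span {t} := by
      rw [← hP]; exact Ideal.comap_mono hle
    have h3 : (Q0.comap (algebraMap A R)).IsPrime := Ideal.comap_isPrime _ _
    rcases prime_le_span ht h2 with h | h
    · exact hQ0b (Ideal.eq_bot_of_comap_eq_bot h)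
    · apply hlt.ne
      exact absurd (h.trans hP.symm) h1.ne
  rw [← hmap Q, ← hQ0def, heq, ← hmap (maximalIdeal _), hcomap]

end dvr

/-! ### A separable polynomial -/

open Polynomial in
theorem exists_sep {k A R : Type} [Field k] [CharZero k] [CommRing A] [Algebra k A] [CommRing R]
    [Algebra A R] [Algebra.IsIntegral A R] (P : Ideal R) [P.IsPrime] (y : R) :
    ∃ G : A[X], aeval y G ∈ P ∧ aeval y (derivative G) ∉ P := by
  classical
  have hne : ∃ n : ℕ, ∃ G : A[X], G.Monic ∧ G.natDegree = n ∧ aeval y G ∈ P := by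
    obtain ⟨G, hG, h0⟩ := Algebra.IsIntegral.isIntegral (R := A) y
    refine ⟨G.natDegree, G, hG, rfl, ?_⟩
    have : aeval y G = 0 := h0
    rw [this]
    exact P.zero_mem
  have hA : Nontrivial R := ⟨1, 0, fun h => (inferInstance : P.IsPrime).ne_top
    ((Ideal.eq_top_iff_one _).2 (h ▸ P.zero_mem))⟩
  have hA' : Nontrivial A := (algebraMap A R).domain_nontrivial
  obtain ⟨G, hG, hn, hP⟩ := Nat.find_spec hne
  set n := Nat.find hne with hndef
  have hmin := fun m => Nat.find_min hne (m := m)
  refine ⟨G, hP, fun hcon => ?_⟩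
  have hn0 : n ≠ 0 := by
    intro h0
    rw [h0] at hn
    have : G = 1 := by
      rw [hG.natDegree_eq_zero] at hn
      exact hn
    rw [this, map_one] at hP
    exact (inferInstance : P.IsPrime).ne_top ((Ideal.eq_top_iff_one _).2 hP)
  have hnk : (n : k) ≠ 0 := Nat.cast_ne_zero.2 hn0
  apply hmin (n - 1) (by omega)
  refine ⟨C (algebraMap k A (n : k)⁻¹) * derivative G, ?_, ?_, ?_⟩
  · have hcoef : (C (algebraMap k A (n : k)⁻¹) * derivative G).coeff (n - 1) = 1 := by
      rw [coeff_C_mul, coeff_derivative]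
      have e : n - 1 + 1 = n := by omega
      rw [e]
      have h1 : G.coeff n = 1 := by
        rw [← hn]; exact hG
      rw [h1, one_mul]
      have e2 : ((n - 1 : ℕ) : A) + 1 = algebraMap k A (n : k) := by
        rw [map_natCast, ← Nat.cast_add_one, e]
      rw [e2, ← map_mul, inv_mul_cancel₀ hnk, map_one]
    have hdeg : (C (algebraMap k A (n : k)⁻¹) * derivative G).natDegree ≤ n - 1 := by
      refine (natDegree_C_mul_le _ _).trans ?_
      refine (natDegree_derivative_le G).trans ?_
      omega
    exact monic_of_natDegree_le_of_coeff_eq_one _ hdeg hcoef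
  · have hcoef : (C (algebraMap k A (n : k)⁻¹) * derivative G).coeff (n - 1) = 1 := by
      rw [coeff_C_mul, coeff_derivative]
      have e : n - 1 + 1 = n := by omega
      rw [e]
      have h1 : G.coeff n = 1 := by
        rw [← hn]; exact hG
      rw [h1, one_mul]
      have e2 : ((n - 1 : ℕ) : A) + 1 = algebraMap k A (n : k) := by
        rw [map_natCast, ← Nat.cast_add_one, e]
      rw [e2, ← map_mul, inv_mul_cancel₀ hnk, map_one]
    apply le_antisymm
    · refine (natDegree_C_mul_le _ _).trans ?_
      refine (natDegree_derivative_le G).trans ?_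
      omega
    · apply le_natDegree_of_ne_zero
      rw [hcoef]
      exact one_ne_zero
  · rw [map_mul]
    exact P.mul_mem_left _ hcon

/-! ### Derivations which preserve a discrete valuation ring -/

section log

variable {k K R O A : Type} [Field k] [CharZero k] [CommRing A] [Algebra k A] [CommRing R]
  [Algebra A R] [CommRing O] [IsDomain O] [IsDiscreteValuationRing O] [Algebra k O] [Algebra R O]
  [Field K] [Algebra k K] [Algebra O K] [IsFractionRing O K] [Algebra R K] [IsScalarTower R O K]
  [Algebra A K] [IsScalarTower A R K] [IsScalarTower k O K]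

omit [CharZero k] [IsDomain O] [IsDiscreteValuationRing O] [Algebra k O] [IsFractionRing O K]
  [IsScalarTower k O K] in
theorem lift_frac (hfrac : ∀ y : O, ∃ s r : R, IsUnit (algebraMap R O s) ∧
      algebraMap R O s * y = algebraMap R O r) (D : Derivation k K K) (g : K)
    (h : ∀ r : R, ∃ z : O, D (algebraMap R K r) = g * algebraMap O K z) (y : O) :
    ∃ z : O, D (algebraMap O K y) = g * algebraMap O K z := by
  obtain ⟨s, r, ⟨u, hu⟩, hsr⟩ := hfrac y
  obtain ⟨zs, hzs⟩ := h s
  obtain ⟨zr, hzr⟩ := h r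
  refine ⟨(↑u⁻¹ : O) * (zr - y * zs), ?_⟩
  have h1 : algebraMap R K s * algebraMap O K y = algebraMap R K r := by
    rw [IsScalarTower.algebraMap_apply R O K, IsScalarTower.algebraMap_apply R O K, ← map_mul, hsr]
  have h2 := congrArg D h1
  rw [Derivation.leibniz, hzs, hzr, smul_eq_mul, smul_eq_mul] at h2
  have h3 : algebraMap O K (↑u⁻¹ : O) * algebraMap R K s = 1 := by
    rw [IsScalarTower.algebraMap_apply R O K, ← hu, ← map_mul, Units.inv_mul, map_one]
  have h4 : D (algebraMap O K y) = algebraMap O K (↑u⁻¹ : O) *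
      (algebraMap R K s * D (algebraMap O K y)) := by
    rw [← mul_assoc, h3, one_mul]
  rw [h4, eq_sub_of_add_eq h2, map_mul, map_sub, map_mul]
  ring

/-- a logarithmic derivation maps the uniformizer to a multiple of itself -/
theorem unif_log {ϖ : O} (hϖ : Irreducible ϖ) (D : Derivation k K K)
    (hO : ∀ y : O, ∃ z : O, D (algebraMap O K y) = algebraMap O K z)
    {t : O} (ht0 : t ≠ 0) (htm : ¬ IsUnit t)
    (ht : ∃ z : O, D (algebraMap O K t) = algebraMap O K t * algebraMap O K z) :
    ∃ z : O, D (algebraMap O K ϖ) = algebraMap O K ϖ * algebraMap O K z := by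
  obtain ⟨e, u, hu⟩ := IsDiscreteValuationRing.eq_unit_mul_pow_irreducible ht0 hϖ
  have he : e ≠ 0 := by
    rintro rfl
    rw [pow_zero, mul_one] at hu
    exact htm (hu ▸ u.isUnit)
  obtain ⟨e, rfl⟩ : ∃ e', e = e' + 1 := ⟨e - 1, by omega⟩
  obtain ⟨z, hz⟩ := ht
  obtain ⟨du, hdu⟩ := hO (u : O)
  have hek : ((e + 1 : ℕ) : k) ≠ 0 := Nat.cast_ne_zero.2 (by omega)
  have hϖK : algebraMap O K ϖ ≠ 0 := by
    rw [Ne, ← map_zero (algebraMap O K)]
    exact fun h => hϖ.ne_zero (IsFractionRing.injective O K h)
  have h1 : D (algebraMap O K t) = algebraMap O K ϖ ^ (e + 1) * algebraMap O K du +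
      algebraMap O K (u : O) * ((e + 1 : ℕ) * algebraMap O K ϖ ^ e * D (algebraMap O K ϖ)) := by
    rw [hu, map_mul, Derivation.leibniz, hdu, map_pow, Derivation.leibniz_pow, smul_eq_mul,
      smul_eq_mul, smul_eq_mul, nsmul_eq_mul, Nat.add_sub_cancel]
    ring
  rw [hz, hu, map_mul, map_pow] at h1
  have h2 : algebraMap O K ϖ ^ e * (algebraMap O K (u : O) *
      ((e + 1 : ℕ) * D (algebraMap O K ϖ))) = algebraMap O K ϖ ^ e *
      (algebraMap O K ϖ * (algebraMap O K (u : O) * algebraMap O K z - algebraMap O K du)) := by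
    linear_combination -h1
  have h3 := mul_left_cancel₀ (pow_ne_zero e hϖK) h2
  have huK : algebraMap O K (↑u⁻¹ : O) * algebraMap O K (u : O) = 1 := by
    rw [← map_mul, Units.inv_mul, map_one]
  have heK : algebraMap k K ((e + 1 : ℕ) : k)⁻¹ * ((e + 1 : ℕ) : K) = 1 := by
    rw [← map_natCast (algebraMap k K) (e + 1), ← map_mul, inv_mul_cancel₀ hek, map_one]
  refine ⟨algebraMap k O ((e + 1 : ℕ) : k)⁻¹ * ((↑u⁻¹ : O) * (u * z - du)), ?_⟩
  rw [map_mul, map_mul, map_sub, map_mul, ← IsScalarTower.algebraMap_apply k O K]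
  have h4 : D (algebraMap O K ϖ) = algebraMap k K ((e + 1 : ℕ) : k)⁻¹ *
      algebraMap O K (↑u⁻¹ : O) *
      (algebraMap O K (u : O) * ((e + 1 : ℕ) * D (algebraMap O K ϖ))) := by
    calc D (algebraMap O K ϖ) = (algebraMap k K ((e + 1 : ℕ) : k)⁻¹ * ((e + 1 : ℕ) : K)) *
        (algebraMap O K (↑u⁻¹ : O) * algebraMap O K (u : O)) * D (algebraMap O K ϖ) := by
          rw [heK, huK]; ring
      _ = _ := by ring
  rw [h4, h3]
  ring

open Polynomial in
omit [CharZero k] [Algebra k A] [IsDomain O] [IsDiscreteValuationRing O] [Algebra k O]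
  [IsFractionRing O K] [IsScalarTower k O K] in
theorem der_aeval (D : Derivation k K K) (g : K) (hA : ∀ a : A, ∃ z : O, D (algebraMap A K a) =
    g * algebraMap O K z) (r : R) (G : A[X]) :
    ∃ z : O, D (algebraMap R K (aeval r G)) =
      algebraMap R K (aeval r (derivative G)) * D (algebraMap R K r) + g * algebraMap O K z := by
  induction G using Polynomial.induction_on' with
  | add G H hG hH =>
    obtain ⟨z, hz⟩ := hG
    obtain ⟨z', hz'⟩ := hH
    refine ⟨z + z', ?_⟩
    rw [map_add, map_add, map_add, hz, hz', derivative_add, map_add, map_add, map_add]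
    ring
  | monomial n a =>
    obtain ⟨z, hz⟩ := hA a
    refine ⟨z * algebraMap R O (r ^ n), ?_⟩
    rw [aeval_monomial, map_mul, Derivation.leibniz, ← IsScalarTower.algebraMap_apply A R K, hz,
      map_pow, Derivation.leibniz_pow, derivative_monomial, aeval_monomial, map_mul, map_mul,
      smul_eq_mul, smul_eq_mul, smul_eq_mul, nsmul_eq_mul, map_pow, map_mul,
      ← IsScalarTower.algebraMap_apply A R K, map_natCast, map_natCast,
      map_mul, ← IsScalarTower.algebraMap_apply R O K, map_pow]
    ring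

/-- Lemma V -/
theorem derV [Algebra.IsIntegral A R] (P : Ideal R) [P.IsPrime]
    (hP : ∀ r : R, r ∈ P ↔ ¬ IsUnit (algebraMap R O r))
    (hfrac : ∀ y : O, ∃ s r : R, IsUnit (algebraMap R O s) ∧
      algebraMap R O s * y = algebraMap R O r)
    {ϖ : O} (hϖ : Irreducible ϖ) (D : Derivation k K K)
    (hO : ∀ y : O, ∃ z : O, D (algebraMap O K y) = algebraMap O K z)
    {t : O} (ht0 : t ≠ 0) (htm : ¬ IsUnit t)
    (ht : ∃ z : O, D (algebraMap O K t) = algebraMap O K t * algebraMap O K z)
    (hA : ∀ a : A, ∃ z : O, D (algebraMap A K a) = algebraMap O K ϖ * algebraMap O K z) (y : O) :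
    ∃ z : O, D (algebraMap O K y) = algebraMap O K ϖ * algebraMap O K z := by
  refine lift_frac hfrac D _ (fun r => ?_) y
  obtain ⟨G, hG, hG'⟩ := exists_sep (k := k) (A := A) P r
  obtain ⟨z, hz⟩ := der_aeval D _ hA r G
  obtain ⟨w, hw⟩ := unif_log hϖ D hO ht0 htm ht
  have h1 : ϖ ∣ algebraMap R O (Polynomial.aeval r G) := by
    have := (hP _).1 hG
    have h2 : algebraMap R O (Polynomial.aeval r G) ∈ maximalIdeal O :=
      (mem_maximalIdeal _).2 this
    rw [(IsDiscreteValuationRing.irreducible_iff_uniformizer ϖ).1 hϖ] at h2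
    exact Ideal.mem_span_singleton.1 h2
  obtain ⟨b, hb⟩ := h1
  obtain ⟨db, hdb⟩ := hO b
  have h2 : algebraMap R K (Polynomial.aeval r G) = algebraMap O K ϖ * algebraMap O K b := by
    rw [IsScalarTower.algebraMap_apply R O K, hb, map_mul]
  rw [h2, Derivation.leibniz, hw, hdb, smul_eq_mul, smul_eq_mul] at hz
  have hu : IsUnit (algebraMap R O (Polynomial.aeval r (Polynomial.derivative G))) := by
    by_contra hcon
    exact hG' ((hP _).2 hcon)
  obtain ⟨u, hu⟩ := hu
  refine ⟨(↑u⁻¹ : O) * (db + b * w - z), ?_⟩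
  have h3 : algebraMap O K (↑u⁻¹ : O) *
      algebraMap R K (Polynomial.aeval r (Polynomial.derivative G)) = 1 := by
    rw [IsScalarTower.algebraMap_apply R O K, ← hu, ← map_mul, Units.inv_mul, map_one]
  calc D (algebraMap R K r) = algebraMap O K (↑u⁻¹ : O) *
        (algebraMap R K (Polynomial.aeval r (Polynomial.derivative G)) * D (algebraMap R K r)) := by
          rw [← mul_assoc, h3, one_mul]
    _ = _ := by
      rw [eq_sub_of_add_eq hz.symm, map_mul, map_sub, map_add, map_mul]
      ring

/-- Lemma V2 -/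
theorem derV2 [Algebra.IsIntegral A R] (P : Ideal R) [P.IsPrime]
    (hP : ∀ r : R, r ∈ P ↔ ¬ IsUnit (algebraMap R O r))
    (hfrac : ∀ y : O, ∃ s r : R, IsUnit (algebraMap R O s) ∧
      algebraMap R O s * y = algebraMap R O r)
    {ϖ : O} (hϖ : Irreducible ϖ) (D : Derivation k K K)
    {t : O} (ht0 : t ≠ 0) (htm : ¬ IsUnit t)
    (ht : ∃ z : O, D (algebraMap O K t) = algebraMap O K t * algebraMap O K z)
    (hA : ∀ a : A, ∃ z : O, D (algebraMap A K a) = algebraMap O K z)
    (n : ℕ) (hb : ∀ y : O, ∃ z : O, algebraMap O K ϖ ^ n * D (algebraMap O K y) =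
      algebraMap O K z) (y : O) :
    ∃ z : O, D (algebraMap O K y) = algebraMap O K z := by
  have hϖK : algebraMap O K ϖ ≠ 0 := by
    rw [Ne, ← map_zero (algebraMap O K)]
    exact fun h => hϖ.ne_zero (IsFractionRing.injective O K h)
  induction n with
  | zero =>
    obtain ⟨z, hz⟩ := hb y
    exact ⟨z, by rw [← hz, pow_zero, one_mul]⟩
  | succ n ih =>
    apply ih
    intro y
    have h := derV (A := A) P hP hfrac hϖ (algebraMap O K ϖ ^ (n + 1) • D) (fun y => hb y)
      ht0 htm (by
        obtain ⟨z, hz⟩ := ht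
        refine ⟨ϖ ^ (n + 1) * z, ?_⟩
        rw [Derivation.smul_apply, hz, smul_eq_mul, map_mul, map_pow]
        ring) (by
        intro a
        obtain ⟨z, hz⟩ := hA a
        refine ⟨ϖ ^ n * z, ?_⟩
        rw [Derivation.smul_apply, hz, smul_eq_mul, map_mul, map_pow]
        ring) y
    obtain ⟨z, hz⟩ := h
    refine ⟨z, ?_⟩
    rw [Derivation.smul_apply, smul_eq_mul, pow_succ] at hz
    apply mul_left_cancel₀ hϖK
    rw [← hz]
    ring

omit [CharZero k] [Algebra k A] [Algebra k O] [IsScalarTower k O K] in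
/-- boundedness of the poles -/
theorem bounded [Module.Finite A R]
    (hfrac : ∀ y : O, ∃ s r : R, IsUnit (algebraMap R O s) ∧
      algebraMap R O s * y = algebraMap R O r)
    {ϖ : O} (hϖ : Irreducible ϖ) (D : Derivation k K K)
    (hA : ∀ a : A, ∃ z : O, D (algebraMap A K a) = algebraMap O K z) :
    ∃ n : ℕ, ∀ y : O, ∃ z : O, algebraMap O K ϖ ^ n * D (algebraMap O K y) =
      algebraMap O K z := by
  classical
  have key : ∀ x : K, ∃ n : ℕ, ∀ m, n ≤ m → ∃ z : O, algebraMap O K ϖ ^ m * x =
      algebraMap O K z := by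
    intro x
    obtain ⟨a, b, hb, rfl⟩ := IsFractionRing.div_surjective (A := O) x
    have hb0 : b ≠ 0 := nonZeroDivisors.ne_zero hb
    obtain ⟨n, u, hu⟩ := IsDiscreteValuationRing.eq_unit_mul_pow_irreducible hb0 hϖ
    refine ⟨n, fun m hm => ⟨ϖ ^ (m - n) * ((↑u⁻¹ : O) * a), ?_⟩⟩
    have hbK : algebraMap O K b ≠ 0 := by
      rw [Ne, ← map_zero (algebraMap O K)]
      exact fun h => hb0 (IsFractionRing.injective O K h)
    have h1 : ϖ ^ m * a = ϖ ^ (m - n) * ((↑u⁻¹ : O) * a) * b := by
      rw [hu]
      have h2 : ϖ ^ m = ϖ ^ (m - n) * ϖ ^ n := by rw [← pow_add, Nat.sub_add_cancel hm]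
      rw [h2]
      calc ϖ ^ (m - n) * ϖ ^ n * a = ϖ ^ (m - n) * ϖ ^ n * a * ((↑u⁻¹ : O) * u) := by
            rw [Units.inv_mul, mul_one]
        _ = _ := by ring
    rw [← mul_div_assoc, div_eq_iff hbK, ← map_pow, ← map_mul, ← map_mul, h1]
  obtain ⟨T, hT⟩ := Module.Finite.fg_top (R := A) (M := R)
  choose nn hnn using key
  let n := T.sup fun g => nn (D (algebraMap R K g))
  have hR : ∀ r : R, ∃ z : O, algebraMap O K ϖ ^ n * D (algebraMap R K r) = algebraMap O K z := by
    intro r
    have hr : r ∈ Submodule.span A (T : Set R) := by rw [hT]; trivial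
    induction hr using Submodule.span_induction with
    | mem g hg =>
      exact hnn _ n (Finset.le_sup (f := fun g => nn (D (algebraMap R K g))) hg)
    | zero => exact ⟨0, by simp⟩
    | add x y _ _ hx hy =>
      obtain ⟨z, hz⟩ := hx
      obtain ⟨z', hz'⟩ := hy
      exact ⟨z + z', by rw [map_add, map_add, mul_add, hz, hz', map_add]⟩
    | smul a x _ hx =>
      obtain ⟨z, hz⟩ := hx
      obtain ⟨z', hz'⟩ := hA a
      refine ⟨algebraMap R O (algebraMap A R a) * z + ϖ ^ n * (algebraMap R O x * z'), ?_⟩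
      rw [Algebra.smul_def, map_mul, Derivation.leibniz, ← IsScalarTower.algebraMap_apply A R K,
        hz', smul_eq_mul, smul_eq_mul, map_add, map_mul, ← IsScalarTower.algebraMap_apply R O K,
        ← IsScalarTower.algebraMap_apply A R K, ← hz, map_mul, map_pow, map_mul,
        ← IsScalarTower.algebraMap_apply R O K]
      ring
  refine ⟨n, fun y => ?_⟩
  obtain ⟨z, hz⟩ := lift_frac hfrac (algebraMap O K ϖ ^ n • D) 1 (fun r => by
    obtain ⟨z, hz⟩ := hR r
    exact ⟨z, by rw [one_mul, ← hz]; rfl⟩) y
  exact ⟨z, by rw [one_mul] at hz; rw [← hz]; rfl⟩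

omit [CharZero k] [Algebra k A] [IsDomain O] [IsDiscreteValuationRing O] [Algebra k O]
  [IsFractionRing O K] [IsScalarTower k O K] in
/-- a common denominator -/
theorem denom [Module.Finite A R] (P : Ideal R) [P.IsPrime]
    (hP : ∀ r : R, r ∈ P ↔ ¬ IsUnit (algebraMap R O r))
    (hfrac : ∀ y : O, ∃ s r : R, IsUnit (algebraMap R O s) ∧
      algebraMap R O s * y = algebraMap R O r)
    (E : Derivation k K K) (hE : ∀ y : R, ∃ z : O, E (algebraMap R K y) = algebraMap O K z)
    (hA : ∃ s, s ∉ P ∧ ∀ a : A, ∃ r : R, algebraMap R K s * E (algebraMap A K a) =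
      algebraMap R K r) :
    ∃ s, s ∉ P ∧ ∀ y : R, ∃ r : R, algebraMap R K s * E (algebraMap R K y) = algebraMap R K r := by
  classical
  obtain ⟨s0, hs0, hsA⟩ := hA
  have key : ∀ y : R, ∃ s, s ∉ P ∧ ∃ r : R, algebraMap R K s * E (algebraMap R K y) =
      algebraMap R K r := by
    intro y
    obtain ⟨z, hz⟩ := hE y
    obtain ⟨s, r, hs, hsr⟩ := hfrac z
    refine ⟨s, fun h => (hP s).1 h hs, r, ?_⟩
    rw [hz, IsScalarTower.algebraMap_apply R O K, IsScalarTower.algebraMap_apply R O K, ← map_mul,
      hsr]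
  obtain ⟨T, hT⟩ := Module.Finite.fg_top (R := A) (M := R)
  choose ss hss rr hrr using key
  have hprod : ∀ U : Finset R, (∏ g ∈ U, ss g) ∉ P := by
    intro U hU
    obtain ⟨g, _, hg⟩ := (Ideal.IsPrime.prod_mem_iff (p := P)).1 hU
    exact hss g hg
  refine ⟨s0 * ∏ g ∈ T, ss g, fun h => ((Ideal.IsPrime.mem_or_mem inferInstance h).elim hs0
    (hprod T)), fun y => ?_⟩
  have hy : y ∈ Submodule.span A (T : Set R) := by rw [hT]; trivial
  induction hy using Submodule.span_induction with
  | mem g hg =>
    refine ⟨s0 * (∏ x ∈ T.erase g, ss x) * rr g, ?_⟩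
    rw [← Finset.mul_prod_erase T _ hg, map_mul, map_mul, map_mul, map_mul, ← hrr g]
    ring
  | zero => exact ⟨0, by simp⟩
  | add x y _ _ hx hy =>
    obtain ⟨z, hz⟩ := hx
    obtain ⟨z', hz'⟩ := hy
    exact ⟨z + z', by rw [map_add, map_add, mul_add, hz, hz', map_add]⟩
  | smul a x _ hx =>
    obtain ⟨z, hz⟩ := hx
    obtain ⟨z', hz'⟩ := hsA a
    refine ⟨algebraMap A R a * z + (∏ g ∈ T, ss g) * x * z', ?_⟩
    rw [Algebra.smul_def, map_mul (algebraMap R K) (algebraMap A R a) x, Derivation.leibniz,
      ← IsScalarTower.algebraMap_apply A R K,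
      smul_eq_mul, smul_eq_mul, map_add, map_mul (algebraMap R K) (algebraMap A R a) z, ← hz,
      map_mul (algebraMap R K) _ z', ← hz', ← IsScalarTower.algebraMap_apply A R K]
    simp only [map_mul]
    ring

end log

/-! ### The local statement -/

section local_step

variable {k A R K : Type} [Field k] [CharZero k]
  [CommRing A] [IsDomain A] [IsNoetherianRing A] [Algebra k A]
  [CommRing R] [IsDomain R] [IsIntegrallyClosed R] [Algebra k R] [Algebra A R]
  [IsScalarTower k A R] [Module.Finite A R]
  [Field K] [Algebra R K] [IsFractionRing R K] [Algebra k K] [IsScalarTower k R K]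
  [Algebra A K] [IsScalarTower A R K]

theorem det_col {d : ℕ} {K : Type} [Field K] (a0 : Fin d) (c : K) (w : Fin d → K) :
    Matrix.det (Matrix.of fun b a : Fin d => if a = a0 then w b else if a = b then c else 0) =
      c ^ (d - 1) * w a0 := by
  have h : (Matrix.of fun b a : Fin d => if a = a0 then w b else if a = b then c else 0) =
      (c • (1 : Matrix (Fin d) (Fin d) K)).updateCol a0 w := by
    ext b a
    rw [Matrix.of_apply, Matrix.updateCol_apply]
    split_ifs with h1 h2
    · rfl
    · rw [h2]; simp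
    · rw [Matrix.smul_apply, Matrix.one_apply_ne (Ne.symm h2), smul_zero]
  rw [h, ← Matrix.cramer_apply, Matrix.cramer_eq_adjugate_mulVec, Matrix.adjugate_smul,
    Matrix.adjugate_one, Matrix.smul_mulVec, Matrix.one_mulVec, Pi.smul_apply, Fintype.card_fin,
    smul_eq_mul]

theorem local_step (hinj : Function.Injective (algebraMap A R))
    {d : ℕ} (B : Base k A d) (Fr : Frame k R K d)
    (hp : ∀ a y, Fr.p a (algebraMap A K y) = algebraMap A K (B.p a y))
    (f : K) (hf : f ∈ LL R (latt R Fr.p)) {t : A} (ht : Prime t) (P : Ideal R) [P.IsPrime]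
    (hP : P.comap (algebraMap A R) = Ideal.span {t}) :
    ∃ s, s ∉ P ∧ ∃ r ∈ P, algebraMap R K s * (algebraMap A K t * f) = algebraMap R K r := by
  classical
  have hNR : IsNoetherianRing R := isNoetherian_of_isNoetherianRing_of_finite A R |>
    isNoetherian_of_tower A
  let O := Localization.AtPrime P
  have hDVR : IsDiscreteValuationRing O := dvr_of_over ht hinj P hP
  have hu : ∀ y : P.primeCompl, IsUnit (algebraMap R K y) := by
    intro y
    apply IsUnit.mk0
    rw [Ne, ← map_zero (algebraMap R K)]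
    intro h
    have := IsFractionRing.injective R K h
    exact y.2 (this ▸ P.zero_mem)
  let lf : O →+* K := IsLocalization.lift (M := P.primeCompl) (S := O) hu
  let : Algebra O K := lf.toAlgebra
  have hT1 : IsScalarTower R O K := IsScalarTower.of_algebraMap_eq fun r =>
    (IsLocalization.lift_eq hu r).symm
  have : IsFractionRing O K :=
    IsFractionRing.isFractionRing_of_isDomain_of_isLocalization P.primeCompl O K
  have : IsScalarTower k O K := IsScalarTower.of_algebraMap_eq fun c => by
    rw [IsScalarTower.algebraMap_apply k R K, IsScalarTower.algebraMap_apply k R O,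
      ← IsScalarTower.algebraMap_apply R O K]
  have hPu : ∀ r : R, r ∈ P ↔ ¬ IsUnit (algebraMap R O r) := by
    intro r
    rw [IsLocalization.AtPrime.isUnit_to_map_iff O P r]
    exact not_not.symm
  have hfrac : ∀ y : O, ∃ s r : R, IsUnit (algebraMap R O s) ∧
      algebraMap R O s * y = algebraMap R O r := by
    intro y
    obtain ⟨⟨r, s⟩, h⟩ := IsLocalization.surj P.primeCompl y
    exact ⟨s, r, IsLocalization.map_units O s, by rw [mul_comm]; exact h⟩
  have hkR : IsScalarTower k A K := IsScalarTower.of_algebraMap_eq fun c => by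
    rw [IsScalarTower.algebraMap_apply k R K, IsScalarTower.algebraMap_apply k A R,
      ← IsScalarTower.algebraMap_apply A R K]
  obtain ⟨ϖ, hϖ⟩ := IsDiscreteValuationRing.exists_irreducible O
  have hϖK : algebraMap O K ϖ ≠ 0 := by
    rw [Ne, ← map_zero (algebraMap O K)]
    exact fun h => hϖ.ne_zero (IsFractionRing.injective O K h)
  obtain ⟨a0, ha0⟩ := B.sep t ht
  set tO : O := algebraMap R O (algebraMap A R t) with htO
  have htO0 : tO ≠ 0 := by
    intro h
    have h1 := IsLocalization.injective O P.primeCompl_le_nonZeroDivisors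
      (h.trans (map_zero (algebraMap R O)).symm)
    exact ht.ne_zero (hinj (h1.trans (map_zero _).symm))
  have htP : algebraMap A R t ∈ P := by
    have : t ∈ P.comap (algebraMap A R) := by rw [hP]; exact Ideal.mem_span_singleton_self t
    exact this
  have htOu : ¬ IsUnit tO := (hPu _).1 htP
  have htOK : algebraMap O K tO = algebraMap A K t := by
    rw [htO, ← IsScalarTower.algebraMap_apply R O K, ← IsScalarTower.algebraMap_apply A R K]
  -- the logarithmic derivations
  have hAO : ∀ a : A, algebraMap A K a = algebraMap O K (algebraMap R O (algebraMap A R a)) := by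
    intro a
    rw [← IsScalarTower.algebraMap_apply R O K, ← IsScalarTower.algebraMap_apply A R K]
  let D0 : Derivation k K K := algebraMap A K t • Fr.p a0
  have hD0A : ∀ a : A, D0 (algebraMap A K a) = algebraMap A K (t * B.p a0 a) := by
    intro a
    show algebraMap A K t • Fr.p a0 (algebraMap A K a) = _
    rw [hp, smul_eq_mul, map_mul]
  have hD0t : ∃ z : O, D0 (algebraMap O K tO) = algebraMap O K tO * algebraMap O K z := by
    refine ⟨algebraMap R O (algebraMap A R (B.p a0 t)), ?_⟩
    rw [htOK, hD0A, map_mul, ← hAO]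
  have hD0O : ∀ y : O, ∃ z : O, D0 (algebraMap O K y) = algebraMap O K z := by
    have hA0 : ∀ a : A, ∃ z : O, D0 (algebraMap A K a) = algebraMap O K z := fun a =>
      ⟨_, by rw [hD0A, hAO]⟩
    obtain ⟨n, hn⟩ := bounded hfrac hϖ D0 hA0
    exact derV2 P hPu hfrac hϖ D0 htO0 htOu hD0t hA0 n hn
  obtain ⟨t1, ht1⟩ : ϖ ∣ tO := by
    have h2 : tO ∈ maximalIdeal O := (mem_maximalIdeal _).2 htOu
    rw [(IsDiscreteValuationRing.irreducible_iff_uniformizer ϖ).1 hϖ] at h2
    exact Ideal.mem_span_singleton.1 h2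
  have hD0P : ∀ y : O, ∃ z : O, D0 (algebraMap O K y) = algebraMap O K ϖ * algebraMap O K z := by
    refine derV (A := A) P hPu hfrac hϖ D0 hD0O htO0 htOu hD0t (fun a => ?_)
    refine ⟨t1 * algebraMap R O (algebraMap A R (B.p a0 a)), ?_⟩
    rw [hD0A, map_mul, ← htOK, ht1, map_mul, map_mul, ← hAO]
    ring
  let Dl : Fin d → Derivation k K K := fun b =>
    algebraMap A K (B.p a0 t) • Fr.p b - algebraMap A K (B.p b t) • Fr.p a0
  have hDlA : ∀ b a, Dl b (algebraMap A K a) =
      algebraMap A K (B.p a0 t * B.p b a - B.p b t * B.p a0 a) := by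
    intro b a
    show algebraMap A K (B.p a0 t) • Fr.p b (algebraMap A K a) -
      algebraMap A K (B.p b t) • Fr.p a0 (algebraMap A K a) = _
    rw [hp, hp, smul_eq_mul, smul_eq_mul, map_sub, map_mul, map_mul]
  have hDlO : ∀ b (y : O), ∃ z : O, Dl b (algebraMap O K y) = algebraMap O K z := by
    intro b
    have hA0 : ∀ a : A, ∃ z : O, Dl b (algebraMap A K a) = algebraMap O K z := fun a =>
      ⟨_, by rw [hDlA, hAO]⟩
    obtain ⟨n, hn⟩ := bounded hfrac hϖ (Dl b) hA0
    refine derV2 P hPu hfrac hϖ (Dl b) htO0 htOu ⟨0, ?_⟩ hA0 n hn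
    rw [htOK, hDlA, map_zero, mul_zero, mul_comm (B.p b t), sub_self, map_zero]
  -- the vectors
  let w : Fin d → K := fun b => if b = a0 then algebraMap O K t1 else - algebraMap A K (B.p b t)
  let v : Fin d → Fin d → K := fun b a => if a = a0 then w b else
    if a = b then algebraMap A K (B.p a0 t) else 0
  let E : Fin d → Derivation k K K := fun b => if b = a0 then algebraMap O K t1 • Fr.p a0 else Dl b
  have hvE : ∀ b (y : K), ∑ a, v b a * Fr.p a y = E b y := by
    intro b y
    by_cases hb : b = a0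
    · rw [Finset.sum_eq_single a0]
      · simp only [v, w, E, hb, if_true]
        rfl
      · intro a _ ha
        simp only [v, hb, if_neg ha, zero_mul]
      · intro h
        exact (h (Finset.mem_univ _)).elim
    · have h1 : ∑ a, v b a * Fr.p a y = v b a0 * Fr.p a0 y + v b b * Fr.p b y := by
        rw [← Finset.sum_subset (s₁ := {a0, b}) (Finset.subset_univ _)]
        · rw [Finset.sum_pair (Ne.symm hb)]
        · intro a _ ha
          simp only [Finset.mem_insert, Finset.mem_singleton, not_or] at ha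
          simp only [v, if_neg ha.1, if_neg ha.2, zero_mul]
      rw [h1]
      simp only [v, w, E, if_true, if_neg hb, Dl]
      rw [Derivation.sub_apply, Derivation.smul_apply, Derivation.smul_apply, smul_eq_mul,
        smul_eq_mul]
      ring
  have hEO : ∀ b (y : R), ∃ z : O, E b (algebraMap R K y) = algebraMap O K z := by
    intro b y
    by_cases hb : b = a0
    · obtain ⟨z, hz⟩ := hD0P (algebraMap R O y)
      refine ⟨z, ?_⟩
      rw [← IsScalarTower.algebraMap_apply R O K] at hz
      have h1 : algebraMap O K ϖ * E b (algebraMap R K y) = D0 (algebraMap R K y) := by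
        simp only [E, if_pos hb]
        show algebraMap O K ϖ * (algebraMap O K t1 • Fr.p a0 (algebraMap R K y)) =
          algebraMap A K t • Fr.p a0 (algebraMap R K y)
        rw [← htOK, ht1, map_mul, smul_eq_mul, smul_eq_mul]
        ring
      exact mul_left_cancel₀ hϖK (h1.trans hz)
    · obtain ⟨z, hz⟩ := hDlO b (algebraMap R O y)
      rw [← IsScalarTower.algebraMap_apply R O K] at hz
      refine ⟨z, ?_⟩
      simp only [E, if_neg hb]
      exact hz
  have hEA : ∀ b, ∃ s, s ∉ P ∧ ∀ a : A, ∃ r : R, algebraMap R K s * E b (algebraMap A K a) =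
      algebraMap R K r := by
    intro b
    by_cases hb : b = a0
    · obtain ⟨s, r, hs, hsr⟩ := hfrac t1
      refine ⟨s, fun h => (hPu s).1 h hs, fun a => ⟨r * algebraMap A R (B.p a0 a), ?_⟩⟩
      simp only [E, if_pos hb]
      rw [Derivation.smul_apply, hp, smul_eq_mul, map_mul, ← mul_assoc,
        ← IsScalarTower.algebraMap_apply A R K, IsScalarTower.algebraMap_apply R O K, ← map_mul,
        hsr, ← IsScalarTower.algebraMap_apply R O K]
    · refine ⟨1, fun h => (inferInstance : P.IsPrime).ne_top ((Ideal.eq_top_iff_one _).2 h),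
        fun a => ⟨algebraMap A R (B.p a0 t * B.p b a - B.p b t * B.p a0 a), ?_⟩⟩
      simp only [E, if_neg hb]
      rw [hDlA, map_one, one_mul, ← IsScalarTower.algebraMap_apply A R K]
  have hden : ∀ b, ∃ s, s ∉ P ∧ ∀ y : R, ∃ r : R,
      algebraMap R K s * E b (algebraMap R K y) = algebraMap R K r := fun b =>
    denom (A := A) P hPu hfrac (E b) (hEO b) (hEA b)
  choose ss hss hsE using hden
  obtain ⟨r, hr⟩ := hf (fun b a => algebraMap R K (ss b) * v b a) (by
    intro b y
    obtain ⟨r, hr⟩ := hsE b y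
    refine ⟨r, ?_⟩
    rw [← hr, ← hvE, Finset.mul_sum]
    exact Finset.sum_congr rfl fun a _ => by ring)
  have hdet : Matrix.det (Matrix.of fun b a => algebraMap R K (ss b) * v b a) =
      (∏ b, algebraMap R K (ss b)) * (algebraMap A K (B.p a0 t) ^ (d - 1) *
        algebraMap O K t1) := by
    have h1 := Matrix.det_mul_column (fun b => algebraMap R K (ss b)) (Matrix.of v)
    have h2 : Matrix.det (Matrix.of v) = algebraMap A K (B.p a0 t) ^ (d - 1) *
        algebraMap O K t1 := by
      have h3 := det_col a0 (algebraMap A K (B.p a0 t)) w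
      have h4 : w a0 = algebraMap O K t1 := if_pos rfl
      rw [h4] at h3
      exact h3
    rw [← h2]
    exact h1
  have hcP : algebraMap A R (B.p a0 t) ∉ P := by
    intro h
    have h1 : B.p a0 t ∈ P.comap (algebraMap A R) := h
    rw [hP] at h1
    exact ha0 (Ideal.mem_span_singleton.1 h1)
  set S : R := (∏ b, ss b) * algebraMap A R (B.p a0 t) ^ (d - 1) with hS
  have hSP : S ∉ P := by
    intro h
    rcases Ideal.IsPrime.mem_or_mem inferInstance h with h | h
    · obtain ⟨b, _, hb⟩ := (Ideal.IsPrime.prod_mem_iff (p := P)).1 h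
      exact hss b hb
    · exact hcP (Ideal.IsPrime.mem_of_pow_mem inferInstance _ h)
  have hSK : algebraMap R K S * (algebraMap A K t * f) = algebraMap O K (ϖ * algebraMap R O r) := by
    rw [map_mul (algebraMap O K), ← IsScalarTower.algebraMap_apply R O K, hr]
    have e : algebraMap R K S = (∏ b, algebraMap R K (ss b)) *
        algebraMap A K (B.p a0 t) ^ (d - 1) := by
      rw [hS, map_mul, map_prod, map_pow, ← IsScalarTower.algebraMap_apply A R K]
    rw [hdet, e, ← htOK, ht1, map_mul]
    ring
  obtain ⟨s', r', hs', hsr'⟩ := hfrac (ϖ * algebraMap R O r)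
  refine ⟨s' * S, fun h => ?_, r', ?_, ?_⟩
  · rcases Ideal.IsPrime.mem_or_mem inferInstance h with h | h
    · exact (hPu _).1 h hs'
    · exact hSP h
  · rw [hPu, ← hsr']
    intro h
    have h1 := isUnit_of_mul_isUnit_left (isUnit_of_mul_isUnit_right h)
    exact hϖ.not_isUnit h1
  · rw [map_mul, mul_assoc, hSK, IsScalarTower.algebraMap_apply R O K, ← map_mul, hsr',
      ← IsScalarTower.algebraMap_apply R O K]

end local_step

/-! ### Traces of elements which are nilpotent modulo a prime -/

section final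

variable {k A L R K : Type} [Field k] [CharZero k]
    [CommRing A] [IsDomain A] [UniqueFactorizationMonoid A] [IsNoetherianRing A] [Algebra k A]
    [Field L] [Algebra A L] [IsFractionRing A L]
    [CommRing R] [IsDomain R] [IsIntegrallyClosed R] [Algebra k R] [Algebra A R]
    [IsScalarTower k A R] [Module.Finite A R]
    [Field K] [Algebra R K] [IsFractionRing R K] [Algebra k K] [IsScalarTower k R K]
    [Algebra A K] [IsScalarTower A R K] [Algebra L K] [IsScalarTower A L K]

theorem trace_dvd (hinj : Function.Injective (algebraMap A R)) {t : A} (ht : Prime t)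
    (hL : CharZero L) (z r : R) (N : ℕ) (hz : z ^ (N + 1) = algebraMap A R t * r) :
    ∃ a : A, t ∣ a ∧ algebraMap A L a = Algebra.trace L K (algebraMap R K z) := by
  classical
  have hF : FaithfulSMul A R := (faithfulSMul_iff_algebraMap_injective A R).2 hinj
  have hfin : Module.Finite L K := Module.Finite.of_isLocalization A R (nonZeroDivisors A)
  have hsep : Algebra.IsSeparable L K := Algebra.IsAlgebraic.isSeparable_of_perfectField
  let E := AlgebraicClosure L
  let Ob := integralClosure A E
  have hinjO : Function.Injective (algebraMap A Ob) := by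
    have h1 : Function.Injective (algebraMap A E) := by
      rw [IsScalarTower.algebraMap_eq A L E]
      exact (algebraMap L E).injective.comp (IsFractionRing.injective A L)
    intro a b hab
    apply h1
    have := congrArg (algebraMap Ob E) hab
    rwa [← IsScalarTower.algebraMap_apply, ← IsScalarTower.algebraMap_apply] at this
  have htp : (Ideal.span {t}).IsPrime := (Ideal.span_singleton_prime ht.ne_zero).2 ht
  obtain ⟨Q, _, hQ, hQt⟩ := Ideal.exists_ideal_over_prime_of_isIntegral (R := A) (S := Ob)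
    (Ideal.span {t}) ⊥ (by
      intro a ha
      rw [Ideal.mem_comap, Ideal.mem_bot, ← map_zero (algebraMap A Ob)] at ha
      rw [hinjO ha]
      exact Ideal.zero_mem _)
  have htQ : algebraMap A Ob t ∈ Q := by
    have : t ∈ Q.comap (algebraMap A Ob) := by rw [hQt]; exact Ideal.mem_span_singleton_self t
    exact this
  have hint : ∀ (σ : K →ₐ[L] E) (x : R), IsIntegral A (σ (algebraMap R K x)) := by
    intro σ x
    have h1 : IsIntegral A (algebraMap R K x) :=
      (Algebra.IsIntegral.isIntegral (R := A) x).algebraMap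
    exact h1.map (σ.restrictScalars A)
  have hmem : ∀ σ : K →ₐ[L] E, (⟨σ (algebraMap R K z), hint σ z⟩ : Ob) ∈ Q := by
    intro σ
    have h1 : (⟨σ (algebraMap R K z), hint σ z⟩ : Ob) ^ (N + 1) =
        algebraMap A Ob t * ⟨σ (algebraMap R K r), hint σ r⟩ := by
      apply Subtype.ext
      show σ (algebraMap R K z) ^ (N + 1) = algebraMap A E t * σ (algebraMap R K r)
      rw [← map_pow, ← map_pow, hz, map_mul, map_mul, ← IsScalarTower.algebraMap_apply A R K,
        IsScalarTower.algebraMap_apply A L K, AlgHom.commutes,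
        ← IsScalarTower.algebraMap_apply A L E]
    have h2 : (⟨σ (algebraMap R K z), hint σ z⟩ : Ob) ^ (N + 1) ∈ Q := by
      rw [h1]
      exact Q.mul_mem_right _ htQ
    exact hQ.mem_of_pow_mem _ h2
  have hsum : (∑ σ : K →ₐ[L] E, (⟨σ (algebraMap R K z), hint σ z⟩ : Ob)) ∈ Q :=
    Q.sum_mem fun σ _ => hmem σ
  have hIC : IsIntegrallyClosed A := inferInstance
  have htr : IsIntegral A (Algebra.trace L K (algebraMap R K z)) :=
    Algebra.isIntegral_trace (Algebra.IsIntegral.isIntegral (R := A) z).algebraMap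
  obtain ⟨a, ha⟩ := (IsIntegrallyClosed.isIntegral_iff (R := A) (K := L)).1 htr
  refine ⟨a, ?_, ha⟩
  rw [← Ideal.mem_span_singleton, ← hQt, Ideal.mem_comap]
  have h3 : algebraMap A Ob a = ∑ σ : K →ₐ[L] E, (⟨σ (algebraMap R K z), hint σ z⟩ : Ob) := by
    apply Subtype.ext
    have h4 : ((∑ σ : K →ₐ[L] E, (⟨σ (algebraMap R K z), hint σ z⟩ : Ob) : Ob) : E) =
        ∑ σ : K →ₐ[L] E, σ (algebraMap R K z) := by
      rw [AddSubmonoidClass.coe_finsetSum]
    rw [h4, ← trace_eq_sum_embeddings E, ← ha, ← IsScalarTower.algebraMap_apply A L E]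
    rfl
  rw [h3]
  exact hsum

theorem trace_step (hinj : Function.Injective (algebraMap A R))
    {d : ℕ} (B : Base k A d) (Fr : Frame k R K d)
    (hp : ∀ a y, Fr.p a (algebraMap A K y) = algebraMap A K (B.p a y))
    (hL : CharZero L)
    (f : K) (hf : f ∈ LL R (latt R Fr.p)) {t : A} (ht : Prime t) :
    ∃ s : A, ¬ t ∣ s ∧ ∃ a : A, algebraMap A L a = algebraMap A L s * Algebra.trace L K f := by
  classical
  have htp : (Ideal.span {t}).IsPrime := (Ideal.span_singleton_prime ht.ne_zero).2 ht
  -- a denominator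
  let G : Ideal R :=
    { carrier := {g | ∃ r : R, algebraMap R K g * (algebraMap A K t * f) = algebraMap R K r}
      add_mem' := by
        rintro g g' ⟨r, hr⟩ ⟨r', hr'⟩
        exact ⟨r + r', by rw [map_add, map_add, add_mul, hr, hr']⟩
      zero_mem' := ⟨0, by simp⟩
      smul_mem' := by
        rintro c g ⟨r, hr⟩
        exact ⟨c * r, by rw [smul_eq_mul, map_mul, map_mul, mul_assoc, hr]⟩ }
  have hG : ∃ s1 : A, ¬ t ∣ s1 ∧ algebraMap A R s1 ∈ G := by
    by_contra hcon
    simp only [not_exists, not_and] at hcon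
    obtain ⟨P, hPG, hPp, hP⟩ := Ideal.exists_ideal_over_prime_of_isIntegral (R := A) (S := R)
      (Ideal.span {t}) G (by
        intro a ha
        rw [Ideal.mem_comap] at ha
        rw [Ideal.mem_span_singleton]
        by_contra h
        exact hcon a h ha)
    obtain ⟨s, hs, r, _, hr⟩ := local_step hinj B Fr hp f hf ht P hP
    exact hs (hPG ⟨r, hr⟩)
  obtain ⟨s1, hs1, z1, hz1⟩ := hG
  have hz1P : ∀ P : Ideal R, P.IsPrime → P.comap (algebraMap A R) = Ideal.span {t} → z1 ∈ P := by
    intro P hPp hP
    obtain ⟨s, hs, r, hrP, hr⟩ := local_step hinj B Fr hp f hf ht P hP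
    have h1 : s * z1 = algebraMap A R s1 * r := by
      apply IsFractionRing.injective R K
      rw [map_mul, map_mul, ← hz1, ← hr]
      ring
    have h2 : s * z1 ∈ P := by
      rw [h1]; exact P.mul_mem_left _ hrP
    exact (hPp.mem_or_mem h2).resolve_left hs
  -- nilpotence
  let M : Submonoid R :=
    { carrier := {m | ∃ (s : A) (N : ℕ), ¬ t ∣ s ∧ m = algebraMap A R s * z1 ^ N}
      one_mem' := ⟨1, 0, fun h => ht.not_isUnit (isUnit_of_dvd_one h), by simp⟩
      mul_mem' := by
        rintro m m' ⟨s, N, hs, rfl⟩ ⟨s', N', hs', rfl⟩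
        refine ⟨s * s', N + N', fun h => ?_, ?_⟩
        · rcases ht.dvd_or_dvd h with h | h
          · exact hs h
          · exact hs' h
        · rw [map_mul, pow_add]; ring }
  have hM : ∃ (s2 : A) (N : ℕ) (r : R), ¬ t ∣ s2 ∧
      algebraMap A R s2 * z1 ^ N = algebraMap A R t * r := by
    by_contra hcon
    obtain ⟨P, hPp, hPt, hPM⟩ := Ideal.exists_le_prime_disjoint
      (Ideal.span {algebraMap A R t}) M (by
        rw [Set.disjoint_left]
        rintro m hm ⟨s, N, hs, rfl⟩
        obtain ⟨r, hr⟩ := Ideal.mem_span_singleton.1 hm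
        exact hcon ⟨s, N, r, hs, hr⟩)
    rw [Set.disjoint_left] at hPM
    have hP : P.comap (algebraMap A R) = Ideal.span {t} := by
      apply le_antisymm
      · intro a ha
        rw [Ideal.mem_span_singleton]
        by_contra h
        exact hPM ha ⟨a, 0, h, by simp⟩
      · rw [Ideal.span_singleton_le_iff_mem]
        exact hPt (Ideal.mem_span_singleton_self _)
    exact hPM (hz1P P hPp hP) ⟨1, 1, fun h => ht.not_isUnit (isUnit_of_dvd_one h), by simp⟩
  obtain ⟨s2, N, r, hs2, hr⟩ := hM
  have hz : (algebraMap A R s2 * z1) ^ (N + 1) = algebraMap A R t *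
      (r * (z1 * algebraMap A R s2 ^ N)) := by
    calc (algebraMap A R s2 * z1) ^ (N + 1) = (algebraMap A R s2 * z1 ^ N) *
          (z1 * algebraMap A R s2 ^ N) := by ring
      _ = _ := by rw [hr]; ring
  obtain ⟨a, ⟨b, rfl⟩, ha⟩ := trace_dvd (L := L) (K := K) hinj ht hL _ _ N hz
  refine ⟨s2 * s1, fun h => ?_, b, ?_⟩
  · rcases ht.dvd_or_dvd h with h | h
    · exact hs2 h
    · exact hs1 h
  · have h1 : algebraMap R K (algebraMap A R s2 * z1) =
        algebraMap A L (s2 * s1 * t) • f := by
      rw [map_mul, ← hz1, Algebra.smul_def, ← IsScalarTower.algebraMap_apply A L K,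
        ← IsScalarTower.algebraMap_apply A R K, ← IsScalarTower.algebraMap_apply A R K, map_mul,
        map_mul]
      ring
    rw [h1, LinearMap.map_smul, smul_eq_mul] at ha
    have htL : algebraMap A L t ≠ 0 := by
      rw [Ne, ← map_zero (algebraMap A L)]
      exact fun h => ht.ne_zero (IsFractionRing.injective A L h)
    apply mul_left_cancel₀ htL
    rw [← map_mul, ha]
    simp only [map_mul]
    ring

theorem trace_mem_aux
    (hinj : Function.Injective (algebraMap A R))
    {d : ℕ} (B : Base k A d) (Fr : Frame k R K d)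
    (hp : ∀ a y, Fr.p a (algebraMap A K y) = algebraMap A K (B.p a y))
    (f : K) (hf : f ∈ LL R (latt R Fr.p)) :
    ∃ a : A, algebraMap A L a = Algebra.trace L K f := by
  classical
  have hkL : CharZero L := by
    have h1 : Function.Injective ((algebraMap A L).comp (algebraMap k A)) := RingHom.injective _
    refine ⟨fun m n h => ?_⟩
    have h2 : ((algebraMap A L).comp (algebraMap k A)) (m : k) =
        ((algebraMap A L).comp (algebraMap k A)) (n : k) := by
      rw [map_natCast, map_natCast, h]
    exact Nat.cast_injective (h1 h2)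
  obtain ⟨a, b, hab, hx'⟩ := IsFractionRing.exists_reduced_fraction A (Algebra.trace L K f)
  have hmk : Algebra.trace L K f * algebraMap A L b = algebraMap A L a := by
    rw [← hx']; exact IsLocalization.mk'_spec L a b
  by_cases hb : IsUnit (b : A)
  · obtain ⟨u, hu⟩ := hb
    refine ⟨a * ↑u⁻¹, ?_⟩
    rw [map_mul, ← hmk, ← hu, mul_assoc, ← map_mul, Units.mul_inv, map_one, mul_one]
  · exfalso
    have hb0 : (b : A) ≠ 0 := nonZeroDivisors.ne_zero b.2
    obtain ⟨t, ht, htb⟩ := WfDvdMonoid.exists_irreducible_factor hb hb0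
    have htp : Prime t := ht.prime
    obtain ⟨s, hs, c, hc⟩ := trace_step (L := L) hinj B Fr hp hkL f hf htp
    have h1 : s * a = c * b := by
      apply IsFractionRing.injective A L
      rw [map_mul, map_mul, hc, ← hmk]
      ring
    have h2 : t ∣ s * a := by
      rw [h1]; exact htb.mul_left c
    rcases htp.dvd_or_dvd h2 with h | h
    · exact hs h
    · exact htp.not_isUnit (hab h htb)

end final

theorem trace_mem {k A L R K : Type} [Field k] [CharZero k]
    [CommRing A] [IsDomain A] [UniqueFactorizationMonoid A] [IsNoetherianRing A] [Algebra k A]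
    [Field L] [Algebra A L] [IsFractionRing A L]
    [CommRing R] [IsDomain R] [IsIntegrallyClosed R] [Algebra k R] [Algebra A R]
    [IsScalarTower k A R] [Module.Finite A R]
    [Field K] [Algebra R K] [IsFractionRing R K] [Algebra k K] [IsScalarTower k R K]
    [Algebra A K] [IsScalarTower A R K] [Algebra L K] [IsScalarTower A L K]
    (hinj : Function.Injective (algebraMap A R))
    {d : ℕ} (B : Base k A d) (Fr : Frame k R K d)
    (hx : ∀ a, algebraMap A R (B.x a) = Fr.x a)
    (hp : ∀ a y, Fr.p a (algebraMap A K y) = algebraMap A K (B.p a y))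
    (f : K) (hf : f ∈ LL R (latt R Fr.p)) :
    ∃ a : A, algebraMap A L a = Algebra.trace L K f :=
  have _ := hx
  trace_mem_aux hinj B Fr hp f hf

end Pool.Agent.HVG
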