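import Pool.Agent.HVG.Lift
import Pool.Agent.HVG.Res2
import Pool.Agent.HVG.Det
import Pool.Agent.HVG.TraceInt
import Pool.Agent.HVG.Exact
import Pool.Agent.HVG.Pair
import Pool.Agent.HVG.Latt
import Pool.Agent.HVG.Noether
import Pool.Agent.HVG.Frame

/-! The Euler derivation lies in the maximal ideal times the module of derivations. -/

set_option autoImplicit false

namespace Pool.Agent.HVG

open TensorProduct Module Pool.Agent.HV

/-- a functional which is `1` at an element outside `m M` -/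
theorem exists_q {R M : Type} [CommRing R] [IsLocalRing R] [AddCommGroup M] [Module R M] (e : M)
    (he : e ∉ IsLocalRing.maximalIdeal R • (⊤ : Submodule R M)) :
    ∃ q : M →ₗ[R] (R ⧸ IsLocalRing.maximalIdeal R), q e = 1 := by
  set m := IsLocalRing.maximalIdeal R
  let _ : Field (R ⧸ m) := Ideal.Quotient.field m
  have h0 : (Submodule.Quotient.mk e : M ⧸ (m • (⊤ : Submodule R M))) ≠ 0 := by
    intro h
    exact he ((Submodule.Quotient.mk_eq_zero _).1 h)
  obtain ⟨f, hf⟩ := Module.Projective.exists_dual_eq_one (R ⧸ m) h0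
  refine ⟨{ toFun := fun x => f (Submodule.Quotient.mk x)
            map_add' := fun x y => by rw [Submodule.Quotient.mk_add, map_add]
            map_smul' := fun c x => ?_ }, hf⟩
  have h1 : (Submodule.Quotient.mk (c • x) : M ⧸ (m • (⊤ : Submodule R M))) =
      (Ideal.Quotient.mk m c) • Submodule.Quotient.mk x := rfl
  rw [h1, map_smul]
  rfl

section Y

variable {k R K : Type} [Field k] [CharZero k] [CommRing R] [IsDomain R] [IsLocalRing R]
  [Algebra k R] [Field K] [Algebra R K] [IsFractionRing R K] [Algebra k K] [IsScalarTower k R K]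
  {n d : ℕ} (Q : QH k R n) (Fr : Frame k R K d)
  (eK : Fin d → K)
  (heK : ∀ r : R, ∑ a, eK a * Fr.p a (algebraMap R K r) = algebraMap R K (Q.e r))
  {M : Type} [AddCommGroup M] [Module R M] (F : SeqRes R M)

/-- lifting of a linear map along contraction -/
theorem exists_lift_con {r0 : ℕ} (C : Submodule R (Om k K d)) (b : (Fin r0 → R) →ₗ[R] Om k K d)
    (hb : ∀ f, ∃ ζ ∈ C, con eK ζ = b f) :
    ∃ t : (Fin r0 → R) →ₗ[R] Om k K d, (∀ f, t f ∈ C) ∧ ∀ f, con eK (t f) = b f := by
  choose z hz hz' using hb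
  let B := Pi.basisFun R (Fin r0)
  refine ⟨B.constr R fun i => z (B i), fun f => ?_, fun f => ?_⟩
  · rw [Basis.constr_apply]
    exact Submodule.sum_mem C fun i _ => C.smul_mem _ (hz _)
  · have key : (con eK).restrictScalars R ∘ₗ (B.constr R fun i => z (B i)) = b := by
      refine B.ext fun i => ?_
      show con eK ((B.constr R fun i => z (B i)) (B i)) = b (B i)
      rw [Basis.constr_basis, hz']
    exact LinearMap.congr_fun key f

include heK in
theorem exists_Y (Y0 : (Fin (F.r 0) → R) →ₗ[R] R)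
    (hY0 : ∀ f, Y0 (F.φ 0 f) ∈ IsLocalRing.maximalIdeal R) :
    ∃ Y : ∀ j, (Fin (F.r j) → R) →ₗ[R] Om k K d, (∀ f, Y 0 f = Y0 f • (1 : Om k K d)) ∧
      (∀ j f, Y j f ∈ CC Fr.p Q.y j) ∧ ∀ j f, con eK (Y (j + 1) f) = Y j (F.φ j f) := by
  let S : ℕ → Type := fun j => {Y : (Fin (F.r j) → R) →ₗ[R] Om k K d //
    (∀ f, Y f ∈ CC Fr.p Q.y j) ∧ ∀ f, ∃ ζ ∈ CC Fr.p Q.y (j + 1), con eK ζ = Y (F.φ j f)}
  have hstep : ∀ j (Y : S j), ∃ Y' : S (j + 1), ∀ f, con eK (Y'.1 f) = Y.1 (F.φ j f) := by
    intro j Y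
    obtain ⟨t, ht, ht'⟩ := exists_lift_con eK (CC Fr.p Q.y (j + 1)) (Y.1 ∘ₗ F.φ j) Y.2.2
    refine ⟨⟨t, ht, fun f => ?_⟩, ht'⟩
    refine exact_CC Q Fr eK heK j (t (F.φ (j + 1) f)) (ht _) ?_
    rw [ht', LinearMap.comp_apply, phi_phi, map_zero]
  choose st hst using hstep
  let y0 : S 0 := ⟨(LinearMap.toSpanSingleton R (Om k K d) 1) ∘ₗ Y0, fun f =>
    (CC Fr.p Q.y 0).smul_mem _ (Submodule.subset_span rfl), fun f =>
    exact_CC_zero Q Fr eK heK _ (hY0 f)⟩
  let sq : ∀ j, S j := fun j => Nat.rec (motive := S) y0 (fun j Y => st j Y) j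
  exact ⟨fun j => (sq j).1, fun f => rfl, fun j f => (sq j).2.1 f, fun j f => hst j (sq j) f⟩

end Y

section

variable {k R K : Type} [Field k] [CommRing R]
  [Algebra k R] [Field K] [Algebra R K] [Algebra k K] [IsScalarTower k R K] {d : ℕ}

theorem dK_eq (p : Fin d → Derivation k K K) (y : K) :
    dK p y = ∑ a, (p a y) • ((1 : K) ⊗ₜ[k] ExteriorAlgebra.ι k (Pi.single a (1 : k))) := by
  unfold dK
  refine Finset.sum_congr rfl fun a _ => ?_
  rw [TensorProduct.smul_tmul', smul_eq_mul, mul_one]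

theorem dK_x (Fr : Frame k R K d) (a : Fin d) :
    dK Fr.p (algebraMap R K (Fr.x a)) = (1 : K) ⊗ₜ[k] ExteriorAlgebra.ι k (Pi.single a (1 : k)) := by
  rw [dK_eq, Finset.sum_eq_single a]
  · rw [Fr.px, if_pos rfl, one_smul]
  · intro b _ hb
    rw [Fr.px, if_neg hb, zero_smul]
  · intro h
    exact (h (Finset.mem_univ a)).elim

/-- the vector of `σ(η)` -/
noncomputable def sig (Fr : Frame k R K d) (δ : K) : Om k K d →ₗ[K] (Fin d → K) :=
  LinearMap.pi fun a => δ • (top k K d ∘ₗ
    LinearMap.mulLeft K (dK Fr.p (algebraMap R K (Fr.x a)) : Om k K d))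

theorem sig_apply (Fr : Frame k R K d) (δ : K) (η : Om k K d) (a : Fin d) :
    sig Fr δ η a = δ * top k K d (dK Fr.p (algebraMap R K (Fr.x a)) * η) := rfl

theorem sig_sum (Fr : Frame k R K d) (δ : K) (η : Om k K d) (y : K) :
    ∑ a, sig Fr δ η a * Fr.p a y = δ * top k K d (dK Fr.p y * η) := by
  rw [dK_eq, Finset.sum_mul, map_sum, Finset.mul_sum]
  refine Finset.sum_congr rfl fun a _ => ?_
  rw [sig_apply, dK_x, smul_mul_assoc, map_smul, smul_eq_mul]
  ring

theorem sig_con (Fr : Frame k R K d) (δ : K) (v : Fin d → K) (η : Om k K d) (a : Fin d) :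
    sig Fr δ (con v η) a = v a * (δ * top k K d η) := by
  rw [sig_apply]
  have h := con_dK_mul Fr.p v (algebraMap R K (Fr.x a)) η
  have h1 : ∑ b, v b * Fr.p b (algebraMap R K (Fr.x a)) = v a := by
    rw [Finset.sum_eq_single a]
    · rw [Fr.px, if_pos rfl, mul_one]
    · intro b _ hb
      rw [Fr.px, if_neg hb, mul_zero]
    · intro h
      exact (h (Finset.mem_univ a)).elim
  rw [h1] at h
  have h2 : dK Fr.p (algebraMap R K (Fr.x a)) * con v η =
      v a • η - con v (dK Fr.p (algebraMap R K (Fr.x a)) * η) := by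
    rw [h]
    abel
  rw [h2, map_sub, map_smul, top_con, sub_zero, smul_eq_mul]
  ring

end

section Core

variable {k R K : Type} [Field k] [CharZero k] [CommRing R] [IsDomain R] [IsLocalRing R]
  [Algebra k R] [Field K] [Algebra R K] [IsFractionRing R K] [Algebra k K] [IsScalarTower k R K]
  {n d : ℕ}

theorem dK_mem_Ctot (p : Fin d → Derivation k K K) (r : R) :
    dK p (algebraMap R K r) ∈ Ctot (R := R) p := Algebra.subset_adjoin ⟨r, rfl⟩

theorem core (Q : QH k R n) (Fr : Frame k R K d) (δ : K)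
    (hδ : ∀ f : K, f ∈ LL R (latt R Fr.p) ↔ ∃ r : R, algebraMap R K r = f * δ)
    (F : SeqRes R (Derivation k R R))
    (hne : Q.e ∉ IsLocalRing.maximalIdeal R • (⊤ : Submodule R (Derivation k R R))) :
    ∃ (z : R) (τ : Fin d → R), IsUnit z ∧
      δ * algebraMap R K z = ∑ a, algebraMap R K (Q.e (Fr.x a)) * algebraMap R K (τ a) := by
  classical
  set eK : Fin d → K := fun a => algebraMap R K (Q.e (Fr.x a)) with heKdef
  have heK : ∀ r : R, ∑ a, eK a * Fr.p a (algebraMap R K r) = algebraMap R K (Q.e r) :=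
    exists_ext Fr Q.e
  have hinj : Function.Injective (algebraMap R K) := IsFractionRing.injective R K
  obtain ⟨q, hq⟩ := exists_q Q.e hne
  -- the map `Y0`
  obtain ⟨et, het⟩ := F.surj Q.e
  have hY0' : ∃ Y0 : (Fin (F.r 0) → R) →ₗ[R] R, ∀ f,
      Ideal.Quotient.mk (IsLocalRing.maximalIdeal R) (Y0 f) = q (F.ε f) := by
    choose z hz using fun i => Ideal.Quotient.mk_surjective
      (I := IsLocalRing.maximalIdeal R) (q (F.ε (Pi.basisFun R (Fin (F.r 0)) i)))
    refine ⟨(Pi.basisFun R (Fin (F.r 0))).constr R z, fun f => ?_⟩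
    have key : (Submodule.mkQ (IsLocalRing.maximalIdeal R)) ∘ₗ
        ((Pi.basisFun R (Fin (F.r 0))).constr R z) = q ∘ₗ F.ε := by
      refine (Pi.basisFun R (Fin (F.r 0))).ext fun i => ?_
      show Ideal.Quotient.mk _ (((Pi.basisFun R (Fin (F.r 0))).constr R z)
        (Pi.basisFun R (Fin (F.r 0)) i)) = _
      rw [Basis.constr_basis, hz]
      rfl
    exact LinearMap.congr_fun key f
  obtain ⟨Y0, hY0⟩ := hY0'
  have hz : IsUnit (Y0 et) := by
    by_contra h
    have h1 : Y0 et ∈ IsLocalRing.maximalIdeal R := (IsLocalRing.mem_maximalIdeal _).2 h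
    have h2 := hY0 et
    rw [Ideal.Quotient.eq_zero_iff_mem.2 h1, het, hq] at h2
    exact zero_ne_one h2
  have hY0m : ∀ f, Y0 (F.φ 0 f) ∈ IsLocalRing.maximalIdeal R := by
    intro f
    rw [← Ideal.Quotient.eq_zero_iff_mem, hY0, eps_phi, map_zero]
  obtain ⟨Y, hYz, hYm, hYc⟩ := exists_Y Q Fr eK heK F Y0 hY0m
  -- membership in the algebra of forms
  have hmem : ∀ j (l : R ⊗[k] Lam k d) f, toOm (K := K) R l * Y j f ∈ Ctot (R := R) Fr.p :=
    fun j l f => (Ctot (R := R) Fr.p).mul_mem (toOm_mem_Ctot Fr l)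
      (CC_le_Ctot Q Fr j _ (hYm j f))
  have htop : ∀ η ∈ Ctot (R := R) Fr.p, ∃ r : R, algebraMap R K r = δ * top k K d η := by
    intro η hη
    obtain ⟨r, hr⟩ := (hδ _).1 (top_mem_LL Fr η hη)
    exact ⟨r, by rw [hr, mul_comm]⟩
  obtain ⟨E, hE⟩ := exists_lattEquiv Fr
  let h : Derivation k R R →ₗ[R] (Fin d → K) := (latt R Fr.p).subtype ∘ₗ E.toLinearMap
  have hh : ∀ D a, h D a = algebraMap R K (D (Fr.x a)) := hE
  have hhinj : Function.Injective h := fun D D' hD => E.injective (Subtype.ext hD)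
  have hhr : ∀ v ∈ latt R Fr.p, v ∈ LinearMap.range h := by
    intro v hv
    refine ⟨E.symm ⟨v, hv⟩, ?_⟩
    show ((E (E.symm ⟨v, hv⟩) : latt R Fr.p) : Fin d → K) = v
    rw [LinearEquiv.apply_symm_apply]
  have hsig : ∀ η ∈ Ctot (R := R) Fr.p, sig Fr δ η ∈ latt R Fr.p := by
    intro η hη y
    rw [sig_sum]
    exact htop _ ((Ctot (R := R) Fr.p).mul_mem (dK_mem_Ctot Fr.p y) hη)
  -- bilinear maps
  let bG : ∀ j, (R ⊗[k] Lam k d) →ₗ[R] (Fin (F.r j) → R) →ₗ[R] (Fin d → K) := fun j =>
    LinearMap.mk₂ R (fun l f => sig Fr δ (toOm (K := K) R l * Y j f))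
      (fun l l' f => by rw [map_add, add_mul, map_add])
      (fun c l f => by rw [map_smul, smul_mul_assoc, LinearMap.map_smul_of_tower])
      (fun l f f' => by rw [map_add, mul_add, map_add])
      (fun c l f => by rw [map_smul, mul_smul_comm, LinearMap.map_smul_of_tower])
  let bg : ∀ j, (R ⊗[k] Lam k d) →ₗ[R] (Fin (F.r j) → R) →ₗ[R] K := fun j =>
    LinearMap.mk₂ R (fun l f => (δ • top k K d) (toOm (K := K) R l * Y j f))
      (fun l l' f => by rw [map_add, add_mul, map_add])
      (fun c l f => by rw [map_smul, smul_mul_assoc, LinearMap.map_smul_of_tower])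
      (fun l f f' => by rw [map_add, mul_add, map_add])
      (fun c l f => by rw [map_smul, mul_smul_comm, LinearMap.map_smul_of_tower])
  have hbG : ∀ j l f, bG j l f = sig Fr δ (toOm (K := K) R l * Y j f) := fun j l f => rfl
  have hbg : ∀ j l f, bg j l f = δ * top k K d (toOm (K := K) R l * Y j f) := fun j l f => rfl
  choose G hG using fun j => exists_lift_bilin h (bG j) (fun l f => hhr _ (hsig _ (hmem j l f)))
  choose g hg using fun j => exists_lift_bilin (Algebra.linearMap R K) (bg j)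
    (fun l f => htop _ (hmem j l f))
  have hg' : ∀ j l f, algebraMap R K (g j l f) = δ * top k K d (toOm (K := K) R l * Y j f) :=
    fun j l f => hg j l f
  have hG' : ∀ j l f, h (G j l f) = sig Fr δ (toOm (K := K) R l * Y j f) := fun j l f => hG j l f
  set ι : (R ⊗[k] Lam k d) →ₗ[R] (R ⊗[k] Lam k d) := conR (fun a => Q.e (Fr.x a)) with hι
  have hιO : ∀ l, toOm (K := K) R (ι l) = con eK (toOm (K := K) R l) := fun l => toOm_conR R _ l
  have hiO : ∀ l, toOm (K := K) R (invR k d R l) = inv k K d (toOm (K := K) R l) :=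
    fun l => toOm_invR R l
  have hcon0 : ∀ l f, con eK (toOm (K := K) R l * Y 0 f) = toOm (K := K) R (ι l) * Y 0 f := by
    intro l f
    rw [con_mul, hιO, hYz]
    have : con eK (Y0 f • (1 : Om k K d)) = 0 := by
      rw [LinearMap.map_smul_of_tower, con_one, smul_zero]
    rw [this, mul_zero, add_zero]
  have hcon : ∀ j l f, con eK (toOm (K := K) R l * Y (j + 1) f) =
      toOm (K := K) R (ι l) * Y (j + 1) f + toOm (K := K) R (invR k d R l) * Y j (F.φ j f) := by
    intro j l f
    rw [con_mul, hιO, hiO, hYc]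
  obtain ⟨u, σ, hσ, hu1, hu2⟩ := exists_u (k := k) (d := d)
  obtain ⟨τ, hτ⟩ := trace_lemma F ι (invR k d R)
    (fun l => conR_conR R _ l) (fun l => conR_invR R _ l)
    ((1 : R) ⊗ₜ[k] u) (algebraMap k R σ) (by rw [← map_mul, hσ, map_one])
    (by
      show (1 : R) ⊗ₜ[k] (CliffordAlgebra.involute (Q := (0 : QuadraticForm k (Fin d → k))) u) = _
      rw [hu2, TensorProduct.tmul_smul, algebraMap_smul])
    Q.e et het G g
    (by
      intro l f
      apply hhinj
      funext a
      rw [hG', ← hcon0, sig_con, map_smul, Pi.smul_apply, hh, Algebra.smul_def, hg']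
      ring)
    (by
      intro j l f
      apply hhinj
      funext a
      rw [map_add, hG', hG', ← map_add, ← hcon, sig_con, map_smul, Pi.smul_apply, hh,
        Algebra.smul_def, hg']
      ring)
    (by
      intro l f
      apply hinj
      rw [hg', ← hcon0, top_con, mul_zero, map_zero])
    (by
      intro j l f
      apply hinj
      rw [map_add, hg', hg', ← mul_add, ← map_add, ← hcon, top_con, mul_zero, map_zero])
  refine ⟨Y0 et, fun a => τ ((iop k a).baseChange R ((1 : R) ⊗ₜ[k] u)), hz, ?_⟩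
  have h1 : algebraMap R K (g 0 ((1 : R) ⊗ₜ[k] u) et) = δ * algebraMap R K (Y0 et) := by
    rw [hg', hYz, mul_smul_comm, mul_one, LinearMap.map_smul_of_tower]
    have h2 : top k K d (toOm (K := K) R ((1 : R) ⊗ₜ[k] u)) = 1 := by
      show (TensorProduct.AlgebraTensorModule.rid k K K)
        ((topE k d).baseChange K ((algebraMap R K 1) ⊗ₜ[k] u)) = 1
      rw [LinearMap.baseChange_tmul, hu1, TensorProduct.AlgebraTensorModule.rid_tmul, one_smul,
        map_one]
    rw [h2, Algebra.smul_def, mul_one]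
  rw [← h1, hτ]
  have h3 : ι ((1 : R) ⊗ₜ[k] u) =
      ∑ a, Q.e (Fr.x a) • (iop k a).baseChange R ((1 : R) ⊗ₜ[k] u) := by
    rw [hι]
    unfold conR
    rw [LinearMap.sum_apply]
    rfl
  rw [h3, map_sum, map_sum]
  refine Finset.sum_congr rfl fun a _ => ?_
  rw [map_smul, smul_eq_mul, map_mul]

end Core

/-- the contradiction, for a finite extension of a base ring -/
theorem contra {k A L R K : Type} [Field k] [CharZero k]
    [CommRing A] [IsDomain A] [UniqueFactorizationMonoid A] [IsNoetherianRing A] [Algebra k A]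
    [Field L] [Algebra A L] [IsFractionRing A L]
    [CommRing R] [IsDomain R] [IsLocalRing R] [IsIntegrallyClosed R] [IsNoetherianRing R]
    [Algebra k R] [Algebra A R] [IsScalarTower k A R] [Module.Finite A R]
    [Field K] [Algebra R K] [IsFractionRing R K] [Algebra k K] [IsScalarTower k R K]
    [Algebra A K] [IsScalarTower A R K] [Algebra L K] [IsScalarTower A L K]
    (hinj : Function.Injective (algebraMap A R))
    {d : ℕ} (B : Base k A d) (Fr : Frame k R K d)
    (hFx : ∀ a, algebraMap A R (B.x a) = Fr.x a)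
    (hFp : ∀ a y, Fr.p a (algebraMap A K y) = algebraMap A K (B.p a y))
    {n : ℕ} (Q : QH k R n) {m : ℕ} (hres : FFR R m (Derivation k R R))
    (N : ℕ) (hex : ∀ a, Q.e (Fr.x a) = N • Fr.x a) :
    Q.e ∈ IsLocalRing.maximalIdeal R • (⊤ : Submodule R (Derivation k R R)) := by
  classical
  by_contra hne
  obtain ⟨E, -⟩ := exists_lattEquiv (R := R) (K := K) Fr
  obtain ⟨δ, hδ0, hδ⟩ := det_lattice (R := R) (K := K) (latt R Fr.p) (latt_fg Fr)
    (latt_span Fr B hFp) (FFR.equiv E hres)
  obtain ⟨F⟩ := seqRes_of_ffr hres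
  obtain ⟨z, τ, hz, hτ⟩ := core Q Fr δ hδ F hne
  obtain ⟨z', hz'⟩ := hz.exists_right_inv
  -- the elements `f_a`
  set f : Fin d → K := fun a => algebraMap R K ((N : R) * τ a * z') * δ⁻¹ with hfdef
  have hf : ∀ a, f a ∈ LL R (latt R Fr.p) := fun a =>
    (hδ _).2 ⟨(N : R) * τ a * z', by
      show _ = algebraMap R K ((N : R) * τ a * z') * δ⁻¹ * δ
      rw [inv_mul_cancel_right₀ hδ0]⟩
  have h1 : (1 : K) = ∑ a, algebraMap R K (Fr.x a) * f a := by
    have h2 : δ * algebraMap R K z * algebraMap R K z' = δ := by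
      rw [mul_assoc, ← map_mul, hz', map_one, mul_one]
    have h3 : (1 : K) = δ⁻¹ * (δ * algebraMap R K z * algebraMap R K z') := by
      rw [h2, inv_mul_cancel₀ hδ0]
    rw [h3, hτ, Finset.sum_mul, Finset.mul_sum]
    refine Finset.sum_congr rfl fun a _ => ?_
    show _ = algebraMap R K (Fr.x a) * (algebraMap R K ((N : R) * τ a * z') * δ⁻¹)
    rw [hex a, nsmul_eq_mul]
    simp only [map_mul]
    ring
  choose c hc using fun a => trace_mem (k := k) (A := A) (L := L) (R := R) (K := K) hinj B Fr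
    hFx hFp (f a) (hf a)
  have hbx : ∀ a, algebraMap R K (Fr.x a) = algebraMap L K (algebraMap A L (B.x a)) := by
    intro a
    rw [← IsScalarTower.algebraMap_apply A L K, ← hFx a,
      ← IsScalarTower.algebraMap_apply A R K]
  have h4 : algebraMap A L (∑ a, B.x a * c a) = (Module.finrank L K : L) := by
    have h5 : Algebra.trace L K (1 : K) = (Module.finrank L K : L) := by
      have := Algebra.trace_algebraMap (R := L) (S := K) (1 : L)
      rw [map_one, nsmul_eq_mul, mul_one] at this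
      exact this
    rw [← h5, h1, map_sum, map_sum]
    refine Finset.sum_congr rfl fun a _ => ?_
    rw [hbx, ← Algebra.smul_def, map_smul, map_mul, smul_eq_mul, hc]
  have h6 : ∑ a, B.x a * c a = (Module.finrank L K : A) := by
    apply IsFractionRing.injective A L
    rw [h4, map_natCast]
  have hfinLK : Module.Finite L K := by
    have : FaithfulSMul A R := (faithfulSMul_iff_algebraMap_injective A R).2 hinj
    exact Module.Finite.of_isLocalization A R (nonZeroDivisors A)
  have h7 : (Module.finrank L K : k) ≠ 0 := by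
    rw [Nat.cast_ne_zero]
    exact (Module.finrank_pos (R := L) (M := K)).ne'
  have h8 : IsUnit (Module.finrank L K : A) := by
    have := (IsUnit.mk0 _ h7).map (algebraMap k A)
    rwa [map_natCast] at this
  apply B.ne_top
  rw [← h6] at h8
  refine Ideal.eq_top_of_isUnit_mem _ ?_ h8
  refine Ideal.sum_mem _ fun a _ => ?_
  rw [mul_comm]
  exact Ideal.mul_mem_left _ _ (Ideal.subset_span ⟨a, rfl⟩)

theorem contra2 {k A R K : Type} [Field k] [CharZero k]
    [CommRing A] [IsDomain A] [UniqueFactorizationMonoid A] [IsNoetherianRing A] [Algebra k A]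
    [CommRing R] [IsDomain R] [IsLocalRing R] [IsIntegrallyClosed R] [IsNoetherianRing R]
    [Algebra k R] [Algebra A R] [IsScalarTower k A R] [Module.Finite A R]
    [Field K] [Algebra R K] [IsFractionRing R K] [Algebra k K] [IsScalarTower k R K]
    [Algebra A K] [IsScalarTower A R K]
    (hinj : Function.Injective (algebraMap A R))
    {d : ℕ} (B : Base k A d) (Fr : Frame k R K d)
    (hFx : ∀ a, algebraMap A R (B.x a) = Fr.x a)
    (hFp : ∀ a y, Fr.p a (algebraMap A K y) = algebraMap A K (B.p a y))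
    {n : ℕ} (Q : QH k R n) {m : ℕ} (hres : FFR R m (Derivation k R R))
    (N : ℕ) (hex : ∀ a, Q.e (Fr.x a) = N • Fr.x a) :
    Q.e ∈ IsLocalRing.maximalIdeal R • (⊤ : Submodule R (Derivation k R R)) := by
  have hinjK : Function.Injective (algebraMap A K) := by
    rw [IsScalarTower.algebraMap_eq A R K]
    exact (IsFractionRing.injective R K).comp hinj
  have : FaithfulSMul A K := (faithfulSMul_iff_algebraMap_injective _ _).2 hinjK
  let _ : Algebra (FractionRing A) K := FractionRing.liftAlgebra A K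
  have _ : IsScalarTower A (FractionRing A) K := FractionRing.isScalarTower_liftAlgebra A K
  exact contra (k := k) (A := A) (L := FractionRing A) (R := R)
    (K := K) hinj B Fr hFx hFp Q hres N hex

theorem mem_of_res {k R : Type} [Field k] [CharZero k] [CommRing R] [IsDomain R]
    [IsNoetherianRing R] [IsIntegrallyClosed R] [IsLocalRing R] [Algebra k R] {n : ℕ}
    (Q : QH k R n) {m : ℕ} (hres : FFR R m (Derivation k R R)) :
    Q.e ∈ IsLocalRing.maximalIdeal R • (⊤ : Submodule R (Derivation k R R)) := by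
  obtain ⟨d, x, N, hN, hxi, hex, hxm, hint, hnil⟩ := exists_noether Q
  obtain ⟨_, _, hfin, hinj, halg⟩ := exists_model Q x hxi hxm hint hnil
  obtain ⟨B, hB⟩ := exists_base k d
  obtain ⟨Fr, hFx, hFp⟩ := exists_frame (k := k) (A := MA k d) (R := R) (K := FractionRing R)
    hinj B (by
    intro D hD
    have hkAK : IsScalarTower k (MA k d) (FractionRing R) :=
      IsScalarTower.of_algebraMap_eq fun c => by
        rw [IsScalarTower.algebraMap_apply k R (FractionRing R),
          IsScalarTower.algebraMap_apply k (MA k d) R,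
          ← IsScalarTower.algebraMap_apply (MA k d) R (FractionRing R)]
    refine base_uniq D fun a => ?_
    rw [← hB a]
    exact hD a)
  have hdom : IsDomain (MA k d) :=
    IsLocalization.isDomain_localization (Ideal.primeCompl_le_nonZeroDivisors _)
  have hufd : UniqueFactorizationMonoid (MA k d) := inferInstance
  have hnoe : IsNoetherianRing (MA k d) := inferInstance
  refine contra2 (k := k) (A := MA k d) (R := R)
    (K := FractionRing R) hinj B Fr hFx hFp Q hres N fun a => ?_
  have hx : Fr.x a = x a := by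
    rw [← hFx a, hB a]
    exact halg a
  rw [hx, hex]

end Pool.Agent.HVG
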