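import Pool.Agent.HVG.Defs

/-!
Definitions shared by several modules: `toOm`, `conR`, `invR`, `CC`, `Ctot`.
-/

set_option autoImplicit false

namespace Pool.Agent.HVG

open TensorProduct Module Pool.Agent.HV

section A

variable {k K : Type} [Field k] [Field K] [Algebra k K] {d : ℕ}

variable (R : Type) [CommRing R] [Algebra k R] [Algebra R K] [IsScalarTower k R K]

/-- forms with constant coefficients -/
noncomputable def toOm : (R ⊗[k] Lam k d) →ₗ[R] Om k K d :=
  TensorProduct.AlgebraTensorModule.map (Algebra.linearMap R K) (LinearMap.id : Lam k d →ₗ[k] Lam k d)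

/-- contraction -/
noncomputable def conR {R : Type} [CommRing R] [Algebra k R] (c : Fin d → R) :
    (R ⊗[k] Lam k d) →ₗ[R] (R ⊗[k] Lam k d) := ∑ a, c a • (iop k a).baseChange R

/-- grade involution -/
noncomputable def invR (k : Type) [Field k] (d : ℕ) (R : Type) [CommRing R] [Algebra k R] :
    (R ⊗[k] Lam k d) →ₗ[R] (R ⊗[k] Lam k d) :=
  (CliffordAlgebra.involute (Q := (0 : QuadraticForm k (Fin d → k)))).toLinearMap.baseChange R

end A

/-- the `R`-module of `j`-forms generated by the differentials of the `y_i` -/
noncomputable def CC {k R K : Type} [Field k] [CommRing R] [Field K] [Algebra k R] [Algebra R K]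
    [Algebra k K] [IsScalarTower k R K] {d n : ℕ}
    (p : Fin d → Derivation k K K) (y : Fin n → R) : ℕ → Submodule R (Om k K d)
  | 0 => Submodule.span R {1}
  | j + 1 => Submodule.span R
      {z | ∃ (i : Fin n) (η : Om k K d), η ∈ CC p y j ∧ z = dK p (algebraMap R K (y i)) * η}

/-- all forms generated by the differentials of elements of `R` -/
noncomputable def Ctot {k R K : Type} [Field k] [CommRing R] [Field K] [Algebra k R] [Algebra R K]
    [Algebra k K] [IsScalarTower k R K] {d : ℕ} (p : Fin d → Derivation k K K) :
    Subalgebra R (Om k K d) :=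
  Algebra.adjoin R {z | ∃ r : R, z = dK p (algebraMap R K r)}

end Pool.Agent.HVG
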