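import Mathlib

/-!
A local ring whose maximal ideal is generated by elements `z_j` with dual derivations
(`D_i z_j = δ_{ij}`) is regular (characteristic zero).
-/

set_option autoImplicit false

namespace Pool.Agent.HVG

open Module

/-- an element of the maximal ideal of a Noetherian local ring which has derivative one is not a
zero divisor -/
theorem nzd_of_der {k R : Type} [Field k] [CharZero k] [CommRing R] [IsNoetherianRing R]
    [IsLocalRing R] [Algebra k R] (D : Derivation k R R) (y : R)
    (hy : y ∈ IsLocalRing.maximalIdeal R) (h : D y = 1) : y ∈ nonZeroDivisors R := by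
  rw [mem_nonZeroDivisors_iff_right]
  intro a ha
  have key : ∀ n : ℕ, y ^ (n + 1) * (⇑D)^[n] a = 0 ∧ ∃ b, a = y ^ n * b := by
    have main : ∀ n : ℕ, y ^ (n + 1) * (⇑D)^[n] a = 0 ∧ ∃ c : k, a = c • (y ^ n * (⇑D)^[n] a) := by
      intro n
      induction n with
      | zero =>
        refine ⟨?_, 1, ?_⟩
        · rw [Function.iterate_zero, id, zero_add, pow_one, mul_comm]
          exact ha
        · rw [one_smul, pow_zero, one_mul, Function.iterate_zero, id]
      | succ n ih =>
        obtain ⟨ih1, c, ih2⟩ := ih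
        have h1 := congrArg D ih1
        rw [Derivation.leibniz, Derivation.leibniz_pow, h, map_zero, Nat.add_sub_cancel] at h1
        have h2 : y ^ (n + 1) * (⇑D)^[n + 1] a + ((n + 1 : ℕ) : R) * (y ^ n * (⇑D)^[n] a) = 0 := by
          rw [Function.iterate_succ_apply', ← h1]
          simp only [smul_eq_mul, nsmul_eq_mul, mul_one]
          ring
        refine ⟨?_, -(c * ((n + 1 : ℕ) : k)⁻¹), ?_⟩
        · have h3 := congrArg (fun t => y * t) h2
          simp only [mul_zero, mul_add] at h3
          have h4 : y * (((n + 1 : ℕ) : R) * (y ^ n * (⇑D)^[n] a)) =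
              ((n + 1 : ℕ) : R) * (y ^ (n + 1) * (⇑D)^[n] a) := by ring
          rw [h4, ih1, mul_zero, add_zero] at h3
          rw [← h3]
          ring
        · have h5 : y ^ (n + 1) * (⇑D)^[n + 1] a = - (((n + 1 : ℕ) : k) • (y ^ n * (⇑D)^[n] a)) := by
            rw [eq_neg_iff_add_eq_zero, ← h2, Algebra.smul_def, map_natCast]
          rw [h5, smul_neg, neg_smul, neg_neg, smul_smul, mul_assoc,
            inv_mul_cancel₀ (by exact_mod_cast Nat.succ_ne_zero n), mul_one]
          exact ih2
    intro n
    obtain ⟨h1, c, h2⟩ := main n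
    refine ⟨h1, c • (⇑D)^[n] a, ?_⟩
    rw [mul_smul_comm]
    exact h2
  have hmem : ∀ n : ℕ, a ∈ IsLocalRing.maximalIdeal R ^ n := by
    intro n
    obtain ⟨-, b, hb⟩ := key n
    rw [hb]
    exact Ideal.mul_mem_right _ _ (Ideal.pow_mem_pow hy n)
  have hinf : a ∈ (⨅ n : ℕ, IsLocalRing.maximalIdeal R ^ n : Ideal R) := by
    rw [Ideal.mem_iInf]
    exact hmem
  rwa [Ideal.iInf_pow_eq_bot_of_isLocalRing _ (IsLocalRing.maximalIdeal.isMaximal R).ne_top] at hinf

/-- the dimension is at least the number of coordinates -/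
theorem le_dim_of_der {k : Type} [Field k] [CharZero k] : ∀ (r : ℕ) (R : Type) [CommRing R]
    [IsNoetherianRing R] [IsLocalRing R] [Algebra k R] (z : Fin r → R)
    (D : Fin r → Derivation k R R), (∀ i, z i ∈ IsLocalRing.maximalIdeal R) →
    (∀ i j, D i (z j) = if i = j then 1 else 0) → (r : WithBot ℕ∞) ≤ ringKrullDim R := by
  intro r
  induction r with
  | zero =>
    intro R _ _ _ _ z D _ _
    exact_mod_cast ringKrullDim_nonneg_of_nontrivial
  | succ r ih =>
    intro R _ _ _ _ z D hz hD
    set t := z (Fin.last r) with ht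
    have htm : t ∈ IsLocalRing.maximalIdeal R := hz _
    have hnz : t ∈ nonZeroDivisors R := nzd_of_der (D (Fin.last r)) t htm (by
      rw [ht, hD, if_pos rfl])
    have hne : Ideal.span {t} ≠ ⊤ := by
      rw [Ne, Ideal.span_singleton_eq_top]
      exact (IsLocalRing.mem_maximalIdeal _).1 htm
    have _ : Nontrivial (R ⧸ Ideal.span {t}) := Ideal.Quotient.nontrivial_iff.2 hne
    have hloc : IsLocalRing (R ⧸ Ideal.span {t}) :=
      IsLocalRing.of_surjective' (Ideal.Quotient.mk _) Ideal.Quotient.mk_surjective
    let f : R →ₐ[k] (R ⧸ Ideal.span {t}) := Ideal.Quotient.mkₐ k _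
    have hf : Function.Surjective f := Ideal.Quotient.mk_surjective
    have hlift : ∀ i : Fin r, ∀ x : R, f x = 0 → f (D i.castSucc x) = 0 := by
      intro i x hx
      have hx' : x ∈ Ideal.span {t} := Ideal.Quotient.eq_zero_iff_mem.1 hx
      obtain ⟨y, rfl⟩ := Ideal.mem_span_singleton.1 hx'
      refine Ideal.Quotient.eq_zero_iff_mem.2 ?_
      rw [Derivation.leibniz, ht, hD, if_neg (Fin.castSucc_lt_last i).ne, smul_zero, add_zero,
        smul_eq_mul]
      exact Ideal.mul_mem_right _ _ (Ideal.mem_span_singleton_self _)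
    have h1 := ih (R ⧸ Ideal.span {t}) (fun i => f (z i.castSucc))
      (fun i => Derivation.liftOfSurjective hf (hlift i)) (by
        intro i
        rw [IsLocalRing.mem_maximalIdeal, mem_nonunits_iff]
        intro hu
        have hl : IsLocalHom (Ideal.Quotient.mk (Ideal.span {t})) :=
          IsLocalHom.of_surjective _ Ideal.Quotient.mk_surjective
        exact (IsLocalRing.mem_maximalIdeal _).1 (hz i.castSucc)
          (IsUnit.of_map (Ideal.Quotient.mk (Ideal.span {t})) _ hu)) (by
        intro i j
        rw [Derivation.liftOfSurjective_apply, hD]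
        by_cases hij : i = j
        · rw [if_pos hij, if_pos (by rw [hij]), map_one]
        · rw [if_neg hij, if_neg (fun h => hij (Fin.castSucc_injective _ h)), map_zero])
    have h2 := ringKrullDim_quotient_succ_le_of_nonZeroDivisor hnz
    refine le_trans ?_ h2
    push_cast
    gcongr

theorem regular_of_coord {k R : Type} [Field k] [CharZero k] [CommRing R] [IsNoetherianRing R]
    [IsLocalRing R] [Algebra k R] {r : ℕ} (z : Fin r → R) (D : Fin r → Derivation k R R)
    (hz : IsLocalRing.maximalIdeal R = Ideal.span (Set.range z))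
    (hD : ∀ i j, D i (z j) = if i = j then 1 else 0) : IsRegularLocalRing R := by
  apply IsRegularLocalRing.of_spanFinrank_maximalIdeal_le
  have h1 : (IsLocalRing.maximalIdeal R).spanFinrank ≤ r := by
    rw [hz]
    refine (Submodule.spanFinrank_span_le_ncard_of_finite (Set.finite_range _)).trans ?_
    rw [← Set.image_univ]
    refine (Set.ncard_image_le Set.finite_univ).trans ?_
    rw [Set.ncard_univ, Nat.card_eq_fintype_card, Fintype.card_fin]
  have h2 := le_dim_of_der r R z D (fun i => by
    rw [hz]; exact Ideal.subset_span ⟨i, rfl⟩) hD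
  exact le_trans (by exact_mod_cast h1) h2

end Pool.Agent.HVG
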