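import Pool.Agent.HVG.Defs
import Pool.Agent.HVG.Regular

/-!
Module F: if the Euler derivation lies in `m • Der(R)` then `Der(R)` is free.
-/

set_option autoImplicit false

namespace Pool.Agent.HVG

open TensorProduct Module Pool.Agent.HV

theorem der_ext_QH {k R : Type} [Field k] [CommRing R] [IsLocalRing R] [Algebra k R] {n : ℕ}
    (Q : QH k R n) (D : Derivation k R R) (h : ∀ i, D (Q.y i) = 0) : D = 0 := by
  have h1 : ∀ a ∈ Algebra.adjoin k (Set.range Q.y), D a = 0 := by
    intro a ha
    have := Derivation.eqOn_adjoin (D1 := D) (D2 := 0) (s := Set.range Q.y) (by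
      rintro _ ⟨i, rfl⟩
      rw [h i]
      rfl) ha
    rw [this]
    rfl
  ext r
  obtain ⟨a, ha, b, hb, hbu, hab⟩ := Q.frac r
  have h2 := congrArg D hab
  rw [Derivation.leibniz, h1 a ha, h1 b hb, smul_zero, zero_add, smul_eq_mul] at h2
  rw [Derivation.zero_apply]
  exact (hbu.mul_right_eq_zero).1 h2

/-- evaluation of derivations on the generators -/
noncomputable def evY {k R : Type} [Field k] [CommRing R] [Algebra k R] {ι : Type}
    (y : ι → R) : Derivation k R R →ₗ[R] (ι → R) where
  toFun := fun D i => D (y i)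
  map_add' := fun _ _ => rfl
  map_smul' := fun _ _ => rfl

theorem der_finite_QH {k R : Type} [Field k] [CommRing R] [IsLocalRing R] [IsNoetherianRing R]
    [Algebra k R] {n : ℕ} (Q : QH k R n) : Module.Finite R (Derivation k R R) := by
  refine Module.Finite.of_injective (evY (k := k) Q.y) ?_
  rw [← LinearMap.ker_eq_bot, LinearMap.ker_eq_bot']
  intro D hD
  exact der_ext_QH Q D (fun i => congrFun hD i)

theorem residue_adjoin {k R : Type} [Field k] [CommRing R] [IsLocalRing R] [Algebra k R] {n : ℕ}
    (Q : QH k R n) (a : R) (ha : a ∈ Algebra.adjoin k (Set.range Q.y)) :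
    ∃ c : k, a - algebraMap k R c ∈ IsLocalRing.maximalIdeal R := by
  induction ha using Algebra.adjoin_induction with
  | mem z hz =>
    obtain ⟨i, rfl⟩ := hz
    refine ⟨0, ?_⟩
    rw [map_zero, sub_zero, Q.max]
    exact Ideal.subset_span ⟨i, rfl⟩
  | algebraMap c => exact ⟨c, by rw [sub_self]; exact Ideal.zero_mem _⟩
  | add a b _ _ iha ihb =>
    obtain ⟨α, h1⟩ := iha
    obtain ⟨β, h2⟩ := ihb
    refine ⟨α + β, ?_⟩
    have h3 := Ideal.add_mem _ h1 h2
    rw [map_add]
    convert h3 using 1
    ring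
  | mul a b _ _ iha ihb =>
    obtain ⟨α, h1⟩ := iha
    obtain ⟨β, h2⟩ := ihb
    refine ⟨α * β, ?_⟩
    have h3 := Ideal.add_mem _ (Ideal.mul_mem_right b _ h1)
      (Ideal.mul_mem_left _ (algebraMap k R α) h2)
    rw [map_mul]
    convert h3 using 1
    ring

theorem residue_QH {k R : Type} [Field k] [CommRing R] [IsLocalRing R] [Algebra k R] {n : ℕ}
    (Q : QH k R n) (r : R) : ∃ c : k, r - algebraMap k R c ∈ IsLocalRing.maximalIdeal R := by
  obtain ⟨a, ha, b, hb, hbu, hab⟩ := Q.frac r
  obtain ⟨α, h1⟩ := residue_adjoin Q a ha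
  obtain ⟨β, h2⟩ := residue_adjoin Q b hb
  have hβ : β ≠ 0 := by
    rintro rfl
    rw [map_zero, sub_zero] at h2
    exact (IsLocalRing.mem_maximalIdeal _).1 h2 hbu
  refine ⟨α / β, ?_⟩
  have h3 : (r - algebraMap k R (α / β)) * b ∈ IsLocalRing.maximalIdeal R := by
    have h4 : (r - algebraMap k R (α / β)) * b =
        (a - algebraMap k R α) - algebraMap k R (α / β) * (b - algebraMap k R β) := by
      have h5 : algebraMap k R α = algebraMap k R (α / β) * algebraMap k R β := by
        rw [← map_mul, div_mul_cancel₀ _ hβ]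
      rw [sub_mul, hab, h5]
      ring
    rw [h4]
    exact Ideal.sub_mem _ h1 (Ideal.mul_mem_left _ _ h2)
  exact (Ideal.IsPrime.mem_or_mem inferInstance h3).resolve_right
    (fun h => (IsLocalRing.mem_maximalIdeal _).1 h hbu)

/-- evaluation at a minimal generating set is bijective on derivations -/
theorem exists_bij {k R : Type} [Field k] [CharZero k] [CommRing R] [IsNoetherianRing R]
    [IsLocalRing R] [Algebra k R] {n : ℕ} (Q : QH k R n)
    (he : Q.e ∈ IsLocalRing.maximalIdeal R • (⊤ : Submodule R (Derivation k R R))) :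
    ∃ T : Finset (Fin n), Ideal.span (Q.y '' (T : Set (Fin n))) = IsLocalRing.maximalIdeal R ∧
      Function.Bijective (evY (k := k) (fun j : T => Q.y j)) := by
  classical
  have hjac : IsLocalRing.maximalIdeal R ≤ Ideal.jacobson (⊥ : Ideal R) :=
    IsLocalRing.maximalIdeal_le_jacobson _
  have hymem : ∀ i, Q.y i ∈ IsLocalRing.maximalIdeal R := fun i => by
    rw [Q.max]
    exact Ideal.subset_span ⟨i, rfl⟩
  -- a minimal generating set
  obtain ⟨T, hT, hmin⟩ := Finset.exists_min_image
    ((Finset.univ : Finset (Finset (Fin n))).filter fun T : Finset (Fin n) =>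
      Ideal.span (Q.y '' (T : Set (Fin n))) = IsLocalRing.maximalIdeal R) Finset.card
    ⟨Finset.univ, by
      rw [Finset.mem_filter]
      refine ⟨Finset.mem_univ _, ?_⟩
      rw [Finset.coe_univ, Set.image_univ, ← Q.max]⟩
  rw [Finset.mem_filter] at hT
  have hT := hT.2
  -- linear independence modulo `m ^ 2`
  have hind : ∀ c : Fin n → k, (∑ j ∈ T, algebraMap k R (c j) * Q.y j) ∈
      IsLocalRing.maximalIdeal R • IsLocalRing.maximalIdeal R → ∀ j ∈ T, c j = 0 := by
    intro c hc j hj
    by_contra hcj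
    have h1 : Ideal.span (Q.y '' ((T.erase j : Finset (Fin n)) : Set (Fin n))) =
        IsLocalRing.maximalIdeal R := by
      apply le_antisymm
      · rw [Ideal.span_le]
        rintro _ ⟨i, -, rfl⟩
        exact hymem i
      · refine Submodule.le_of_le_smul_of_le_jacobson_bot (I := IsLocalRing.maximalIdeal R)
          (IsNoetherian.noetherian _) hjac ?_
        nth_rewrite 1 [← hT]
        rw [Ideal.span, Submodule.span_le]
        rintro _ ⟨i, hi, rfl⟩
        by_cases hij : i = j
        · subst hij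
          have h2 : Q.y i = algebraMap k R (c i)⁻¹ *
              (∑ j ∈ T, algebraMap k R (c j) * Q.y j) -
              ∑ j ∈ T.erase i, algebraMap k R ((c i)⁻¹ * c j) * Q.y j := by
            rw [← Finset.add_sum_erase T _ hj, mul_add, ← mul_assoc, ← map_mul,
              inv_mul_cancel₀ hcj, map_one, one_mul, Finset.mul_sum, add_sub_assoc,
              ← Finset.sum_sub_distrib, Finset.sum_eq_zero, add_zero]
            intro l _
            rw [map_mul]
            ring
          rw [h2]
          refine Submodule.sub_mem _ (Submodule.mem_sup_right ?_) (Submodule.mem_sup_left ?_)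
          · exact Submodule.smul_mem _ _ hc
          · refine Submodule.sum_mem _ fun l hl => ?_
            exact Submodule.smul_mem _ _ (Submodule.subset_span ⟨l, hl, rfl⟩)
        · refine Submodule.mem_sup_left (Submodule.subset_span ⟨i, ?_, rfl⟩)
          rw [Finset.mem_coe, Finset.mem_erase]
          exact ⟨hij, hi⟩
    have h2 := hmin (T.erase j) (by
      rw [Finset.mem_filter]
      exact ⟨Finset.mem_univ _, h1⟩)
    have h3 := Finset.card_erase_lt_of_mem hj
    omega
  -- expansion of elements of `m`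
  have hexp : ∀ a ∈ IsLocalRing.maximalIdeal R, ∃ s : Fin n → R, ∑ l ∈ T, s l * Q.y l = a := by
    intro a ha
    rw [← hT] at ha
    obtain ⟨s, hs⟩ := Submodule.mem_span_image_finset_iff_exists_fun' R |>.1 ha
    exact ⟨s, hs⟩
  -- expansion of elements of `m • Der`
  have hexpD : ∀ D ∈ IsLocalRing.maximalIdeal R • (⊤ : Submodule R (Derivation k R R)),
      ∃ E : Fin n → Derivation k R R, D = ∑ l ∈ T, Q.y l • E l := by
    intro D hD
    induction hD using Submodule.smul_induction_on' with
    | smul a ha D _ =>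
      obtain ⟨s, hs⟩ := hexp a ha
      refine ⟨fun l => s l • D, ?_⟩
      rw [← hs, Finset.sum_smul]
      refine Finset.sum_congr rfl fun l _ => ?_
      rw [smul_smul, mul_comm]
    | add D _ D' _ h h' =>
      obtain ⟨E, hE⟩ := h
      obtain ⟨E', hE'⟩ := h'
      refine ⟨fun l => E l + E' l, ?_⟩
      rw [hE, hE', ← Finset.sum_add_distrib]
      exact Finset.sum_congr rfl fun l _ => (smul_add _ _ _).symm
  obtain ⟨E, hE⟩ := hexpD _ he
  -- values of the `E l` on the generators
  have hval : ∀ j ∈ T, ∀ l ∈ T, E l (Q.y j) - (if l = j then ((Q.w j : ℕ) : R) else 0) ∈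
      IsLocalRing.maximalIdeal R := by
    intro j hj
    choose c hc using fun l => residue_QH Q (E l (Q.y j) - (if l = j then ((Q.w j : ℕ) : R) else 0))
    have h1 : ∑ l ∈ T, (E l (Q.y j) - (if l = j then ((Q.w j : ℕ) : R) else 0)) * Q.y l = 0 := by
      have h2 := Q.ey j
      rw [hE] at h2
      have h3 : (∑ l ∈ T, Q.y l • E l : Derivation k R R) (Q.y j) = ∑ l ∈ T, Q.y l * E l (Q.y j) := by
        have h4 : (∑ l ∈ T, Q.y l • E l : Derivation k R R) (Q.y j) =
          evY (k := k) Q.y (∑ l ∈ T, Q.y l • E l) j := rfl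
        rw [h4, map_sum, Finset.sum_apply]
        rfl
      rw [h3] at h2
      simp_rw [sub_mul]
      rw [Finset.sum_sub_distrib]
      have h4 : ∑ l ∈ T, (if l = j then ((Q.w j : ℕ) : R) else 0) * Q.y l = (Q.w j : R) * Q.y j := by
        rw [Finset.sum_eq_single j]
        · rw [if_pos rfl]
        · intro l _ hl
          rw [if_neg hl, zero_mul]
        · intro h
          exact (h hj).elim
      rw [h4, sub_eq_zero, ← nsmul_eq_mul, ← h2]
      exact Finset.sum_congr rfl fun l _ => mul_comm _ _
    have h5 : (∑ l ∈ T, algebraMap k R (c l) * Q.y l) ∈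
        IsLocalRing.maximalIdeal R • IsLocalRing.maximalIdeal R := by
      have h6 : ∑ l ∈ T, algebraMap k R (c l) * Q.y l = - ∑ l ∈ T,
          ((E l (Q.y j) - (if l = j then ((Q.w j : ℕ) : R) else 0)) - algebraMap k R (c l)) * Q.y l := by
        simp_rw [sub_mul _ (algebraMap k R _)]
        rw [Finset.sum_sub_distrib, h1]
        ring
      rw [h6]
      refine Submodule.neg_mem _ (Submodule.sum_mem _ fun l _ => ?_)
      exact Submodule.smul_mem_smul (hc l) (hymem l)
    intro l hl
    have h7 := hind c h5 l hl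
    have h8 := hc l
    rwa [h7, map_zero, sub_zero] at h8
  -- the evaluation map is bijective
  let Φ : Derivation k R R →ₗ[R] (T → R) := evY (k := k) (fun j : T => Q.y j)
  have hinj : Function.Injective Φ := by
    rw [← LinearMap.ker_eq_bot, LinearMap.ker_eq_bot']
    intro D hD
    have hD' : ∀ j ∈ T, D (Q.y j) = 0 := fun j hj => congrFun hD ⟨j, hj⟩
    let N : Ideal R := Ideal.span (Set.range D)
    have hN : N ≤ IsLocalRing.maximalIdeal R • N := by
      rw [Ideal.span_le]
      rintro _ ⟨r, rfl⟩
      obtain ⟨c, hc⟩ := residue_QH Q r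
      obtain ⟨s, hs⟩ := hexp _ hc
      have h1 : D r = ∑ l ∈ T, Q.y l * D (s l) := by
        have h2 := congrArg D hs
        rw [map_sub, Derivation.map_algebraMap, sub_zero, map_sum] at h2
        rw [← h2]
        refine Finset.sum_congr rfl fun l hl => ?_
        rw [Derivation.leibniz, hD' l hl, smul_zero, zero_add, smul_eq_mul]
      rw [h1]
      refine Submodule.sum_mem _ fun l _ => ?_
      exact Submodule.smul_mem_smul (hymem l) (Ideal.subset_span ⟨_, rfl⟩)
    have hN0 := Submodule.eq_bot_of_le_smul_of_le_jacobson_bot _ N (IsNoetherian.noetherian _) hN hjac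
    ext r
    have : D r ∈ N := Ideal.subset_span ⟨r, rfl⟩
    rw [hN0] at this
    exact this
  have hsurj : Function.Surjective Φ := by
    rw [← LinearMap.range_eq_top, eq_top_iff]
    refine Submodule.le_of_le_smul_of_le_jacobson_bot (I := IsLocalRing.maximalIdeal R)
      (Module.Finite.fg_top) hjac ?_
    intro x _
    have hw : ∀ l : Fin n, ((Q.w l : ℕ) : k) ≠ 0 := fun l => Nat.cast_ne_zero.2 (Q.wpos l).ne'
    have h1 : x = Φ (∑ l : T, (algebraMap k R ((Q.w l : ℕ) : k)⁻¹ * x l) • E l) +
        (x - Φ (∑ l : T, (algebraMap k R ((Q.w l : ℕ) : k)⁻¹ * x l) • E l)) := by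
      rw [add_sub_cancel]
    rw [h1]
    refine Submodule.add_mem_sup ⟨_, rfl⟩ ?_
    -- the difference has coordinates in `m`
    have h2 : ∀ z : T → R, (∀ j, z j ∈ IsLocalRing.maximalIdeal R) →
        z ∈ IsLocalRing.maximalIdeal R • (⊤ : Submodule R (T → R)) := by
      intro z hz
      have : z = ∑ j, z j • Pi.single j (1 : R) := by
        funext i
        rw [Finset.sum_apply, Finset.sum_eq_single i]
        · simp
        · intro b _ hb
          simp [Pi.single_eq_of_ne (Ne.symm hb)]
        · intro h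
          exact (h (Finset.mem_univ i)).elim
      rw [this]
      exact Submodule.sum_mem _ fun j _ => Submodule.smul_mem_smul (hz j) trivial
    apply h2
    intro j
    have h3 : Φ (∑ l : T, (algebraMap k R ((Q.w l : ℕ) : k)⁻¹ * x l) • E l) j =
        ∑ l : T, (algebraMap k R ((Q.w l : ℕ) : k)⁻¹ * x l) * E l (Q.y j) := by
      rw [map_sum, Finset.sum_apply]
      rfl
    have h4 : x j = ∑ l : T, (algebraMap k R ((Q.w l : ℕ) : k)⁻¹ * x l) *
        (if (l : Fin n) = j then ((Q.w j : ℕ) : R) else 0) := by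
      rw [Finset.sum_eq_single j]
      · rw [if_pos rfl]
        have : ((Q.w (j : Fin n) : ℕ) : R) = algebraMap k R ((Q.w (j : Fin n) : ℕ) : k) := by
          rw [map_natCast]
        rw [this, mul_comm _ (x j), mul_assoc, ← map_mul, inv_mul_cancel₀ (hw j), map_one, mul_one]
      · intro b _ hb
        rw [if_neg (fun h => hb (Subtype.ext h)), mul_zero]
      · intro h
        exact (h (Finset.mem_univ j)).elim
    have h5 : x j - ∑ l : T, (algebraMap k R ((Q.w l : ℕ) : k)⁻¹ * x l) * E l (Q.y j) =
        - ∑ l : T, (algebraMap k R ((Q.w l : ℕ) : k)⁻¹ * x l) *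
          (E l (Q.y j) - (if (l : Fin n) = j then ((Q.w j : ℕ) : R) else 0)) := by
      nth_rewrite 1 [h4]
      rw [← Finset.sum_sub_distrib, ← Finset.sum_neg_distrib]
      refine Finset.sum_congr rfl fun l _ => ?_
      ring
    rw [Pi.sub_apply, h3, h5]
    exact Submodule.neg_mem _ (Submodule.sum_mem _ fun l _ =>
      Ideal.mul_mem_left _ _ (hval j j.2 l l.2))
  exact ⟨T, hT, hinj, hsurj⟩

theorem free_of_mem {k R : Type} [Field k] [CharZero k] [CommRing R] [IsNoetherianRing R]
    [IsLocalRing R] [Algebra k R] {n : ℕ} (Q : QH k R n)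
    (he : Q.e ∈ IsLocalRing.maximalIdeal R • (⊤ : Submodule R (Derivation k R R))) :
    Module.Free R (Derivation k R R) := by
  obtain ⟨T, -, hT⟩ := exists_bij Q he
  exact Module.Free.of_equiv (LinearEquiv.ofBijective _ hT).symm

theorem regular_of_mem {k R : Type} [Field k] [CharZero k] [CommRing R] [IsNoetherianRing R]
    [IsLocalRing R] [Algebra k R] {n : ℕ} (Q : QH k R n)
    (he : Q.e ∈ IsLocalRing.maximalIdeal R • (⊤ : Submodule R (Derivation k R R))) :
    IsRegularLocalRing R := by
  classical
  obtain ⟨T, hT, hT'⟩ := exists_bij Q he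
  let σ : Fin T.card ≃ T := T.equivFin.symm
  choose D hD using fun i : Fin T.card => hT'.2 (Pi.single (σ i) (1 : R))
  refine regular_of_coord (k := k) (fun i => Q.y (σ i)) D ?_ ?_
  · rw [← hT]
    apply le_antisymm
    · rw [Ideal.span_le]
      rintro _ ⟨i, hi, rfl⟩
      refine Ideal.subset_span ⟨σ.symm ⟨i, hi⟩, ?_⟩
      show Q.y (σ (σ.symm ⟨i, hi⟩)) = Q.y i
      rw [Equiv.apply_symm_apply]
    · rw [Ideal.span_le]
      rintro _ ⟨i, rfl⟩
      exact Ideal.subset_span ⟨σ i, (σ i).2, rfl⟩
  · intro i j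
    have h1 := congrFun (hD i) (σ j)
    have h2 : evY (k := k) (fun j : T => Q.y j) (D i) (σ j) = D i (Q.y (σ j)) := rfl
    rw [h2] at h1
    rw [h1, Pi.single_apply]
    by_cases hij : i = j
    · rw [if_pos (by rw [hij]), if_pos hij]
    · rw [if_neg (fun h => hij (σ.injective h).symm), if_neg hij]

end Pool.Agent.HVG
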