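import Pool.Agent.HVG.Defs

/-! The trace lemma. -/

set_option autoImplicit false

namespace Pool.Agent.HVG

open Module

variable {R M Λ : Type} [CommRing R] [AddCommGroup M] [Module R M] (F : SeqRes R M)
    [AddCommGroup Λ] [Module R Λ] (ι inv : Λ →ₗ[R] Λ)

/-- families of maps `Λ ⊗ F_j → F_i` -/
abbrev Fam (i : ℕ) : Type := ∀ j, Λ →ₗ[R] (Fin (F.r j) → R) →ₗ[R] (Fin (F.r i) → R)

/-- `t_i(j)(ι l) + t_i(j-1)(inv l) ∘ φ` -/
noncomputable def rhs {i : ℕ} (t : Fam (Λ := Λ) F i) : Fam (Λ := Λ) F i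
  | 0 => t 0 ∘ₗ ι
  | j + 1 => t (j + 1) ∘ₗ ι + (LinearMap.lcomp R _ (F.φ j)) ∘ₗ (t j ∘ₗ inv)

theorem rhs_zero {i : ℕ} (t : Fam (Λ := Λ) F i) (l : Λ) (f : Fin (F.r 0) → R) :
    rhs F ι inv t 0 l f = t 0 (ι l) f := rfl

theorem rhs_succ {i : ℕ} (t : Fam (Λ := Λ) F i) (j : ℕ) (l : Λ) (f : Fin (F.r (j + 1)) → R) :
    rhs F ι inv t (j + 1) l f = t (j + 1) (ι l) f + t j (inv l) (F.φ j f) := rfl

theorem phi_phi (j : ℕ) (f : Fin (F.r (j + 2)) → R) : F.φ j (F.φ (j + 1) f) = 0 := by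
  have : F.φ (j + 1) f ∈ LinearMap.ker (F.φ j) := by
    rw [← F.exact j]
    exact ⟨f, rfl⟩
  exact this

theorem eps_phi (f : Fin (F.r 1) → R) : F.ε (F.φ 0 f) = 0 := by
  have : F.φ 0 f ∈ LinearMap.ker F.ε := by
    rw [← F.exact0]
    exact ⟨f, rfl⟩
  exact this

variable {F ι inv}

/-- applying `rhs` twice -/
theorem rhs_rhs (hι : ∀ l, ι (ι l) = 0) (hinv : ∀ l, ι (inv l) = - inv (ι l)) {i : ℕ}
    (t : Fam (Λ := Λ) F i) (j : ℕ) (l : Λ) (f : Fin (F.r j) → R) :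
    rhs F ι inv (rhs F ι inv t) j l f = 0 := by
  match j with
  | 0 =>
    rw [rhs_zero, rhs_zero, hι, map_zero]
    rfl
  | 1 =>
    rw [rhs_succ, rhs_succ, rhs_zero, hι, map_zero, LinearMap.zero_apply, zero_add, hinv, map_neg,
      LinearMap.neg_apply, add_neg_cancel]
  | j + 2 =>
    rw [rhs_succ, rhs_succ, rhs_succ, hι, map_zero, LinearMap.zero_apply, zero_add, hinv, map_neg,
      LinearMap.neg_apply, phi_phi, map_zero, add_zero, add_neg_cancel]

/-- lifting of a bilinear map along a linear map whose range contains all values -/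
theorem exists_lift_bilin [Module.Free R Λ] {X Y : Type} [AddCommGroup X] [Module R X]
    [AddCommGroup Y] [Module R Y] {r0 : ℕ} (h : Y →ₗ[R] X)
    (b : Λ →ₗ[R] (Fin r0 → R) →ₗ[R] X) (hb : ∀ l f, b l f ∈ LinearMap.range h) :
    ∃ t : Λ →ₗ[R] (Fin r0 → R) →ₗ[R] Y, ∀ l f, h (t l f) = b l f := by
  classical
  let B := Module.Free.chooseBasis R Λ
  let C := Pi.basisFun R (Fin r0)
  choose z hz using hb
  refine ⟨B.constr R fun i => C.constr R fun j => z (B i) (C j), ?_⟩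
  have key : (LinearMap.compRight R h : ((Fin r0 → R) →ₗ[R] Y) →ₗ[R] _) ∘ₗ
      (B.constr R fun i => C.constr R fun j => z (B i) (C j)) = b := by
    refine B.ext fun i => ?_
    refine C.ext fun j => ?_
    show h ((B.constr R fun i => C.constr R fun j => z (B i) (C j)) (B i) (C j)) = b (B i) (C j)
    rw [Basis.constr_basis, Basis.constr_basis, hz]
  intro l f
  exact LinearMap.congr_fun (LinearMap.congr_fun key l) f

/-- applying a map to `rhs` -/
theorem map_rhs {i i' : ℕ} (t : Fam (Λ := Λ) F i) (t' : Fam (Λ := Λ) F i')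
    (h : (Fin (F.r i) → R) →ₗ[R] (Fin (F.r i') → R))
    (ht : ∀ j l f, h (t j l f) = t' j l f) (j : ℕ) (l : Λ) (f : Fin (F.r j) → R) :
    h (rhs F ι inv t j l f) = rhs F ι inv t' j l f := by
  match j with
  | 0 => rw [rhs_zero, rhs_zero, ht]
  | j + 1 => rw [rhs_succ, rhs_succ, map_add, ht, ht]

/-- one step of the construction -/
theorem exists_step [Module.Free R Λ] (hι : ∀ l, ι (ι l) = 0)
    (hinv : ∀ l, ι (inv l) = - inv (ι l)) (i : ℕ)
    (t : {t : Fam (Λ := Λ) F (i + 1) // ∀ j l f, F.φ i (rhs F ι inv t j l f) = 0}) :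
    ∃ t' : {t : Fam (Λ := Λ) F (i + 1 + 1) // ∀ j l f, F.φ (i + 1) (rhs F ι inv t j l f) = 0},
      ∀ j l f, F.φ (i + 1) (t'.1 j l f) = rhs F ι inv t.1 j l f := by
  have h : ∀ j, ∃ t' : Λ →ₗ[R] (Fin (F.r j) → R) →ₗ[R] (Fin (F.r (i + 1 + 1)) → R),
      ∀ l f, F.φ (i + 1) (t' l f) = rhs F ι inv t.1 j l f := fun j =>
    exists_lift_bilin (F.φ (i + 1)) (rhs F ι inv t.1 j) fun l f => by
      rw [F.exact i]
      exact t.2 j l f
  choose t' ht' using h
  refine ⟨⟨t', fun j l f => ?_⟩, ht'⟩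
  rw [map_rhs (t' := rhs F ι inv t.1) t' (F.φ (i + 1)) ht', rhs_rhs hι hinv]

theorem exists_fam [Module.Free R Λ]
    (hι : ∀ l, ι (ι l) = 0) (hinv : ∀ l, ι (inv l) = - inv (ι l)) (e : M)
    (et : Fin (F.r 0) → R) (het : F.ε et = e)
    (G : ∀ j, Λ →ₗ[R] (Fin (F.r j) → R) →ₗ[R] M)
    (g : ∀ j, Λ →ₗ[R] (Fin (F.r j) → R) →ₗ[R] R)
    (hG0 : ∀ l f, G 0 (ι l) f = g 0 l f • e)
    (hG : ∀ j l f, G (j + 1) (ι l) f + G j (inv l) (F.φ j f) = g (j + 1) l f • e)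
    (hg0 : ∀ l f, g 0 (ι l) f = 0)
    (hg : ∀ j l f, g (j + 1) (ι l) f + g j (inv l) (F.φ j f) = 0) :
    ∃ t : ∀ i, Fam (Λ := Λ) F i,
      (∀ j l f, F.φ 0 (t 1 j l f) = rhs F ι inv (t 0) j l f - g j l f • et) ∧
      ∀ i j l f, F.φ (i + 1) (t (i + 2) j l f) = rhs F ι inv (t (i + 1)) j l f := by
  have h0 : ∀ j, ∃ t : Λ →ₗ[R] (Fin (F.r j) → R) →ₗ[R] (Fin (F.r 0) → R),
      ∀ l f, F.ε (t l f) = G j l f := fun j =>
    exists_lift_bilin F.ε (G j) fun l f => F.surj _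
  choose t0 ht0 using h0
  let cr : Fam (Λ := Λ) F 0 := fun j =>
    (LinearMap.compRight R (LinearMap.toSpanSingleton R (Fin (F.r 0) → R) et)) ∘ₗ g j
  have hcr : ∀ j l f, cr j l f = g j l f • et := fun j l f => rfl
  have hrcr : ∀ j l f, rhs F ι inv cr j l f = 0 := by
    intro j l f
    match j with
    | 0 => rw [rhs_zero, hcr, hg0, zero_smul]
    | j + 1 => rw [rhs_succ, hcr, hcr, ← add_smul, hg, zero_smul]
  have hε : ∀ j l f, F.ε (rhs F ι inv t0 j l f - g j l f • et) = 0 := by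
    intro j l f
    rw [map_sub, map_smul, het]
    match j with
    | 0 => rw [rhs_zero, ht0, hG0, sub_self]
    | j + 1 => rw [rhs_succ, map_add, ht0, ht0, hG, sub_self]
  have h1 : ∀ j, ∃ t : Λ →ₗ[R] (Fin (F.r j) → R) →ₗ[R] (Fin (F.r 1) → R),
      ∀ l f, F.φ 0 (t l f) = (rhs F ι inv t0 j - cr j) l f := fun j =>
    exists_lift_bilin (F.φ 0) (rhs F ι inv t0 j - cr j) fun l f => by
      rw [F.exact0]
      exact hε j l f
  choose t1 ht1 using h1
  have hc1 : ∀ j l f, F.φ 0 (rhs F ι inv t1 j l f) = 0 := by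
    intro j l f
    rw [map_rhs (t' := fun j => rhs F ι inv t0 j - cr j) t1 (F.φ 0) ht1]
    have h2 : rhs F ι inv (fun j => rhs F ι inv t0 j - cr j) j l f =
        rhs F ι inv (rhs F ι inv t0) j l f - rhs F ι inv cr j l f := by
      match j with
      | 0 => rfl
      | j + 1 =>
        rw [rhs_succ F ι inv (fun j => rhs F ι inv t0 j - cr j) j l f,
          rhs_succ F ι inv (rhs F ι inv t0) j l f, rhs_succ F ι inv cr j l f]
        simp only [LinearMap.sub_apply]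
        abel
    rw [h2, rhs_rhs hι hinv, hrcr, sub_zero]
  choose st hst using fun i => exists_step (F := F) (Λ := Λ) hι hinv i
  let sq : ∀ i, {t : Fam (Λ := Λ) F (i + 1) // ∀ j l f, F.φ i (rhs F ι inv t j l f) = 0} :=
    fun i => Nat.rec (motive := fun i =>
      {t : Fam (Λ := Λ) F (i + 1) // ∀ j l f, F.φ i (rhs F ι inv t j l f) = 0})
      ⟨t1, hc1⟩ (fun i t => st i t) i
  refine ⟨fun i => match i with
    | 0 => t0
    | i + 1 => (sq i).1, ?_, ?_⟩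
  · intro j l f
    exact ht1 j l f
  · intro i j l f
    exact hst i (sq i) j l f

theorem trace_lemma {R M Λ : Type} [CommRing R] [AddCommGroup M] [Module R M] (F : SeqRes R M)
    [AddCommGroup Λ] [Module R Λ] [Module.Free R Λ] (ι inv : Λ →ₗ[R] Λ)
    (hι : ∀ l, ι (ι l) = 0) (hinv : ∀ l, ι (inv l) = - inv (ι l)) (u : Λ) (σ : R)
    (hσ : σ * σ = 1) (hu : inv u = σ • u) (e : M) (et : Fin (F.r 0) → R) (het : F.ε et = e)
    (G : ∀ j, Λ →ₗ[R] (Fin (F.r j) → R) →ₗ[R] M)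
    (g : ∀ j, Λ →ₗ[R] (Fin (F.r j) → R) →ₗ[R] R)
    (hG0 : ∀ l f, G 0 (ι l) f = g 0 l f • e)
    (hG : ∀ j l f, G (j + 1) (ι l) f + G j (inv l) (F.φ j f) = g (j + 1) l f • e)
    (hg0 : ∀ l f, g 0 (ι l) f = 0)
    (hg : ∀ j l f, g (j + 1) (ι l) f + g j (inv l) (F.φ j f) = 0) :
    ∃ τ : Λ →ₗ[R] R, g 0 u et = τ (ι u) := by
  rcases subsingleton_or_nontrivial R with hR | hR
  · exact ⟨0, Subsingleton.elim _ _⟩
  obtain ⟨t, h1, h2⟩ := exists_fam (F := F) hι hinv e et het G g hG0 hG hg0 hg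
  -- traces
  let τ : ℕ → Λ →ₗ[R] R := fun j => (LinearMap.trace R (Fin (F.r j) → R)) ∘ₗ (t j j)
  let T : ℕ → R := fun j => LinearMap.trace R (Fin (F.r j) → R) (F.φ j ∘ₗ t (j + 1) j u)
  have hT0 : T 0 = τ 0 (ι u) - g 0 u et := by
    have h3 : F.φ 0 ∘ₗ t 1 0 u = t 0 0 (ι u) -
        (LinearMap.toSpanSingleton R (Fin (F.r 0) → R) et) ∘ₗ (g 0 u) := by
      refine LinearMap.ext fun f => ?_
      rw [LinearMap.comp_apply, h1, rhs_zero]
      rfl
    show LinearMap.trace R _ (F.φ 0 ∘ₗ t 1 0 u) = _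
    rw [h3, map_sub]
    congr 1
    rw [LinearMap.trace_comp_comm']
    have h4 : g 0 u ∘ₗ LinearMap.toSpanSingleton R (Fin (F.r 0) → R) et =
        (g 0 u et) • (LinearMap.id : R →ₗ[R] R) := by
      refine LinearMap.ext fun c => ?_
      show g 0 u (c • et) = g 0 u et * c
      rw [map_smul, smul_eq_mul, mul_comm]
    rw [h4, map_smul, LinearMap.trace_id, Module.finrank_self, Nat.cast_one, smul_eq_mul, mul_one]
  have hTs : ∀ j, T (j + 1) = τ (j + 1) (ι u) + σ * T j := by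
    intro j
    have h3 : F.φ (j + 1) ∘ₗ t (j + 2) (j + 1) u = t (j + 1) (j + 1) (ι u) +
        σ • (t (j + 1) j u ∘ₗ F.φ j) := by
      refine LinearMap.ext fun f => ?_
      rw [LinearMap.comp_apply, h2, rhs_succ, hu, map_smul]
      rfl
    show LinearMap.trace R _ (F.φ (j + 1) ∘ₗ t (j + 2) (j + 1) u) = _
    rw [h3, map_add, map_smul, LinearMap.trace_comp_comm', smul_eq_mul]
    rfl
  have hsum : ∀ n : ℕ, ∑ j ∈ Finset.range (n + 1), σ ^ j * τ j (ι u) = g 0 u et + σ ^ n * T n := by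
    intro n
    induction n with
    | zero =>
      rw [Finset.sum_range_one, hT0]
      ring
    | succ n ih =>
      rw [Finset.sum_range_succ, ih, hTs]
      linear_combination (- σ ^ n * T n) * hσ
  have hTz : T F.s = 0 := by
    have h5 : F.r F.s = 0 := F.zero F.s le_rfl
    have h6 : Subsingleton (Fin (F.r F.s) → R) := by
      rw [h5]
      infer_instance
    have h7 : F.φ F.s ∘ₗ t (F.s + 1) F.s u = 0 := LinearMap.ext fun f => Subsingleton.elim _ _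
    show LinearMap.trace R _ (F.φ F.s ∘ₗ t (F.s + 1) F.s u) = 0
    rw [h7, map_zero]
  refine ⟨∑ j ∈ Finset.range (F.s + 1), σ ^ j • τ j, ?_⟩
  rw [LinearMap.sum_apply]
  have h8 := hsum F.s
  rw [hTz, mul_zero, add_zero] at h8
  rw [← h8]
  rfl

end Pool.Agent.HVG
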