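import Pool.Agent.HVG.Defs

/-!
Module Q: the rings of the theorem are quasi-homogeneous.
-/

set_option autoImplicit false

namespace Pool.Agent.HVG

open TensorProduct Module Pool.Agent.HV

theorem exists_QH (k : Type) [Field k] [CharZero k] (n : ℕ) (w : Fin n → ℕ) (hw : ∀ i, 0 < w i)
    (T : Set (MvPolynomial (Fin n) k))
    (hT : ∀ f ∈ T, ∃ m : ℕ, MvPolynomial.IsWeightedHomogeneous w f m)
    (q : Ideal (MvPolynomial (Fin n) k)) [q.IsPrime]
    (hq : q = Ideal.span (Set.range MvPolynomial.X))
    (I : Ideal (Localization.AtPrime q))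
    (hI : I = Ideal.span (algebraMap (MvPolynomial (Fin n) k) (Localization.AtPrime q) '' T))
    [IsLocalRing (Localization.AtPrime q ⧸ I)] :
    Nonempty (QH k (Localization.AtPrime q ⧸ I) n) := by
  classical
  obtain ⟨d, hd⟩ := exists_der (k := k) (A := Localization.AtPrime q) q.primeCompl
    (fun i => (w i) • algebraMap (MvPolynomial (Fin n) k) (Localization.AtPrime q) (MvPolynomial.X i))
  have hdT : ∀ f ∈ T, ∃ m : ℕ, d (algebraMap (MvPolynomial (Fin n) k) (Localization.AtPrime q) f) =
      m • algebraMap (MvPolynomial (Fin n) k) (Localization.AtPrime q) f := by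
    intro f hf
    obtain ⟨m, hm⟩ := hT f hf
    refine ⟨m, ?_⟩
    have h := der_poly (d.compAlgebraMap (MvPolynomial (Fin n) k)) f
    have h1 : d.compAlgebraMap (MvPolynomial (Fin n) k) f =
      d (algebraMap (MvPolynomial (Fin n) k) (Localization.AtPrime q) f) := rfl
    rw [← h1, h, ← map_nsmul, ← hm.sum_weight_X_mul_pderiv, map_sum]
    refine Finset.sum_congr rfl fun i _ => ?_
    have h2 : d.compAlgebraMap (MvPolynomial (Fin n) k) (MvPolynomial.X i) =
      d (algebraMap (MvPolynomial (Fin n) k) (Localization.AtPrime q) (MvPolynomial.X i)) := rfl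
    rw [h2, hd, map_nsmul, map_mul, Algebra.smul_def, mul_smul_comm, mul_comm]
  have hdI : ∀ x : Localization.AtPrime q, Ideal.Quotient.mk I x = 0 → Ideal.Quotient.mk I (d x) = 0 := by
    intro x hx
    rw [Ideal.Quotient.eq_zero_iff_mem, hI] at hx
    induction hx using Submodule.span_induction with
    | mem x hx =>
      obtain ⟨f, hf, rfl⟩ := hx
      obtain ⟨m, hm⟩ := hdT f hf
      have h0 : Ideal.Quotient.mk I
          (algebraMap (MvPolynomial (Fin n) k) (Localization.AtPrime q) f) = 0 := by
        rw [Ideal.Quotient.eq_zero_iff_mem, hI]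
        exact Ideal.subset_span ⟨f, hf, rfl⟩
      rw [hm, map_nsmul, h0, smul_zero]
    | zero => rw [map_zero, map_zero]
    | add x y _ _ hx hy => rw [map_add, map_add, hx, hy, add_zero]
    | smul a x hx' hx =>
      rw [smul_eq_mul, Derivation.leibniz, map_add, smul_eq_mul, smul_eq_mul, map_mul, map_mul,
        hx, mul_zero, zero_add]
      have : Ideal.Quotient.mk I x = 0 := by
        rw [Ideal.Quotient.eq_zero_iff_mem, hI]
        exact hx'
      rw [this, zero_mul]
  let f : Localization.AtPrime q →ₐ[k] Localization.AtPrime q ⧸ I := Ideal.Quotient.mkₐ k I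
  have hf : Function.Surjective f := Ideal.Quotient.mk_surjective
  have hdI' : ∀ x : Localization.AtPrime q, f x = 0 → f (d x) = 0 := hdI
  let y : Fin n → Localization.AtPrime q ⧸ I := fun i =>
    f (algebraMap (MvPolynomial (Fin n) k) (Localization.AtPrime q) (MvPolynomial.X i))
  have hpoly : ∀ g : MvPolynomial (Fin n) k,
      f (algebraMap (MvPolynomial (Fin n) k) (Localization.AtPrime q) g) ∈
        Algebra.adjoin k (Set.range y) := by
    intro g
    induction g using MvPolynomial.induction_on with
    | C a =>
      have h1 : f (algebraMap (MvPolynomial (Fin n) k) (Localization.AtPrime q) (MvPolynomial.C a)) =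
          algebraMap k _ a := by
        have h2 : (MvPolynomial.C a : MvPolynomial (Fin n) k) = algebraMap k _ a := rfl
        rw [h2, ← IsScalarTower.algebraMap_apply k (MvPolynomial (Fin n) k) (Localization.AtPrime q),
          AlgHom.commutes]
      rw [h1]
      exact Subalgebra.algebraMap_mem _ _
    | add p r hp hr =>
      rw [map_add, map_add]
      exact Subalgebra.add_mem _ hp hr
    | mul_X p i hp =>
      rw [map_mul, map_mul]
      exact Subalgebra.mul_mem _ hp (Algebra.subset_adjoin ⟨i, rfl⟩)
  refine ⟨⟨y, w, hw, Derivation.liftOfSurjective hf hdI', fun i => ?_, ?_, fun r => ?_⟩⟩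
  · have key := Derivation.liftOfSurjective_apply hf hdI'
      (algebraMap (MvPolynomial (Fin n) k) (Localization.AtPrime q) (MvPolynomial.X i))
    rw [hd, map_nsmul] at key
    exact key
  · -- the maximal ideal
    have h1 : (IsLocalRing.maximalIdeal (Localization.AtPrime q ⧸ I)).comap (Ideal.Quotient.mk I) =
        IsLocalRing.maximalIdeal (Localization.AtPrime q) := by
      have : ((IsLocalRing.maximalIdeal (Localization.AtPrime q ⧸ I)).comap
          (Ideal.Quotient.mk I)).IsMaximal :=
        Ideal.comap_isMaximal_of_surjective _ Ideal.Quotient.mk_surjective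
      exact IsLocalRing.eq_maximalIdeal this
    have h2 := Ideal.map_comap_of_surjective (Ideal.Quotient.mk I) Ideal.Quotient.mk_surjective
      (IsLocalRing.maximalIdeal (Localization.AtPrime q ⧸ I))
    rw [h1, ← Localization.AtPrime.map_eq_maximalIdeal, Ideal.map_map] at h2
    rw [← h2]
    have h3 : ∀ (φ : MvPolynomial (Fin n) k →+* (Localization.AtPrime q ⧸ I)),
        Ideal.map φ q = Ideal.span (Set.range fun i => φ (MvPolynomial.X i)) := by
      intro φ
      have h4 : Ideal.map φ q = Ideal.map φ (Ideal.span (Set.range MvPolynomial.X)) :=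
        congrArg (Ideal.map φ) hq
      rw [h4, Ideal.map_span, ← Set.range_comp]
      rfl
    exact h3 _
  · obtain ⟨z, rfl⟩ := hf r
    obtain ⟨⟨g, s⟩, hgs⟩ := IsLocalization.surj q.primeCompl z
    simp only at hgs
    refine ⟨_, hpoly g, _, hpoly s, ?_, ?_⟩
    · exact (IsLocalization.map_units (Localization.AtPrime q) s).map f
    · rw [← map_mul, hgs]

end Pool.Agent.HVG
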