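import Pool.Agent.HVG.Final
import Pool.Agent.HVG.FreeDer
import Pool.Agent.HVG.QHex

set_option autoImplicit false

namespace Pool.Agent.HVG

open TensorProduct Module Pool.Agent.HV

/-- the theorem for an abstract quasi-homogeneous normal local domain -/
theorem free_of_resolution {k R : Type} [Field k] [CharZero k] [CommRing R] [IsDomain R]
    [IsNoetherianRing R] [IsIntegrallyClosed R] [IsLocalRing R] [Algebra k R] {n : ℕ}
    (Q : QH k R n)
    (h : ∃ (P : ℕ → Type) (_ : ∀ i, AddCommGroup (P i)) (_ : ∀ i, Module R (P i)),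
      (∀ i, Module.Projective R (P i)) ∧
      ∃ (d : ∀ i, P (i + 1) →ₗ[R] P i) (ε : P 0 →ₗ[R] Derivation k R R),
        Function.Surjective ε ∧ LinearMap.range (d 0) = LinearMap.ker ε ∧
        (∀ i, LinearMap.range (d (i + 1)) = LinearMap.ker (d i)) ∧
        ∃ m : ℕ, ∀ i, m ≤ i → Subsingleton (P i)) :
    Module.Free R (Derivation k R R) ∧ IsRegularLocalRing R := by
  obtain ⟨P, _, _, hP, d, ε, hε, h0, hd, m, hm⟩ := h
  have hres : HasRes R (m + 2) (Derivation k R R) := HasRes.of_resolution P d ε hε h0 hd m hm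
  have := der_finite_QH Q
  obtain ⟨m', hres'⟩ := ffr_of_hasRes hres
  exact ⟨free_of_mem Q (mem_of_res Q hres'), regular_of_mem Q (mem_of_res Q hres')⟩

end Pool.Agent.HVG
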