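import Pool.Agent.HVG.BaseDef

/-!
Module M: the base ring, the localization of the polynomial ring at the origin.
-/

set_option autoImplicit false

namespace Pool.Agent.HVG

open TensorProduct Module Pool.Agent.HV

/-- the ideal of the origin -/
noncomputable abbrev oIdeal (k : Type) [Field k] (d : ℕ) : Ideal (MvPolynomial (Fin d) k) :=
  Ideal.span (Set.range MvPolynomial.X)

theorem mem_oIdeal {k : Type} [Field k] {d : ℕ} (f : MvPolynomial (Fin d) k) :
    f ∈ oIdeal k d ↔ MvPolynomial.coeff 0 f = 0 := by
  have h := MvPolynomial.mem_ideal_span_X_image (x := f) (s := (Set.univ : Set (Fin d)))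
  rw [Set.image_univ] at h
  refine h.trans ⟨fun h => ?_, fun h m hm => ?_⟩
  · by_contra h0
    obtain ⟨i, -, hi⟩ := h 0 (MvPolynomial.mem_support_iff.2 h0)
    exact hi rfl
  · have hm0 : m ≠ 0 := by
      rintro rfl
      exact MvPolynomial.mem_support_iff.1 hm h
    obtain ⟨i, hi⟩ := Finsupp.ne_iff.1 hm0
    exact ⟨i, Set.mem_univ _, hi⟩

instance oIdeal_isPrime (k : Type) [Field k] (d : ℕ) : (oIdeal k d).IsPrime := by
  have h : oIdeal k d = RingHom.ker (MvPolynomial.constantCoeff : MvPolynomial (Fin d) k →+* k) := by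
    ext f
    rw [mem_oIdeal, RingHom.mem_ker, MvPolynomial.constantCoeff_eq]
  rw [h]
  exact RingHom.ker_isPrime _

/-- the base ring -/
noncomputable abbrev MA (k : Type) [Field k] (d : ℕ) : Type := Localization.AtPrime (oIdeal k d)

/-- a nonconstant polynomial has a nonzero derivative of smaller degree -/
theorem exists_pderiv_ne {k : Type} [Field k] [CharZero k] {d : ℕ} (f : MvPolynomial (Fin d) k)
    (h : 0 < f.totalDegree) : ∃ i, MvPolynomial.pderiv i f ≠ 0 ∧
      (MvPolynomial.pderiv i f).totalDegree < f.totalDegree := by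
  classical
  have hne : f ≠ 0 := by
    rintro rfl
    simp at h
  obtain ⟨m, hm, hdeg⟩ := Finset.exists_mem_eq_sup f.support
    (MvPolynomial.support_nonempty.2 hne) (fun s => Multiset.card (Finsupp.toMultiset s))
  have hdeg' : f.totalDegree = Multiset.card (Finsupp.toMultiset m) := by
    rw [MvPolynomial.totalDegree_eq, hdeg]
  have hm0 : m ≠ 0 := by
    rintro rfl
    rw [hdeg'] at h
    simp at h
  obtain ⟨i, hi⟩ := Finsupp.ne_iff.1 hm0
  refine ⟨i, ?_, ?_⟩
  · have hle : Finsupp.single i 1 ≤ m := by
      rw [Finsupp.single_le_iff]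
      exact Nat.one_le_iff_ne_zero.2 hi
    have hc := MvPolynomial.coeff_pderiv (i := i) f (m - Finsupp.single i 1)
    rw [tsub_add_cancel_of_le hle] at hc
    intro h0
    rw [h0, MvPolynomial.coeff_zero] at hc
    rcases mul_eq_zero.1 hc.symm with h1 | h1
    · exact MvPolynomial.mem_support_iff.1 hm h1
    · have : (((m - Finsupp.single i 1 : Fin d →₀ ℕ) i + 1 : ℕ) : k) ≠ 0 :=
        Nat.cast_ne_zero.2 (Nat.succ_ne_zero _)
      exact this (by push_cast; exact h1)
  · rw [MvPolynomial.totalDegree_eq, Finset.sup_lt_iff (by simpa using h)]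
    intro m' hm'
    rw [MvPolynomial.mem_support_iff, MvPolynomial.coeff_pderiv] at hm'
    have h1 : m' + Finsupp.single i 1 ∈ f.support := by
      rw [MvPolynomial.mem_support_iff]
      intro h0
      exact hm' (by rw [h0, zero_mul])
    have h2 := MvPolynomial.le_totalDegree h1
    rw [Finsupp.card_toMultiset]
    rw [Finsupp.sum_add_index' (fun _ => rfl) (fun _ _ _ => rfl),
      Finsupp.sum_single_index rfl] at h2
    exact h2

theorem exists_base (k : Type) [Field k] [CharZero k] (d : ℕ) :
    ∃ B : Base k (MA k d) d, ∀ a, B.x a = algebraMap _ _ (MvPolynomial.X a : MvPolynomial (Fin d) k) := by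
  classical
  have hder : ∀ a : Fin d, ∃ D : Derivation k (MA k d) (MA k d), ∀ i,
      D (algebraMap (MvPolynomial (Fin d) k) (MA k d) (MvPolynomial.X i)) = if a = i then 1 else 0 :=
    fun a => exists_der (oIdeal k d).primeCompl (fun i => if a = i then 1 else 0)
  choose D hD using hder
  have hpoly : ∀ a (f : MvPolynomial (Fin d) k), D a (algebraMap _ (MA k d) f) =
      algebraMap _ (MA k d) (MvPolynomial.pderiv a f) := by
    intro a f
    have h := der_poly ((D a).compAlgebraMap (MvPolynomial (Fin d) k)) f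
    have h1 : (D a).compAlgebraMap (MvPolynomial (Fin d) k) f = D a (algebraMap _ (MA k d) f) := rfl
    rw [h1] at h
    rw [h, Finset.sum_eq_single a]
    · have h2 : (D a).compAlgebraMap (MvPolynomial (Fin d) k) (MvPolynomial.X a) =
        D a (algebraMap (MvPolynomial (Fin d) k) (MA k d) (MvPolynomial.X a)) := rfl
      rw [h2, hD, if_pos rfl, Algebra.smul_def, mul_one]
    · intro b _ hb
      have h2 : (D a).compAlgebraMap (MvPolynomial (Fin d) k) (MvPolynomial.X b) =
        D a (algebraMap (MvPolynomial (Fin d) k) (MA k d) (MvPolynomial.X b)) := rfl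
      rw [h2, hD, if_neg (Ne.symm hb), smul_zero]
    · intro h
      exact (h (Finset.mem_univ a)).elim
  refine ⟨⟨fun a => algebraMap _ _ (MvPolynomial.X a : MvPolynomial (Fin d) k), D,
    fun a b => hD a b, ?_, ?_⟩, fun a => rfl⟩
  · intro t ht
    by_contra hcon
    push Not at hcon
    -- `P'` is the set of polynomials divisible by `t`
    have hstable : ∀ (f : MvPolynomial (Fin d) k) (a : Fin d), t ∣ algebraMap _ (MA k d) f →
        t ∣ algebraMap _ (MA k d) (MvPolynomial.pderiv a f) := by
      rintro f a ⟨g, hg⟩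
      rw [← hpoly, hg, Derivation.leibniz, smul_eq_mul, smul_eq_mul]
      exact dvd_add (dvd_mul_right _ _) ((hcon a).mul_left _)
    obtain ⟨⟨f0, s⟩, hfs⟩ := IsLocalization.surj (oIdeal k d).primeCompl t
    simp only at hfs
    have hf0 : f0 ≠ 0 := by
      rintro rfl
      rw [map_zero] at hfs
      have hu : IsUnit (algebraMap (MvPolynomial (Fin d) k) (MA k d) s) :=
        IsLocalization.map_units (MA k d) s
      exact ht.ne_zero ((hu.mul_left_eq_zero).1 hfs)
    have hex : ∃ n : ℕ, ∃ f : MvPolynomial (Fin d) k, f ≠ 0 ∧ t ∣ algebraMap _ (MA k d) f ∧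
        f.totalDegree = n := ⟨_, f0, hf0, ⟨_, hfs.symm⟩, rfl⟩
    obtain ⟨f, hf, hft, hfn⟩ := Nat.find_spec hex
    rcases Nat.eq_zero_or_pos f.totalDegree with h0 | h0
    · rw [MvPolynomial.totalDegree_eq_zero_iff_eq_C] at h0
      have hc : MvPolynomial.coeff 0 f ≠ 0 := by
        intro h
        rw [h0, h, MvPolynomial.C_0] at hf
        exact hf rfl
      have hu : IsUnit (algebraMap (MvPolynomial (Fin d) k) (MA k d) f) := by
        rw [h0]
        exact ((isUnit_iff_ne_zero.2 hc).map MvPolynomial.C).map _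
      exact ht.not_isUnit (isUnit_of_dvd_unit hft hu)
    · obtain ⟨i, hi, hlt⟩ := exists_pderiv_ne f h0
      rw [hfn] at hlt
      exact Nat.find_min hex hlt ⟨_, hi, hstable f i hft, rfl⟩
  · rw [Ideal.ne_top_iff_exists_maximal]
    refine ⟨IsLocalRing.maximalIdeal (MA k d), inferInstance, ?_⟩
    rw [Ideal.span_le]
    rintro _ ⟨a, rfl⟩
    show algebraMap (MvPolynomial (Fin d) k) (MA k d) (MvPolynomial.X a) ∈ _
    exact (IsLocalization.AtPrime.to_map_mem_maximal_iff (MA k d) (oIdeal k d) _).2
      (Ideal.subset_span ⟨a, rfl⟩)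

theorem exists_model {k R : Type} [Field k] [CharZero k] [CommRing R] [IsDomain R]
    [IsLocalRing R] [Algebra k R] {n : ℕ} (Q : QH k R n) {d : ℕ} (x : Fin d → R)
    (hx : AlgebraicIndependent k x) (hxm : ∀ a, x a ∈ IsLocalRing.maximalIdeal R)
    (hint : ∀ i, IsIntegral (Algebra.adjoin k (Set.range x)) (Q.y i))
    (hnil : ∀ i, ∃ M : ℕ, ∃ c : Fin d → R, (∀ a, c a ∈ Algebra.adjoin k (Set.range Q.y)) ∧
        Q.y i ^ M = ∑ a, c a * x a) :
    ∃ _ : Algebra (MA k d) R, IsScalarTower k (MA k d) R ∧ Module.Finite (MA k d) R ∧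
      Function.Injective (algebraMap (MA k d) R) ∧
      ∀ a, algebraMap (MA k d) R (algebraMap _ _ (MvPolynomial.X a : MvPolynomial (Fin d) k)) = x a := by
  classical
  -- elements outside the origin become units
  have hunit : ∀ s : (oIdeal k d).primeCompl, IsUnit ((MvPolynomial.aeval x : _ →ₐ[k] R) (s : MvPolynomial (Fin d) k)) := by
    rintro ⟨s, hs⟩
    have hc : MvPolynomial.coeff 0 s ≠ 0 := fun h => hs ((mem_oIdeal s).2 h)
    have h1 : s - MvPolynomial.C (MvPolynomial.coeff 0 s) ∈ oIdeal k d := by
      rw [mem_oIdeal]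
      simp
    have h2 : ∀ f ∈ oIdeal k d, (MvPolynomial.aeval x : MvPolynomial (Fin d) k →ₐ[k] R) f ∈
        IsLocalRing.maximalIdeal R := by
      intro f hf
      have : oIdeal k d ≤ (IsLocalRing.maximalIdeal R).comap (MvPolynomial.aeval x : _ →ₐ[k] R).toRingHom := by
        rw [oIdeal, Ideal.span_le]
        rintro _ ⟨a, rfl⟩
        show (MvPolynomial.aeval x : _ →ₐ[k] R) (MvPolynomial.X a) ∈ IsLocalRing.maximalIdeal R
        rw [MvPolynomial.aeval_X]
        exact hxm a
      exact this hf
    have h3 := h2 _ h1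
    rw [map_sub, MvPolynomial.algHom_C] at h3
    have h4 : IsUnit (algebraMap k R (MvPolynomial.coeff 0 s)) :=
      (isUnit_iff_ne_zero.2 hc).map _
    by_contra hns
    have h5 := (IsLocalRing.mem_maximalIdeal _).2 (mem_nonunits_iff.2 hns)
    have h6 := Ideal.sub_mem _ h5 h3
    rw [sub_sub_cancel] at h6
    exact (IsLocalRing.mem_maximalIdeal _).1 h6 h4
  let φ : MA k d →+* R := IsLocalization.lift (M := (oIdeal k d).primeCompl)
    (g := (MvPolynomial.aeval x : _ →ₐ[k] R).toRingHom) hunit
  have hφ : ∀ f : MvPolynomial (Fin d) k, φ (algebraMap _ _ f) = MvPolynomial.aeval x f := fun f =>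
    IsLocalization.lift_eq hunit f
  let _ : Algebra (MA k d) R := φ.toAlgebra
  have htower : IsScalarTower k (MA k d) R := by
    refine IsScalarTower.of_algebraMap_eq fun c => ?_
    show _ = φ (algebraMap k (MA k d) c)
    rw [IsScalarTower.algebraMap_apply k (MvPolynomial (Fin d) k) (MA k d), hφ]
    simp
  have hinj : Function.Injective φ := by
    rw [injective_iff_map_eq_zero]
    intro z hz
    obtain ⟨⟨f, s⟩, hfs⟩ := IsLocalization.surj (oIdeal k d).primeCompl z
    simp only at hfs
    have h1 := congrArg φ hfs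
    rw [map_mul, hz, zero_mul, hφ] at h1
    have h2 : f = 0 := by
      have := (AlgebraicIndependent.algebraMap_injective hx)
      exact (injective_iff_map_eq_zero _).1 hx f h1.symm
    rw [h2, map_zero] at hfs
    exact ((IsLocalization.map_units (MA k d) s).mul_left_eq_zero).1 hfs
  refine ⟨inferInstance, htower, ?_, hinj, fun a => ?_⟩
  · -- the subalgebra generated by the `y_i`
    let S : Subalgebra (MA k d) R := Algebra.adjoin (MA k d) (Set.range Q.y)
    have hle : ∀ z : R, z ∈ Algebra.adjoin k (Set.range Q.y) → z ∈ S := by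
      intro z hz
      have : Algebra.adjoin k (Set.range Q.y) ≤ S.restrictScalars k := by
        rw [Algebra.adjoin_le_iff]
        exact Algebra.subset_adjoin
      exact this hz
    have hyint : ∀ i, IsIntegral (MA k d) (Q.y i) := by
      intro i
      obtain ⟨P, hP, hP0⟩ := hint i
      -- the coefficients of `P` lie in the image of the base ring
      have hcoef : ∀ c : Algebra.adjoin k (Set.range x), ∃ z : MA k d, φ z = c := by
        rintro ⟨c, hc⟩
        have : Algebra.adjoin k (Set.range x) ≤ (Algebra.ofId (MA k d) R).range.restrictScalars k := by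
          rw [Algebra.adjoin_le_iff]
          rintro _ ⟨a, rfl⟩
          refine ⟨algebraMap _ _ (MvPolynomial.X a : MvPolynomial (Fin d) k), ?_⟩
          show φ _ = _
          rw [hφ, MvPolynomial.aeval_X]
        obtain ⟨z, hz⟩ := this hc
        exact ⟨z, hz⟩
      have hl : P.map (algebraMap (Algebra.adjoin k (Set.range x)) R) ∈ Polynomial.lifts φ := by
        rw [Polynomial.lifts_iff_coeff_lifts]
        intro m
        rw [Polynomial.coeff_map]
        obtain ⟨z, hz⟩ := hcoef (P.coeff m)
        exact ⟨z, hz⟩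
      obtain ⟨q, hq, -, hqm⟩ := Polynomial.lifts_and_natDegree_eq_and_monic hl (hP.map _)
      refine ⟨q, hqm, ?_⟩
      show Polynomial.eval₂ φ _ q = 0
      rw [← Polynomial.eval_map, hq, Polynomial.eval_map]
      exact hP0
    have hfin : Module.Finite (MA k d) S := by
      have : (Subalgebra.toSubmodule S).FG := by
        refine fg_adjoin_of_finite (Set.finite_range _) ?_
        rintro _ ⟨i, rfl⟩
        exact hyint i
      exact Module.Finite.iff_fg.2 this
    have hSint : Algebra.IsIntegral (MA k d) S := inferInstance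
    have hySmem : ∀ i, Q.y i ∈ S := fun i => Algebra.subset_adjoin ⟨i, rfl⟩
    -- residues
    have hres : ∀ (J : Ideal S), (∀ i, (⟨Q.y i, hySmem i⟩ : S) ∈ J) →
        ∀ b, b ∈ Algebra.adjoin k (Set.range Q.y) → ∃ β : k, ∃ z ∈ J,
          (z : R) = b - algebraMap k R β := by
      intro J hJ b hb
      induction hb using Algebra.adjoin_induction with
      | mem z hz =>
        obtain ⟨i, rfl⟩ := hz
        refine ⟨0, _, hJ i, ?_⟩
        rw [map_zero, sub_zero]
      | algebraMap c =>
        refine ⟨c, 0, J.zero_mem, ?_⟩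
        rw [sub_self]
        rfl
      | add a b ha hb iha ihb =>
        obtain ⟨β, z, hz, h1⟩ := iha
        obtain ⟨γ, w, hw, h2⟩ := ihb
        refine ⟨β + γ, z + w, J.add_mem hz hw, ?_⟩
        show (z : R) + (w : R) = _
        rw [map_add, h1, h2]
        ring
      | mul a b ha hb iha ihb =>
        obtain ⟨β, z, hz, h1⟩ := iha
        obtain ⟨γ, w, hw, h2⟩ := ihb
        refine ⟨β * γ, z * ⟨b, hle b hb⟩ + algebraMap k S β * w,
          J.add_mem (J.mul_mem_right _ hz) (J.mul_mem_left _ hw), ?_⟩
        show (z : R) * b + algebraMap k R β * (w : R) = _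
        rw [map_mul, h1, h2]
        ring
    have htop : S = ⊤ := by
      rw [eq_top_iff]
      intro r _
      obtain ⟨a, ha, b, hb, hbu, hab⟩ := Q.frac r
      -- `b` is a unit of `S`
      have hbS : IsUnit (⟨b, hle b hb⟩ : S) := by
        by_contra hnu
        obtain ⟨N, hN, hbN⟩ := exists_max_ideal_of_mem_nonunits (mem_nonunits_iff.2 hnu)
        have hNm : (N.comap (algebraMap (MA k d) S)).IsMaximal :=
          Ideal.isMaximal_comap_of_isIntegral_of_isMaximal (R := MA k d) (S := S) N
        have hNeq := IsLocalRing.eq_maximalIdeal hNm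
        have hxN : ∀ (a : Fin d) (h : x a ∈ S), (⟨x a, h⟩ : S) ∈ N := by
          intro a h
          have h1 : algebraMap (MvPolynomial (Fin d) k) (MA k d) (MvPolynomial.X a) ∈
              N.comap (algebraMap (MA k d) S) := by
            rw [hNeq]
            exact (IsLocalization.AtPrime.to_map_mem_maximal_iff (MA k d) (oIdeal k d) _).2
              (Ideal.subset_span ⟨a, rfl⟩)
          rw [Ideal.mem_comap] at h1
          convert h1 using 1
          apply Subtype.ext
          show x a = φ _
          rw [hφ, MvPolynomial.aeval_X]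
        have hxS : ∀ a, x a ∈ S := by
          intro a
          have : x a = algebraMap (MA k d) R (algebraMap (MvPolynomial (Fin d) k) _ (MvPolynomial.X a)) := by
            show x a = φ _
            rw [hφ, MvPolynomial.aeval_X]
          rw [this]
          exact Subalgebra.algebraMap_mem _ _
        have hyN : ∀ i, (⟨Q.y i, hySmem i⟩ : S) ∈ N := by
          intro i
          obtain ⟨M, c, hc, hM⟩ := hnil i
          refine hN.isPrime.mem_of_pow_mem M ?_
          have : (⟨Q.y i, hySmem i⟩ : S) ^ M = ∑ a, (⟨c a, hle _ (hc a)⟩ : S) * ⟨x a, hxS a⟩ := by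
            apply Subtype.ext
            rw [SubmonoidClass.coe_pow, AddSubmonoidClass.coe_finsetSum]
            exact hM
          rw [this]
          exact N.sum_mem fun a _ => N.mul_mem_left _ (hxN a _)
        have hyJ : ∀ i, (⟨Q.y i, hySmem i⟩ : S) ∈
            N ⊓ (IsLocalRing.maximalIdeal R).comap (algebraMap S R) := by
          intro i
          refine ⟨hyN i, ?_⟩
          show Q.y i ∈ IsLocalRing.maximalIdeal R
          rw [Q.max]
          exact Ideal.subset_span ⟨i, rfl⟩
        obtain ⟨β, z, hzJ, hz⟩ := hres _ hyJ b hb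
        have hβ0 : β ≠ 0 := by
          rintro rfl
          have h1 : (z : R) ∈ IsLocalRing.maximalIdeal R := hzJ.2
          rw [hz, map_zero, sub_zero] at h1
          exact (IsLocalRing.mem_maximalIdeal _).1 h1 hbu
        have h2 : algebraMap k S β ∈ N := by
          have h3 : algebraMap k S β = ⟨b, hle b hb⟩ + algebraMap k S (-1) * z := by
            apply Subtype.ext
            show algebraMap k R β = b + algebraMap k R (-1) * (z : R)
            rw [hz, map_neg, map_one]
            ring
          have h4 : z ∈ N := hzJ.1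
          rw [h3]
          exact N.add_mem hbN (N.mul_mem_left _ h4)
        exact hN.ne_top (Ideal.eq_top_of_isUnit_mem _ h2 ((isUnit_iff_ne_zero.2 hβ0).map _))
      obtain ⟨u, hu⟩ := hbS
      have h1 : r = ((⟨a, hle a ha⟩ : S) * (↑u⁻¹ : S) : S) := by
        have h2 : ((↑u : S) : R) * ((↑u⁻¹ : S) : R) = 1 := by
          have := congrArg (Subtype.val) (Units.mul_inv u)
          exact this
        have h3 : ((↑u : S) : R) = b := by rw [hu]
        show r = a * ((↑u⁻¹ : S) : R)
        rw [← hab, mul_assoc, ← h3, h2, mul_one]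
      rw [h1]
      exact ((⟨a, hle a ha⟩ : S) * (↑u⁻¹ : S) : S).2
    exact Module.Finite.of_surjective (S.val.toLinearMap) (fun r => by
      have : r ∈ S := by rw [htop]; trivial
      exact ⟨⟨r, this⟩, rfl⟩)
  · show φ _ = _
    rw [hφ, MvPolynomial.aeval_X]

end Pool.Agent.HVG
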